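import Pool.Agent.Helper30.FG.Defs
import Pool.Agent.Helper22.PA.OfIsE

/-!
# Project FG (MP_1b8a6f_an), part (8): the sufficient condition. Definitions (helper22)

`E s = s s'`; `G s c = z E(z)/(z² - c²)` for a zero `c` of `E s` (by two `dslope`s, also for `c = 0`).
`PellData s P Q`: `s` in the class, real simple zeros of `s` and `s'`, and the Pell-Abel equation.
-/

set_option autoImplicit false

namespace Helper22.SC

open Complex MeasureTheory Set Filter Topology Polynomial
open Pool.Agent.Helper30.FG Pool.Agent.Helper78.Bern Pool.Agent.Helper45.Bern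

noncomputable def E (s : ℂ → ℂ) (z : ℂ) : ℂ := s z * deriv s z

noncomputable def G (s : ℂ → ℂ) (c : ℝ) : ℂ → ℂ :=
  dslope (dslope (fun z => z * E s z) (c : ℂ)) (-(c : ℂ))

/-- the real zeros of `E s` -/
def Node (s : ℂ → ℂ) : Type := {x : ℝ // E s (x : ℂ) = 0}

structure PellData (s : ℂ → ℂ) (P Q : ℝ[X]) : Prop where
  hs : IsE (1 / 2) 1 s
  h0 : s 0 ≠ 0
  zr : ∀ z : ℂ, s z = 0 → z.im = 0 ∧ deriv s z ≠ 0
  cr : ∀ z : ℂ, deriv s z = 0 → z.im = 0 ∧ deriv (deriv s) z ≠ 0
  Pm : P.Monic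
  Qm : Q.Monic
  deg : Q.natDegree = 2 * P.natDegree
  even : ∀ x : ℝ, P.eval (-x) ^ 2 = P.eval x ^ 2
  eq : ∀ z : ℂ, 4 * deriv s z ^ 2 * aeval z Q = (1 - s z ^ 2) * aeval z P ^ 2

variable {s : ℂ → ℂ} {P Q : ℝ[X]}

theorem PellData.evenRR (h : PellData s P Q) : PA.EvenRR s 1 (1 / 2) :=
  PA.evenRR_of_isE h.hs h.h0 h.zr

theorem differentiable_deriv (h : IsE (1 / 2) 1 s) : Differentiable ℂ (deriv s) := by
  rw [← differentiableOn_univ]
  exact h.b.diff.differentiableOn.deriv isOpen_univ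

theorem differentiable_E (h : IsE (1 / 2) 1 s) : Differentiable ℂ (E s) :=
  h.b.diff.mul (differentiable_deriv h)

theorem differentiable_G (h : IsE (1 / 2) 1 s) (c : ℝ) : Differentiable ℂ (G s c) :=
  PA.differentiable_dslope (PA.differentiable_dslope (differentiable_id.mul (differentiable_E h)) _) _

theorem E_odd (h : IsE (1 / 2) 1 s) (z : ℂ) : E s (-z) = - E s z := by
  have h1 : deriv s (-z) = - deriv s z := by
    have h2 : (fun w => s (-w)) = s := funext h.even
    have h3 : deriv (fun w => s (-w)) z = - deriv s (-z) := deriv_comp_neg s z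
    rw [h2] at h3
    rw [h3, neg_neg]
  unfold E
  rw [h.even, h1]
  ring

theorem E_zero (h : IsE (1 / 2) 1 s) : E s 0 = 0 := by
  have := E_odd h 0
  rw [neg_zero] at this
  have h2 : (2 : ℂ) * E s 0 = 0 := by linear_combination this
  simpa using h2

end Helper22.SC
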