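import Mathlib

/-!
[SC-PolyInf] `Q/P² = 1 + O(z⁻²)`. `D = Q - P²` has `natDegree ≤ 2n - 2` (`n = natDegree P`; or `D = 0`): monic of the
same degree `2n`, so `natDegree D < 2n`, and `D` is even (`D(-x) = D(x)` for real `x`), so its coefficient of
the odd degree `2n - 1` vanishes (`n ≥ 1`). Then `‖D z‖ ≤ C ‖z‖^(2n-2)` and `‖P z‖² ≥ ‖z‖^(2n)/4` for large `‖z‖`.
(`n = 0`: `P = Q = 1`.)
-/

set_option autoImplicit false

namespace Helper22.SC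

open Polynomial

private theorem pinf_le (p : ℝ[X]) (m : ℕ) (hp : p.natDegree ≤ m) :
    ∃ B : ℝ, 0 ≤ B ∧ ∀ z : ℂ, 1 ≤ ‖z‖ → ‖aeval z p‖ ≤ B * ‖z‖ ^ m := by
  refine ⟨∑ i ∈ Finset.range (m + 1), |p.coeff i|, Finset.sum_nonneg fun _ _ => abs_nonneg _,
    fun z hz => ?_⟩
  rw [aeval_eq_sum_range' (Nat.lt_succ_of_le hp), Finset.sum_mul]
  refine (norm_sum_le _ _).trans (Finset.sum_le_sum fun i hi => ?_)
  rw [norm_smul, norm_pow, Real.norm_eq_abs]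
  exact mul_le_mul_of_nonneg_left
    (pow_le_pow_right₀ hz (Nat.le_of_lt_succ (Finset.mem_range.1 hi))) (abs_nonneg _)

private theorem pinf_lead {P : ℝ[X]} (hP : P.Monic) :
    ∃ B : ℝ, 0 ≤ B ∧ ∀ z : ℂ, 1 ≤ ‖z‖ →
      ‖aeval z P - z ^ P.natDegree‖ * ‖z‖ ≤ B * ‖z‖ ^ P.natDegree := by
  have haev : ∀ z : ℂ, aeval z P - z ^ P.natDegree = aeval z (P - X ^ P.natDegree) := by
    intro z
    rw [map_sub, map_pow, aeval_X]
  rcases Nat.eq_zero_or_pos P.natDegree with h0 | h0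
  · have h1 : P = 1 := by
      have h2 := hP.coeff_natDegree
      rw [h0] at h2
      rw [eq_C_of_natDegree_eq_zero h0, h2, C_1]
    refine ⟨0, le_rfl, fun z _ => ?_⟩
    rw [h0, h1]
    simp
  · obtain ⟨m, hm⟩ : ∃ m, P.natDegree = m + 1 := ⟨P.natDegree - 1, by omega⟩
    have hdeg : (P - X ^ P.natDegree).natDegree ≤ m := by
      rw [natDegree_le_iff_coeff_eq_zero]
      intro N hN
      rw [coeff_sub, coeff_X_pow]
      by_cases h : N = P.natDegree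
      · rw [if_pos h, h, hP.coeff_natDegree, sub_self]
      · rw [if_neg h, coeff_eq_zero_of_natDegree_lt (by omega), sub_zero]
    obtain ⟨B, hB, h⟩ := pinf_le _ m hdeg
    refine ⟨B, hB, fun z hz => ?_⟩
    rw [haev]
    calc ‖aeval z (P - X ^ P.natDegree)‖ * ‖z‖ ≤ B * ‖z‖ ^ m * ‖z‖ :=
          mul_le_mul_of_nonneg_right (h z hz) (norm_nonneg z)
      _ = B * ‖z‖ ^ P.natDegree := by rw [hm, pow_succ]; ring

theorem ratio_bound {P Q : ℝ[X]} (hP : P.Monic) (hQ : Q.Monic)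
    (hd : Q.natDegree = 2 * P.natDegree) (heP : ∀ x : ℝ, P.eval (-x) ^ 2 = P.eval x ^ 2)
    (heQ : ∀ x : ℝ, Q.eval (-x) = Q.eval x) :
    ∃ R₀ C : ℝ, 1 ≤ R₀ ∧ 0 < C ∧ ∀ z : ℂ, R₀ ≤ ‖z‖ →
      aeval z P ≠ 0 ∧ aeval z Q ≠ 0 ∧ ‖aeval z Q / aeval z P ^ 2 - 1‖ ≤ C / ‖z‖ ^ 2 ∧
      ‖aeval z Q / aeval z P ^ 2 - 1‖ ≤ 1 / 2 := by
  obtain ⟨n, hn⟩ : ∃ n, n = P.natDegree := ⟨_, rfl⟩
  obtain ⟨B, hB, hlead⟩ := pinf_lead hP
  rw [← hn] at hlead hd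
  -- the difference
  have hP2 : (P ^ 2).Monic := hP.pow 2
  have hP2d : (P ^ 2).natDegree = 2 * n := by rw [hP.natDegree_pow, hn]
  have hDeven : (Q - P ^ 2).comp (C (-1) * X) = Q - P ^ 2 := by
    refine Polynomial.funext fun x => ?_
    rw [eval_comp]
    have h1 : eval x (C (-1) * X : ℝ[X]) = -x := by simp
    rw [h1, eval_sub, eval_sub, eval_pow, eval_pow, heP, heQ]
  have hodd : ∀ k, Odd k → (Q - P ^ 2).coeff k = 0 := by
    intro k hk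
    have h1 : ((Q - P ^ 2).comp (C (-1) * X)).coeff k = (Q - P ^ 2).coeff k := by rw [hDeven]
    rw [comp_C_mul_X_coeff, hk.neg_one_pow] at h1
    linarith
  have hbig : ∀ k, 2 * n ≤ k → (Q - P ^ 2).coeff k = 0 := by
    intro k hk
    rw [coeff_sub]
    rcases hk.lt_or_eq with h | h
    · rw [coeff_eq_zero_of_natDegree_lt (by rw [hd]; exact h),
        coeff_eq_zero_of_natDegree_lt (by rw [hP2d]; exact h), sub_zero]
    · have h1 : Q.coeff k = 1 := by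
        rw [← h, ← hd]
        exact hQ.coeff_natDegree
      have h2 : (P ^ 2).coeff k = 1 := by
        rw [← h, ← hP2d]
        exact hP2.coeff_natDegree
      rw [h1, h2, sub_self]
  obtain ⟨C₀, hC₀, hD⟩ : ∃ C₀ : ℝ, 0 ≤ C₀ ∧ ∀ z : ℂ, 1 ≤ ‖z‖ →
      ‖aeval z (Q - P ^ 2)‖ * ‖z‖ ^ 2 ≤ C₀ * ‖z‖ ^ (2 * n) := by
    rcases Nat.eq_zero_or_pos n with h0 | h0
    · have h1 : Q - P ^ 2 = 0 := by
        ext k
        rw [hbig k (by omega), coeff_zero]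
      refine ⟨0, le_rfl, fun z _ => ?_⟩
      rw [h1]
      simp
    · obtain ⟨m, hm⟩ : ∃ m, n = m + 1 := ⟨n - 1, by omega⟩
      have hdeg : (Q - P ^ 2).natDegree ≤ 2 * m := by
        rw [natDegree_le_iff_coeff_eq_zero]
        intro N hN
        rcases (show 2 * m + 1 ≤ N from hN).lt_or_eq with h | h
        · exact hbig N (by omega)
        · rw [← h]
          exact hodd _ ⟨m, rfl⟩
      obtain ⟨B', hB', h⟩ := pinf_le _ _ hdeg
      refine ⟨B', hB', fun z hz => ?_⟩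
      calc ‖aeval z (Q - P ^ 2)‖ * ‖z‖ ^ 2 ≤ B' * ‖z‖ ^ (2 * m) * ‖z‖ ^ 2 :=
            mul_le_mul_of_nonneg_right (h z hz) (by positivity)
        _ = B' * ‖z‖ ^ (2 * n) := by rw [hm, Nat.mul_add, pow_add]; ring
  refine ⟨1 + 2 * B + 8 * C₀, 4 * C₀ + 1, by linarith, by linarith, fun z hz => ?_⟩
  have hz1 : 1 ≤ ‖z‖ := by linarith
  have hz0 : 0 < ‖z‖ := by linarith
  have hzn : 0 < ‖z‖ ^ n := pow_pos hz0 n
  -- lower bound of `P`
  have hPlow : ‖z‖ ^ n / 2 ≤ ‖aeval z P‖ := by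
    have h1 := hlead z hz1
    have h2 : ‖aeval z P - z ^ n‖ ≤ ‖z‖ ^ n / 2 := by
      have h3 : B * ‖z‖ ^ n ≤ ‖z‖ ^ n / 2 * ‖z‖ := by nlinarith
      have h4 := h1.trans h3
      exact le_of_mul_le_mul_right h4 hz0
    have h5 : ‖z ^ n‖ - ‖aeval z P‖ ≤ ‖z ^ n - aeval z P‖ := norm_sub_norm_le _ _
    rw [norm_sub_rev, norm_pow] at h5
    linarith
  have hPne : aeval z P ≠ 0 := by
    intro h
    rw [h, norm_zero] at hPlow
    linarith
  have hPn : 0 < ‖aeval z P‖ := norm_pos_iff.2 hPne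
  -- the ratio
  have hrat : aeval z Q / aeval z P ^ 2 - 1 = aeval z (Q - P ^ 2) / aeval z P ^ 2 := by
    rw [map_sub, map_pow, sub_div, div_self (pow_ne_zero 2 hPne)]
  have hsq : ‖z‖ ^ (2 * n) ≤ 4 * ‖aeval z P‖ ^ 2 := by
    have h1 : (‖z‖ ^ n / 2) ^ 2 ≤ ‖aeval z P‖ ^ 2 := pow_le_pow_left₀ (by positivity) hPlow 2
    have h2 : ‖z‖ ^ (2 * n) = (‖z‖ ^ n) ^ 2 := by rw [← pow_mul, mul_comm]
    rw [h2]
    linarith
  have hmain : ‖aeval z Q / aeval z P ^ 2 - 1‖ ≤ 4 * C₀ / ‖z‖ ^ 2 := by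
    rw [hrat, norm_div, norm_pow, div_le_div_iff₀ (by positivity) (by positivity)]
    calc ‖aeval z (Q - P ^ 2)‖ * ‖z‖ ^ 2 ≤ C₀ * ‖z‖ ^ (2 * n) := hD z hz1
      _ ≤ C₀ * (4 * ‖aeval z P‖ ^ 2) := mul_le_mul_of_nonneg_left hsq hC₀
      _ = 4 * C₀ * ‖aeval z P‖ ^ 2 := by ring
  have hhalf : ‖aeval z Q / aeval z P ^ 2 - 1‖ ≤ 1 / 2 := by
    refine hmain.trans ?_
    rw [div_le_div_iff₀ (by positivity) (by norm_num)]
    nlinarith
  refine ⟨hPne, ?_, ?_, hhalf⟩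
  · intro h
    rw [h, zero_div, zero_sub, norm_neg, norm_one] at hhalf
    norm_num at hhalf
  · refine hmain.trans ?_
    exact div_le_div_of_nonneg_right (by linarith) (by positivity)

end Helper22.SC
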