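import Pool.Agent.Helper22.SC.Defs
import Pool.Agent.Helper22.SC.PolyInf
import Pool.Agent.Helper22.PA.Good

/-!
[SC-Nodes] The real zeros (nodes) of `E = s s'`. `E' = s'² + s s''`.
At a zero `c` of `s`: Pell-Abel gives `4 s'² Q = P²`, so `E' = s'² = P²/(4Q) > 0` (`P c ≠ 0`), close to `1/4` for
large `|c|` (`ratio_bound`). At a critical point `c`: `E' = s s''`; if `P c ≠ 0` then `s² = 1`, and comparing the
second order terms in Pell-Abel `4 s''² Q = -s s'' P²`, so `s s'' = -P²/(4Q) < 0`. If `P c = 0`: `E' ≠ 0` by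
`cr` and `zr`; finitely many. The zeros of `E` in a bounded interval are finite (`PA.finite_zeros`). Spacing:
`‖E''‖ ≤ C` on the real line (`second_bound`) and `|E'| ≥ c₀` at the zeros, so two zeros have distance
`≥ δ₀ = 2 c₀/C` (Taylor), hence summability.
-/

set_option autoImplicit false

namespace Helper22.SC

open Complex MeasureTheory Set Filter Topology Polynomial
open Pool.Agent.Helper30.FG

variable {s : ℂ → ℂ} {P Q : ℝ[X]}

namespace Nodes

theorem diff_deriv {f : ℂ → ℂ} (hf : Differentiable ℂ f) : Differentiable ℂ (deriv f) :=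
  differentiableOn_univ.1 ((differentiableOn_univ.2 hf).deriv isOpen_univ)

theorem real_deriv {f : ℂ → ℂ} (hf : Differentiable ℂ f) (hr : ∀ x : ℝ, (f (x : ℂ)).im = 0)
    (x : ℝ) : (deriv f (x : ℂ)).im = 0 := by
  have h1 := (hf (x : ℂ)).hasDerivAt.comp_ofReal
  have h2 := Complex.imCLM.hasFDerivAt.comp_hasDerivAt x h1
  have h3 : (Complex.imCLM ∘ fun y : ℝ => f (y : ℂ)) = fun _ => (0 : ℝ) := by
    funext y
    simpa using hr y
  rw [h3] at h2
  simpa using h2.unique (hasDerivAt_const x (0 : ℝ))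

theorem re_deriv {f : ℂ → ℂ} (hf : Differentiable ℂ f) (x : ℝ) :
    HasDerivAt (fun y : ℝ => (f (y : ℂ)).re) (deriv f (x : ℂ)).re x := by
  have h1 := (hf (x : ℂ)).hasDerivAt.comp_ofReal
  have h2 := Complex.reCLM.hasFDerivAt.comp_hasDerivAt x h1
  simpa [Function.comp_def] using h2

theorem hasDerivAt_E (hs : Differentiable ℂ s) (z : ℂ) :
    HasDerivAt (E s) (deriv s z ^ 2 + s z * deriv (deriv s) z) z := by
  have h1 := (hs z).hasDerivAt.mul ((diff_deriv hs) z).hasDerivAt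
  have h2 : deriv s z * deriv s z + s z * deriv (deriv s) z =
      deriv s z ^ 2 + s z * deriv (deriv s) z := by ring
  rw [h2] at h1
  exact h1

theorem deriv_E (hs : Differentiable ℂ s) (z : ℂ) :
    deriv (E s) z = deriv s z ^ 2 + s z * deriv (deriv s) z := (hasDerivAt_E hs z).deriv

theorem deriv_E_zero (h : PellData s P Q) {z : ℂ} (hx : s z = 0) :
    deriv (E s) z = deriv s z ^ 2 := by
  rw [deriv_E h.hs.b.diff, hx, zero_mul, add_zero]

theorem deriv_E_crit (h : PellData s P Q) {z : ℂ} (hx : deriv s z = 0) :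
    deriv (E s) z = s z * deriv (deriv s) z := by
  rw [deriv_E h.hs.b.diff, hx]
  ring

theorem deriv_E_ne (h : PellData s P Q) {z : ℂ} (hz : E s z = 0) : deriv (E s) z ≠ 0 := by
  rcases mul_eq_zero.1 hz with h1 | h1
  · rw [deriv_E_zero h h1]
    exact pow_ne_zero 2 (h.zr z h1).2
  · rw [deriv_E_crit h h1]
    exact mul_ne_zero (fun h2 => (h.zr z h2).2 h1) (h.cr z h1).2

theorem exists_E_ne (h : PellData s P Q) : ∃ z, E s z ≠ 0 := by
  by_contra hcon
  push Not at hcon
  have h1 : E s = fun _ => 0 := funext hcon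
  have h2 := deriv_E_ne h (hcon 0)
  rw [h1] at h2
  simp at h2

end Nodes

open Nodes

theorem Eprime_real (h : PellData s P Q) (x : ℝ) : (deriv (E s) (x : ℂ)).im = 0 := by
  have hd := h.hs.b.diff
  have h0 := h.hs.real x
  have h1 := real_deriv hd h.hs.real x
  have h2 := real_deriv (diff_deriv hd) (real_deriv hd h.hs.real) x
  rw [deriv_E hd, sq, Complex.add_im, Complex.mul_im, Complex.mul_im, h0, h1, h2]
  ring

theorem Eprime_zero (h : PellData s P Q) {x : ℝ} (hx : s (x : ℂ) = 0) :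
    0 < (deriv (E s) (x : ℂ)).re := by
  have hd := h.hs.b.diff
  have h1 := real_deriv hd h.hs.real x
  have h2 : (deriv s (x : ℂ)).re ≠ 0 := by
    intro h3
    exact (h.zr _ hx).2 (Complex.ext h3 h1)
  rw [deriv_E_zero h hx, sq, Complex.mul_re, h1, mul_zero, sub_zero]
  exact mul_self_pos.2 h2

theorem Eprime_crit (h : PellData s P Q) {x : ℝ} (hx : deriv s (x : ℂ) = 0)
    (h1 : ‖s (x : ℂ)‖ = 1) : (deriv (E s) (x : ℂ)).re < 0 := by
  have hd := h.hs.b.diff
  have hdE : Differentiable ℂ (E s) := differentiable_E h.hs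
  have hE0 : E s (x : ℂ) = 0 := by unfold E; rw [hx, mul_zero]
  have hne : (deriv (E s) (x : ℂ)).re ≠ 0 := by
    intro h3
    exact deriv_E_ne h hE0 (Complex.ext h3 (Eprime_real h x))
  rcases lt_or_gt_of_ne hne with h2 | h2
  · exact h2
  exfalso
  -- `e > 0` right of `x`
  have he : HasDerivAt (fun y : ℝ => (E s (y : ℂ)).re) (deriv (E s) (x : ℂ)).re x := re_deriv hdE x
  have hev : ∀ᶠ y : ℝ in 𝓝[>] x, 0 < (E s (y : ℂ)).re := by
    have h3 := he.tendsto_slope.mono_left
      (nhdsWithin_mono x fun y (hy : x < y) => (ne_of_gt hy : y ≠ x))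
    have h4 := h3.eventually_const_lt h2
    filter_upwards [h4, self_mem_nhdsWithin] with y hy hxy
    have hxy' : x < y := hxy
    rw [slope_def_field, hE0, Complex.zero_re, sub_zero] at hy
    have h5 : 0 < y - x := by linarith
    by_contra hcon
    push Not at hcon
    have := div_nonpos_of_nonpos_of_nonneg hcon h5.le
    linarith
  obtain ⟨b, hb, hball⟩ := (mem_nhdsGT_iff_exists_Ioo_subset).1 hev
  have hb' : x < b := hb
  set y : ℝ := (x + b) / 2 with hy
  have hxy : x < y := by rw [hy]; linarith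
  have hyb : y < b := by rw [hy]; linarith
  have hu : ∀ t : ℝ, HasDerivAt (fun t : ℝ => (s (t : ℂ)).re ^ 2) (2 * (E s (t : ℂ)).re) t := by
    intro t
    have h3 := (re_deriv hd t).pow 2
    have h4 : (E s (t : ℂ)).re = (s (t : ℂ)).re * (deriv s (t : ℂ)).re := by
      unfold E
      rw [Complex.mul_re, h.hs.real t]
      ring
    rw [h4]
    refine h3.congr_deriv ?_
    push_cast
    ring
  obtain ⟨ξ, hξ, hξ2⟩ := exists_hasDerivAt_eq_slope (fun t : ℝ => (s (t : ℂ)).re ^ 2)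
    (fun t => 2 * (E s (t : ℂ)).re) hxy
    (fun t _ => (hu t).continuousAt.continuousWithinAt) (fun t _ => hu t)
  have hpos : 0 < (E s (ξ : ℂ)).re := hball ⟨hξ.1, hξ.2.trans hyb⟩
  have hsx : (s (x : ℂ)).re ^ 2 = 1 := by
    have h3 : ‖s (x : ℂ)‖ ^ 2 = (s (x : ℂ)).re ^ 2 := by
      rw [Complex.sq_norm, Complex.normSq_apply, h.hs.real x]
      ring
    rw [← h3, h1, one_pow]
  have hsy : (s (y : ℂ)).re ^ 2 ≤ 1 := by
    have h3 : ‖s (y : ℂ)‖ ^ 2 = (s (y : ℂ)).re ^ 2 := by
      rw [Complex.sq_norm, Complex.normSq_apply, h.hs.real y]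
      ring
    rw [← h3]
    have h4 := h.hs.b.real_le y
    nlinarith [norm_nonneg (s (y : ℂ))]
  have h5 : 0 < y - x := by linarith
  rw [hsx, eq_div_iff h5.ne'] at hξ2
  nlinarith

namespace Nodes

theorem finite_nodes (h : PellData s P Q) (R : ℝ) :
    {x : ℝ | E s (x : ℂ) = 0 ∧ |x| ≤ R}.Finite := by
  obtain ⟨z₀, hz₀⟩ := exists_E_ne h
  have h1 := PA.finite_zeros (differentiable_E h.hs) hz₀ R
  refine Set.Finite.of_finite_image (f := fun x : ℝ => (x : ℂ)) (h1.subset ?_)
    (Complex.ofReal_injective.injOn)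
  rintro _ ⟨x, ⟨hx1, hx2⟩, rfl⟩
  exact ⟨hx1, by simpa using hx2⟩

theorem Q_even (h : PellData s P Q) (x : ℝ) : Q.eval (-x) = Q.eval x := by
  have hodd : ∀ z, deriv s (-z) = - deriv s z := by
    intro z
    have h2 : (fun w => s (-w)) = s := funext h.hs.even
    have h3 : deriv (fun w => s (-w)) z = - deriv s (-z) := deriv_comp_neg s z
    rw [h2] at h3
    rw [h3, neg_neg]
  have key : ∀ t : ℝ, deriv s (t : ℂ) ≠ 0 → Q.eval (-t) = Q.eval t := by
    intro t ht
    have e1 := h.eq (t : ℂ)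
    have e2 := h.eq (-(t : ℂ))
    rw [hodd, h.hs.even] at e2
    have a1 : ∀ (p : ℝ[X]) (r : ℝ), aeval (r : ℂ) p = ((p.eval r : ℝ) : ℂ) := by
      intro p r
      have a0 := Polynomial.aeval_algebraMap_apply ℂ r p
      simpa [Polynomial.coe_aeval_eq_eval] using a0
    have a2 : (-(t : ℂ)) = ((-t : ℝ) : ℂ) := by push_cast; ring
    rw [a1, a1] at e1
    rw [a2, a1, a1] at e2
    have e3 : (((P.eval (-t) : ℝ) : ℂ)) ^ 2 = (((P.eval t : ℝ) : ℂ)) ^ 2 := by
      exact_mod_cast congrArg (fun r : ℝ => (r : ℂ)) (h.even t)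
    rw [e3, ← e1] at e2
    have e4 : (4 * deriv s (t : ℂ) ^ 2) * ((Q.eval (-t) : ℝ) : ℂ) =
        (4 * deriv s (t : ℂ) ^ 2) * ((Q.eval t : ℝ) : ℂ) := by
      rw [← e2]; ring
    have e5 := mul_left_cancel₀ (mul_ne_zero (by norm_num) (pow_ne_zero 2 ht)) e4
    exact_mod_cast e5
  have hinf : {t : ℝ | (Q.comp (-X)).eval t = Q.eval t}.Infinite := by
    have h1 : (Icc (0 : ℝ) 1 \ {x : ℝ | E s (x : ℂ) = 0 ∧ |x| ≤ 1}).Infinite :=
      (Icc_infinite one_pos).sdiff (finite_nodes h 1)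
    refine h1.mono ?_
    rintro t ⟨ht1, ht2⟩
    have ht3 : |t| ≤ 1 := by rw [abs_of_nonneg ht1.1]; exact ht1.2
    have ht4 : deriv s (t : ℂ) ≠ 0 := by
      intro h0
      exact ht2 ⟨by unfold E; rw [h0, mul_zero], ht3⟩
    have := key t ht4
    simpa using this
  have h2 := Polynomial.eq_of_infinite_eval_eq _ _ hinf
  have h3 := congrArg (Polynomial.eval x) h2
  simpa using h3

/-- the second order terms in Pell-Abel at a critical point -/
theorem second_order (h : PellData s P Q) {z : ℂ} (hz : deriv s z = 0) (hP : aeval z P ≠ 0) :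
    4 * deriv (deriv s) z ^ 2 * aeval z Q = -(s z * deriv (deriv s) z) * aeval z P ^ 2 := by
  have hd := h.hs.b.diff
  have hd1 := diff_deriv hd
  have hd2 := diff_deriv hd1
  have D1 : ∀ w : ℂ, HasDerivAt (fun w => 4 * deriv s w ^ 2 * aeval w Q)
      (8 * deriv s w * deriv (deriv s) w * aeval w Q +
        4 * deriv s w ^ 2 * aeval w (derivative Q)) w := by
    intro w
    have h1 := (((hd1 w).hasDerivAt.pow 2).const_mul (4 : ℂ)).mul (Q.hasDerivAt_aeval w)
    refine h1.congr_deriv ?_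
    simp only [Nat.cast_ofNat, Nat.add_one_sub_one, pow_one, Pi.pow_apply]
    ring
  have D2 : ∀ w : ℂ, HasDerivAt (fun w => (1 - s w ^ 2) * aeval w P ^ 2)
      (-2 * s w * deriv s w * aeval w P ^ 2 +
        (1 - s w ^ 2) * (2 * aeval w P * aeval w (derivative P))) w := by
    intro w
    have h1 := (((hd w).hasDerivAt.pow 2).const_sub (1 : ℂ)).mul ((P.hasDerivAt_aeval w).pow 2)
    refine h1.congr_deriv ?_
    simp only [Nat.cast_ofNat, Nat.add_one_sub_one, pow_one, Pi.pow_apply]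
    ring
  have heq : (fun w => 4 * deriv s w ^ 2 * aeval w Q) = fun w => (1 - s w ^ 2) * aeval w P ^ 2 :=
    funext h.eq
  have hD : (fun w => 8 * deriv s w * deriv (deriv s) w * aeval w Q +
        4 * deriv s w ^ 2 * aeval w (derivative Q)) =
      fun w => -2 * s w * deriv s w * aeval w P ^ 2 +
        (1 - s w ^ 2) * (2 * aeval w P * aeval w (derivative P)) := by
    funext w
    have h1 := D1 w
    rw [heq] at h1
    exact h1.unique (D2 w)
  -- second derivatives
  have F1 : HasDerivAt (fun w => 8 * deriv s w * deriv (deriv s) w * aeval w Q +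
        4 * deriv s w ^ 2 * aeval w (derivative Q)) (8 * deriv (deriv s) z ^ 2 * aeval z Q) z := by
    have h1 := ((((hd1 z).hasDerivAt.const_mul (8 : ℂ)).mul (hd2 z).hasDerivAt).mul
      (Q.hasDerivAt_aeval z)).add
      ((((hd1 z).hasDerivAt.pow 2).const_mul (4 : ℂ)).mul ((derivative Q).hasDerivAt_aeval z))
    refine h1.congr_deriv ?_
    simp only [Nat.cast_ofNat, Nat.add_one_sub_one, pow_one, Pi.pow_apply, Pi.mul_apply, hz]
    ring
  have F2 : HasDerivAt (fun w => -2 * s w * deriv s w * aeval w P ^ 2 +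
        (1 - s w ^ 2) * (2 * aeval w P * aeval w (derivative P)))
      (-2 * s z * deriv (deriv s) z * aeval z P ^ 2 + (1 - s z ^ 2) *
        (2 * aeval z (derivative P) * aeval z (derivative P) +
          2 * aeval z P * aeval z (derivative (derivative P)))) z := by
    have h1 := ((((hd z).hasDerivAt.const_mul (-2 : ℂ)).mul (hd1 z).hasDerivAt).mul
      ((P.hasDerivAt_aeval z).pow 2)).add
      ((((hd z).hasDerivAt.pow 2).const_sub (1 : ℂ)).mul
        (((P.hasDerivAt_aeval z).const_mul (2 : ℂ)).mul ((derivative P).hasDerivAt_aeval z)))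
    refine h1.congr_deriv ?_
    simp only [Nat.cast_ofNat, Nat.add_one_sub_one, pow_one, Pi.pow_apply, Pi.mul_apply, hz]
    ring
  rw [hD] at F1
  have h3 := F1.unique F2
  have h4 : (1 - s z ^ 2) * aeval z P ^ 2 = 0 := by
    rw [← h.eq z, hz]; ring
  have h5 : 1 - s z ^ 2 = 0 := (mul_eq_zero.1 h4).resolve_right (pow_ne_zero 2 hP)
  rw [h5, zero_mul, add_zero] at h3
  linear_combination (1 / 2 : ℂ) * h3

/-- lower bound for `E'` at the far nodes -/
theorem far (h : PellData s P Q) {z : ℂ} (hz : E s z = 0) (hP : aeval z P ≠ 0)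
    (hQ : aeval z Q ≠ 0) (hr : ‖aeval z Q / aeval z P ^ 2 - 1‖ ≤ 1 / 2) :
    1 / 6 ≤ ‖deriv (E s) z‖ := by
  set q : ℂ := aeval z Q / aeval z P ^ 2 with hq
  have hqn : ‖q‖ ≤ 3 / 2 := by
    have h1 : q = (q - 1) + 1 := by ring
    rw [h1]
    refine (norm_add_le _ _).trans ?_
    rw [norm_one]
    linarith
  have hq0 : q ≠ 0 := div_ne_zero hQ (pow_ne_zero 2 hP)
  have hqp : 0 < ‖q‖ := norm_pos_iff.2 hq0
  have hQq : aeval z Q = q * aeval z P ^ 2 := by
    rw [hq, div_mul_cancel₀ _ (pow_ne_zero 2 hP)]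
  have key : ‖deriv (E s) z‖ = 1 / (4 * ‖q‖) := by
    rcases mul_eq_zero.1 hz with h1 | h1
    · rw [deriv_E_zero h h1]
      have h2 := h.eq z
      rw [h1, hQq] at h2
      have h3 : (4 * q * deriv s z ^ 2) * aeval z P ^ 2 = 1 * aeval z P ^ 2 := by
        linear_combination h2
      have h4 := mul_right_cancel₀ (pow_ne_zero 2 hP) h3
      have h5 : deriv s z ^ 2 = 1 / (4 * q) := by
        rw [eq_div_iff (mul_ne_zero (by norm_num) hq0)]
        linear_combination h4
      rw [h5, norm_div, norm_mul, norm_one]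
      norm_num
    · rw [deriv_E_crit h h1]
      have h2 := second_order h h1 hP
      rw [hQq] at h2
      have h3 : (4 * q * deriv (deriv s) z ^ 2) * aeval z P ^ 2 =
          (-(s z * deriv (deriv s) z)) * aeval z P ^ 2 := by
        linear_combination h2
      have h4 := mul_right_cancel₀ (pow_ne_zero 2 hP) h3
      have h6 : (1 - s z ^ 2) * aeval z P ^ 2 = 0 := by
        rw [← h.eq z, h1]; ring
      have h7 : 1 - s z ^ 2 = 0 := (mul_eq_zero.1 h6).resolve_right (pow_ne_zero 2 hP)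
      have h8 := (h.cr z h1).2
      have h9 : (4 * q * deriv (deriv s) z) * deriv (deriv s) z =
          (-s z) * deriv (deriv s) z := by
        linear_combination h4
      have h10 := mul_right_cancel₀ h8 h9
      have h5 : s z * deriv (deriv s) z = -(1 / (4 * q)) := by
        rw [← neg_eq_iff_eq_neg, eq_div_iff (mul_ne_zero (by norm_num) hq0)]
        linear_combination (-s z) * h10 - h7
      rw [h5, norm_neg, norm_div, norm_mul, norm_one]
      norm_num
  rw [key]
  rw [div_le_div_iff₀ (by norm_num) (by positivity)]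
  linarith

end Nodes

theorem Eprime_lower (h : PellData s P Q) : ∃ c : ℝ, 0 < c ∧ ∀ x : ℝ, E s (x : ℂ) = 0 →
    c ≤ |(deriv (E s) (x : ℂ)).re| := by
  have hre : ∀ x : ℝ, |(deriv (E s) (x : ℂ)).re| = ‖deriv (E s) (x : ℂ)‖ := by
    intro x
    have h1 : deriv (E s) (x : ℂ) = (((deriv (E s) (x : ℂ)).re : ℝ) : ℂ) :=
      Complex.ext (by simp) (by simpa using Eprime_real h x)
    conv_rhs => rw [h1]
    rw [Complex.norm_real, Real.norm_eq_abs]
  obtain ⟨R₀, C, hR, hC, hb⟩ := ratio_bound h.Pm h.Qm h.deg h.even (Q_even h)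
  have hfar : ∀ x : ℝ, R₀ ≤ |x| → E s (x : ℂ) = 0 → 1 / 6 ≤ |(deriv (E s) (x : ℂ)).re| := by
    intro x hx hE
    obtain ⟨h1, h2, _, h4⟩ := hb (x : ℂ) (by simpa using hx)
    rw [hre]
    exact far h hE h1 h2 h4
  have hfin := finite_nodes h R₀
  rcases ({x : ℝ | E s (x : ℂ) = 0 ∧ |x| ≤ R₀}).eq_empty_or_nonempty with he | hne
  · refine ⟨1 / 6, by norm_num, fun x hx => ?_⟩
    rcases le_total R₀ |x| with h1 | h1
    · exact hfar x h1 hx
    · have : x ∈ ({x : ℝ | E s (x : ℂ) = 0 ∧ |x| ≤ R₀}) := ⟨hx, h1⟩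
      rw [he] at this
      exact absurd this (Set.notMem_empty x)
  · obtain ⟨x₀, hx₀, hmin⟩ := Set.exists_min_image _
      (fun x : ℝ => |(deriv (E s) (x : ℂ)).re|) hfin hne
    have hpos : 0 < |(deriv (E s) (x₀ : ℂ)).re| := by
      rw [hre]
      exact norm_pos_iff.2 (deriv_E_ne h hx₀.1)
    refine ⟨min (1 / 6) |(deriv (E s) (x₀ : ℂ)).re|, lt_min (by norm_num) hpos, fun x hx => ?_⟩
    rcases le_total R₀ |x| with h1 | h1
    · exact (min_le_left _ _).trans (hfar x h1 hx)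
    · exact (min_le_right _ _).trans (hmin x ⟨hx, h1⟩)

namespace Nodes

/-- two nodes are at distance at least `c / C` -/
theorem spacing (h : PellData s P Q) : ∃ d : ℝ, 0 < d ∧ ∀ x y : ℝ, E s (x : ℂ) = 0 →
    E s (y : ℂ) = 0 → x < y → d ≤ y - x := by
  obtain ⟨c, hc, hlow⟩ := Eprime_lower h
  obtain ⟨C, hC, hb⟩ := PA.second_bound h.hs
  have hd := h.hs.b.diff
  have hd1 := diff_deriv hd
  have hd2 := diff_deriv hd1
  have hE := differentiable_E h.hs
  have hE1 := diff_deriv hE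
  have hEE : ∀ z : ℂ, deriv (deriv (E s)) z =
      3 * deriv s z * deriv (deriv s) z + s z * deriv (deriv (deriv s)) z := by
    intro z
    have h1 : deriv (E s) = fun w => deriv s w ^ 2 + s w * deriv (deriv s) w :=
      funext fun w => deriv_E hd w
    rw [h1]
    have h2 := ((hd1 z).hasDerivAt.pow 2).add ((hd z).hasDerivAt.mul (hd2 z).hasDerivAt)
    refine (h2.congr_deriv ?_).deriv
    simp only [Nat.cast_ofNat, Nat.add_one_sub_one, pow_one]
    ring
  have hbd : ∀ x : ℝ, ‖deriv (deriv (E s)) (x : ℂ)‖ ≤ 4 * C ^ 2 := by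
    intro x
    obtain ⟨b0, b1, b2, b3⟩ := hb (x : ℂ) (by simp)
    rw [hEE]
    have e1 : ‖3 * deriv s (x : ℂ) * deriv (deriv s) (x : ℂ)‖ ≤ 3 * C * C := by
      rw [norm_mul, norm_mul]
      have : ‖(3 : ℂ)‖ = 3 := by norm_num
      rw [this]
      gcongr
    have e2 : ‖s (x : ℂ) * deriv (deriv (deriv s)) (x : ℂ)‖ ≤ C * C := by
      rw [norm_mul]
      gcongr
    refine (norm_add_le _ _).trans ?_
    nlinarith
  refine ⟨c / (4 * C ^ 2), by positivity, fun x y hx hy hxy => ?_⟩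
  -- Rolle
  obtain ⟨ξ, hξ, hξ0⟩ := exists_hasDerivAt_eq_zero (f := fun t : ℝ => (E s (t : ℂ)).re)
    (f' := fun t : ℝ => (deriv (E s) (t : ℂ)).re) hxy
    (fun t _ => (re_deriv hE t).continuousAt.continuousWithinAt) (by simp [hx, hy])
    fun t _ => re_deriv hE t
  obtain ⟨η, hη, hη2⟩ := exists_hasDerivAt_eq_slope (fun t : ℝ => (deriv (E s) (t : ℂ)).re)
    (fun t : ℝ => (deriv (deriv (E s)) (t : ℂ)).re) hξ.1
    (fun t _ => (re_deriv hE1 t).continuousAt.continuousWithinAt) fun t _ => re_deriv hE1 t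
  have h5 : 0 < ξ - x := by linarith [hξ.1]
  rw [hξ0, eq_div_iff h5.ne', zero_sub] at hη2
  have h6 : c ≤ 4 * C ^ 2 * (ξ - x) := by
    calc c ≤ |(deriv (E s) (x : ℂ)).re| := hlow x hx
      _ = |(deriv (deriv (E s)) (η : ℂ)).re * (ξ - x)| := by rw [hη2, abs_neg]
      _ = |(deriv (deriv (E s)) (η : ℂ)).re| * (ξ - x) := by rw [abs_mul, abs_of_pos h5]
      _ ≤ 4 * C ^ 2 * (ξ - x) := by
        gcongr
        exact (Complex.abs_re_le_norm _).trans (hbd η)
  rw [div_le_iff₀ (by positivity)]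
  have h7 : ξ - x ≤ y - x := by linarith [hξ.2]
  have h8 : 0 < 4 * C ^ 2 := by positivity
  nlinarith

end Nodes

theorem nodes_summable (h : PellData s P Q) {δ : ℝ} (hδ : 0 < δ) :
    Summable (fun x : Node s => (1 + |x.1|) ^ (-1 - δ)) := by
  obtain ⟨d, hd, hsp⟩ := spacing h
  have hinj : Function.Injective (fun x : Node s => ⌊x.1 / d⌋) := by
    intro x y hxy
    simp only at hxy
    have h1 : |x.1 / d - y.1 / d| < 1 := Int.abs_sub_lt_one_of_floor_eq_floor hxy
    have h2 : |x.1 - y.1| < d := by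
      rw [← sub_div, abs_div, abs_of_pos hd, div_lt_one hd] at h1
      exact h1
    rcases lt_trichotomy x.1 y.1 with h3 | h3 | h3
    · have := hsp x.1 y.1 x.2 y.2 h3
      have h4 := (abs_lt.1 h2).1
      exfalso; linarith
    · exact Subtype.ext h3
    · have := hsp y.1 x.1 y.2 x.2 h3
      have h4 := (abs_lt.1 h2).2
      exfalso; linarith
  have hsum : Summable (fun n : ℤ => 1 / |(n : ℝ) + 1 / 2| ^ (1 + δ)) :=
    (Real.summable_one_div_int_add_rpow (1 / 2) (1 + δ)).2 (by linarith)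
  set L : ℝ := 2 + 1 / d with hL
  have hLp : 0 < L := by positivity
  have hs2 := (hsum.comp_injective hinj).mul_left (L ^ (1 + δ))
  refine Summable.of_nonneg_of_le (fun x => by positivity) (fun x => ?_) hs2
  change (1 + |x.1|) ^ (-1 - δ) ≤ L ^ (1 + δ) * (1 / |((⌊x.1 / d⌋ : ℤ) : ℝ) + 1 / 2| ^ (1 + δ))
  set n : ℤ := ⌊x.1 / d⌋ with hn
  have hx0 : 0 < 1 + |x.1| := by positivity
  have hn1 : (n : ℝ) ≤ x.1 / d := Int.floor_le _
  have hn2 : x.1 / d < n + 1 := Int.lt_floor_add_one _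
  have hn3 : |(n : ℝ) + 1 / 2| ≤ L * (1 + |x.1|) := by
    have h1 : |(n : ℝ) + 1 / 2| ≤ |x.1 / d| + 1 / 2 := by
      rw [abs_le]
      constructor
      · have := neg_abs_le (x.1 / d)
        linarith
      · have := le_abs_self (x.1 / d)
        linarith
    have h2 : |x.1 / d| = |x.1| * (1 / d) := by
      rw [abs_div, abs_of_pos hd, div_eq_mul_one_div]
    rw [h2] at h1
    have h3 : 0 ≤ |x.1| := abs_nonneg _
    have h4 : 0 < 1 / d := by positivity
    rw [hL]
    nlinarith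
  have hn4 : 0 < |(n : ℝ) + 1 / 2| := by
    apply abs_pos.2
    intro h0
    have h1 : (2 * n + 1 : ℝ) = 0 := by linarith
    have h2 : (2 * n + 1 : ℤ) = 0 := by exact_mod_cast h1
    omega
  rw [show (-1 - δ : ℝ) = -(1 + δ) by ring, Real.rpow_neg hx0.le, one_div]
  rw [← div_eq_mul_inv, ← one_div, div_le_div_iff₀ (by positivity) (by positivity), one_mul,
    ← Real.mul_rpow hLp.le hx0.le]
  exact Real.rpow_le_rpow hn4.le hn3 (by linarith)

end Helper22.SC
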