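import Pool.Agent.Helper22.SC.Defs
import Pool.Agent.Helper22.SC.PolyInf
import Pool.Agent.Helper22.SC.Nodes

/-!
[SC-Expo] The exponential `u = e^{-iθ}` outside a disc, and the lower bound of `E` off a strip.

For `‖z‖ > R₀` (`ratio_bound`) let `r z = √(Q z/P z²)` (principal branch, `Q/P²` within `1/2` of 1; analytic),
`u = s + 2 i s' r`. Pell-Abel: `s² + 4 s'² r² = 1`, i.e. `u (s - 2 i s' r) = 1`; differentiating,
`s'(s + 4 s'' r² + 4 s' r r') = 0`, so `s'' r + s' r' = -s/(4r)` (off the zeros of `s'`, then by continuity) and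
`u' = -(i/(2r)) u`. For real `x`, `|x| > R₀`: `r`, `s`, `s'` real, `‖u‖² = s² + 4 s'² r² = 1`.
`F = u e^{iz/2}`: `F'/F = i/2 - i/(2r)`, `‖F'/F‖ ≤ C/‖z‖²`. Integrate (log ‖F‖, or
`Convex.norm_image_sub_le` for `F exp(-∫)`) along the vertical line from `Re z` if `|Re z| ≥ R₀ + 1`, otherwise
along `R₀ + 1 → R₀ + 1 + iy → z` (`|y| ≥ R₀ + 1`): `C⁻¹ ≤ ‖F‖ ≤ C`, so `‖u‖ ≍ e^{y/2}` for `|y| ≥ y₀`, and
`s = (u + u⁻¹)/2`, `s' = (u - u⁻¹)/(4 i r)`, `E = (u² - u⁻²)/(8 i r)`: `‖E‖ ≥ c e^{|y|}`.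
-/

set_option autoImplicit false

namespace Helper22.SC

open Complex MeasureTheory Set Filter Topology Polynomial
open Pool.Agent.Helper30.FG

variable {s : ℂ → ℂ} {P Q : ℝ[X]}

namespace Expo

/-- the quotient `Q/P²` -/
noncomputable def w (P Q : ℝ[X]) (z : ℂ) : ℂ := aeval z Q / aeval z P ^ 2

/-- its derivative -/
noncomputable def wd (P Q : ℝ[X]) (z : ℂ) : ℂ :=
  (aeval z (derivative Q) * aeval z P ^ 2 - aeval z Q * (2 * aeval z P * aeval z (derivative P))) /
    (aeval z P ^ 2) ^ 2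

/-- the square root -/
noncomputable def rt (P Q : ℝ[X]) (z : ℂ) : ℂ := Complex.exp (Complex.log (w P Q z) / 2)

theorem aeval_real (p : ℝ[X]) (x : ℝ) : aeval (x : ℂ) p = ((p.eval x : ℝ) : ℂ) := by
  have a0 := Polynomial.aeval_algebraMap_apply ℂ x p
  simpa [Polynomial.coe_aeval_eq_eval] using a0

theorem w_real (P Q : ℝ[X]) (x : ℝ) : w P Q (x : ℂ) = ((Q.eval x / P.eval x ^ 2 : ℝ) : ℂ) := by
  unfold w
  rw [aeval_real, aeval_real]
  push_cast
  rfl

theorem hasDerivAt_w {z : ℂ} (hP : aeval z P ≠ 0) : HasDerivAt (w P Q) (wd P Q z) z := by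
  have h1 : HasDerivAt (fun z : ℂ => aeval z Q) (aeval z (derivative Q)) z :=
    Polynomial.hasDerivAt_aeval Q z
  have h2 : HasDerivAt (fun z : ℂ => aeval z P) (aeval z (derivative P)) z :=
    Polynomial.hasDerivAt_aeval P z
  have h3 : HasDerivAt (fun z : ℂ => aeval z P ^ 2) (2 * aeval z P * aeval z (derivative P)) z := by
    have := h2.fun_pow 2
    simpa using this
  exact h1.div h3 (pow_ne_zero 2 hP)

theorem continuousAt_wd {z : ℂ} (hP : aeval z P ≠ 0) : ContinuousAt (wd P Q) z := by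
  have hc : ∀ p : ℝ[X], Continuous fun z : ℂ => aeval z p := fun p =>
    Polynomial.continuous_aeval p
  refine ContinuousAt.div ?_ ?_ (pow_ne_zero 2 (pow_ne_zero 2 hP))
  · exact (((hc _).mul ((hc P).pow 2)).sub ((hc Q).mul ((continuous_const.mul (hc P)).mul
      (hc _)))).continuousAt
  · exact (((hc P).pow 2).pow 2).continuousAt

theorem rt_sq {z : ℂ} (hw : w P Q z ≠ 0) : rt P Q z ^ 2 = w P Q z := by
  unfold rt
  rw [← Complex.exp_nat_mul]
  push_cast
  rw [mul_div_cancel₀ _ (two_ne_zero' ℂ), Complex.exp_log hw]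

theorem rt_re (z : ℂ) : 0 ≤ (rt P Q z).re := by
  unfold rt
  rw [Complex.exp_re]
  have h1 : (Complex.log (w P Q z) / 2).im = (w P Q z).arg / 2 := by
    rw [Complex.div_ofNat_im, Complex.log_im]
  rw [h1]
  refine mul_nonneg (Real.exp_pos _).le (Real.cos_nonneg_of_mem_Icc ⟨?_, ?_⟩)
  · have := Complex.neg_pi_lt_arg (w P Q z)
    linarith
  · have := Complex.arg_le_pi (w P Q z)
    linarith

theorem re_pos {a : ℂ} (h : ‖a - 1‖ ≤ 1 / 2) : 0 < a.re := by
  have h1 := (abs_le.1 ((Complex.abs_re_le_norm (a - 1)).trans h)).1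
  rw [Complex.sub_re, Complex.one_re] at h1
  linarith

theorem hasDerivAt_rt {z : ℂ} (hP : aeval z P ≠ 0) (hw : ‖w P Q z - 1‖ ≤ 1 / 2) :
    HasDerivAt (rt P Q) (wd P Q z / (2 * rt P Q z)) z := by
  have hre := re_pos hw
  have hne : w P Q z ≠ 0 := by
    intro h0
    rw [h0] at hre
    simp at hre
  have h1 : HasDerivAt (fun z => Complex.log (w P Q z) / 2) (wd P Q z / w P Q z / 2) z :=
    ((hasDerivAt_w hP).clog (Or.inl hre)).div_const 2
  have h2 := h1.cexp
  have h3 : wd P Q z / (2 * rt P Q z) =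
      Complex.exp (Complex.log (w P Q z) / 2) * (wd P Q z / w P Q z / 2) := by
    change _ = rt P Q z * (wd P Q z / w P Q z / 2)
    have hr : rt P Q z ≠ 0 := Complex.exp_ne_zero _
    rw [← rt_sq hne]
    field_simp
  rw [h3]
  exact h2

/-- the differential equation -/
theorem ode (h : PellData s P Q) {R₀ : ℝ} (hR : ∀ z : ℂ, R₀ < ‖z‖ → aeval z P ≠ 0) {z : ℂ}
    (hz : R₀ < ‖z‖) :
    s z + 4 * deriv (deriv s) z * w P Q z + 2 * deriv s z * wd P Q z = 0 := by
  have hd1 : Differentiable ℂ (deriv s) := differentiable_deriv h.hs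
  have hopen : IsOpen {z : ℂ | R₀ < ‖z‖} := isOpen_lt continuous_const continuous_norm
  have hpell : ∀ y : ℂ, R₀ < ‖y‖ → s y ^ 2 + 4 * deriv s y ^ 2 * w P Q y = 1 := by
    intro y hy
    have h1 := h.eq y
    have h2 := pow_ne_zero 2 (hR y hy)
    unfold w
    rw [mul_div_assoc', h1, mul_div_assoc, div_self h2]
    ring
  have key : ∀ y : ℂ, R₀ < ‖y‖ → deriv s y *
      (s y + 4 * deriv (deriv s) y * w P Q y + 2 * deriv s y * wd P Q y) = 0 := by
    intro y hy
    have a1 : HasDerivAt s (deriv s y) y := (h.hs.b.diff y).hasDerivAt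
    have a2 : HasDerivAt (deriv s) (deriv (deriv s) y) y := (hd1 y).hasDerivAt
    have a3 := (a1.pow 2).add (((a2.pow 2).const_mul 4).mul (hasDerivAt_w (Q := Q) (hR y hy)))
    have a4 : (fun z : ℂ => (1 : ℂ)) =ᶠ[𝓝 y]
        (s ^ 2 + (fun z => 4 * (deriv s ^ 2) z) * w P Q) := by
      filter_upwards [hopen.mem_nhds hy] with t ht
      have := hpell t ht
      simp only [Pi.add_apply, Pi.mul_apply, Pi.pow_apply]
      exact this.symm
    have a5 := (a3.congr_of_eventuallyEq a4).unique (hasDerivAt_const y (1 : ℂ))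
    simp only [Pi.pow_apply] at a5
    have a6 : (2 : ℂ) * (deriv s y *
      (s y + 4 * deriv (deriv s) y * w P Q y + 2 * deriv s y * wd P Q y)) = 0 := by
      rw [← a5]
      push_cast
      ring
    exact (mul_eq_zero.1 a6).resolve_left two_ne_zero
  have hcont : ContinuousAt (fun y => s y + 4 * deriv (deriv s) y * w P Q y +
      2 * deriv s y * wd P Q y) z := by
    have hd2 : Continuous (deriv (deriv s)) := (Nodes.diff_deriv hd1).continuous
    exact ((h.hs.b.diff.continuous.continuousAt).add ((continuousAt_const.mul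
      hd2.continuousAt).mul (hasDerivAt_w (hR z hz)).continuousAt)).add
      ((continuousAt_const.mul hd1.continuous.continuousAt).mul (continuousAt_wd (hR z hz)))
  by_cases hs0 : deriv s z = 0
  · have h1 : ∀ᶠ y in 𝓝[≠] z, deriv s y ≠ 0 :=
      (hd1 z).hasDerivAt.eventually_ne (h.cr z hs0).2
    have h2 : ∀ᶠ y in 𝓝[≠] z, R₀ < ‖y‖ :=
      mem_nhdsWithin_of_mem_nhds (hopen.mem_nhds hz)
    have h3 : ∀ᶠ y in 𝓝[≠] z, s y + 4 * deriv (deriv s) y * w P Q y +
        2 * deriv s y * wd P Q y = 0 := by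
      filter_upwards [h1, h2] with y hy1 hy2
      exact (mul_eq_zero.1 (key y hy2)).resolve_left hy1
    have h4 := hcont.tendsto.mono_left (nhdsWithin_le_nhds (s := {z}ᶜ))
    have h5 : Tendsto (fun y => s y + 4 * deriv (deriv s) y * w P Q y +
        2 * deriv s y * wd P Q y) (𝓝[≠] z) (𝓝 0) :=
      tendsto_const_nhds.congr' (h3.mono fun y hy => hy.symm)
    exact tendsto_nhds_unique h4 h5
  · exact (mul_eq_zero.1 (key z hz)).resolve_left hs0

end Expo

open Expo in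
/-- the branch of `e^{-iθ}` at infinity -/
theorem exists_u (h : PellData s P Q) : ∃ R₀ C : ℝ, 1 ≤ R₀ ∧ 1 ≤ C ∧ ∃ u r : ℂ → ℂ,
    ∀ z : ℂ, R₀ < ‖z‖ → u z ≠ 0 ∧ s z = (u z + (u z)⁻¹) / 2 ∧
      deriv s z = (u z - (u z)⁻¹) / (4 * I * r z) ∧
      1 / 2 ≤ ‖r z‖ ∧ ‖r z‖ ≤ 2 ∧ HasDerivAt u (-(I / (2 * r z)) * u z) z ∧
      ‖1 / (2 * r z) - 1 / 2‖ ≤ C / ‖z‖ ^ 2 ∧ (z.im = 0 → ‖u z‖ = 1) := by
  obtain ⟨R₀, C, hR, hC, hb⟩ := ratio_bound h.Pm h.Qm h.deg h.even (Nodes.Q_even h)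
  refine ⟨R₀, max C 1, hR, le_max_right _ _, fun z => s z + 2 * I * deriv s z * rt P Q z,
    rt P Q, fun z hz => ?_⟩
  obtain ⟨hP, hQ, h1, h2⟩ := hb z hz.le
  change ‖w P Q z - 1‖ ≤ _ at h1
  change ‖w P Q z - 1‖ ≤ _ at h2
  have hz0 : 0 < ‖z‖ := by linarith
  have hre := re_pos h2
  have hw : w P Q z ≠ 0 := by
    intro h0
    rw [h0] at hre
    simp at hre
  have hr2 := rt_sq hw
  have hr0 : rt P Q z ≠ 0 := Complex.exp_ne_zero _
  have hd1 : Differentiable ℂ (deriv s) := differentiable_deriv h.hs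
  have hpell : s z ^ 2 + 4 * deriv s z ^ 2 * rt P Q z ^ 2 = 1 := by
    have h3 := h.eq z
    have h4 := pow_ne_zero 2 hP
    rw [hr2]
    unfold w
    rw [mul_div_assoc', h3, mul_div_assoc, div_self h4]
    ring
  have huv : (s z + 2 * I * deriv s z * rt P Q z) * (s z - 2 * I * deriv s z * rt P Q z) = 1 := by
    have : (s z + 2 * I * deriv s z * rt P Q z) * (s z - 2 * I * deriv s z * rt P Q z) =
        s z ^ 2 - 4 * I ^ 2 * deriv s z ^ 2 * rt P Q z ^ 2 := by ring
    rw [this, Complex.I_sq]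
    linear_combination hpell
  have hu0 : s z + 2 * I * deriv s z * rt P Q z ≠ 0 := left_ne_zero_of_mul_eq_one huv
  have hui : (s z + 2 * I * deriv s z * rt P Q z)⁻¹ = s z - 2 * I * deriv s z * rt P Q z :=
    (eq_inv_of_mul_eq_one_right huv).symm
  -- norms
  have hnr : ‖rt P Q z‖ ^ 2 = ‖w P Q z‖ := by rw [← norm_pow, hr2]
  have hw1 : 1 / 2 ≤ ‖w P Q z‖ := by
    have := norm_sub_norm_le (1 : ℂ) (w P Q z)
    rw [norm_one, norm_sub_rev] at this
    linarith
  have hw2 : ‖w P Q z‖ ≤ 3 / 2 := by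
    have := norm_sub_norm_le (w P Q z) (1 : ℂ)
    rw [norm_one] at this
    linarith
  have hn0 := norm_nonneg (rt P Q z)
  have hr1 : 1 / 2 ≤ ‖rt P Q z‖ := by nlinarith
  have hr3 : ‖rt P Q z‖ ≤ 2 := by nlinarith
  refine ⟨hu0, ?_, ?_, hr1, hr3, ?_, ?_, ?_⟩
  · dsimp only
    rw [hui]; ring
  · dsimp only
    rw [hui]
    have hI : (4 * I * rt P Q z) ≠ 0 := by simp [hr0]
    field_simp
    ring
  · have a1 : HasDerivAt s (deriv s z) z := (h.hs.b.diff z).hasDerivAt
    have a2 : HasDerivAt (deriv s) (deriv (deriv s) z) z := (hd1 z).hasDerivAt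
    have a3 : HasDerivAt (fun z => s z + 2 * I * deriv s z * rt P Q z)
        (deriv s z + ((2 * I * deriv (deriv s) z) * rt P Q z +
          2 * I * deriv s z * (wd P Q z / (2 * rt P Q z)))) z :=
      a1.add ((a2.const_mul (2 * I)).mul (hasDerivAt_rt hP h2))
    have a4 := ode h (fun y hy => (hb y hy.le).1) hz
    rw [← hr2] at a4
    have a5 : -(I / (2 * rt P Q z)) * (s z + 2 * I * deriv s z * rt P Q z) =
        deriv s z + ((2 * I * deriv (deriv s) z) * rt P Q z +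
          2 * I * deriv s z * (wd P Q z / (2 * rt P Q z))) := by
      have e1 : -(I / (2 * rt P Q z)) * (s z + 2 * I * deriv s z * rt P Q z) =
          deriv s z - I / (2 * rt P Q z) * s z := by
        field_simp
        linear_combination (-2 * rt P Q z * deriv s z) * Complex.I_sq
      have e2 : deriv s z + ((2 * I * deriv (deriv s) z) * rt P Q z +
          2 * I * deriv s z * (wd P Q z / (2 * rt P Q z))) = deriv s z - I / (2 * rt P Q z) * s z +
          I / (2 * rt P Q z) * (s z + 4 * deriv (deriv s) z * rt P Q z ^ 2 +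
            2 * deriv s z * wd P Q z) := by
        field_simp
        ring
      rw [e1, e2, a4, mul_zero, add_zero]
    rw [a5]
    exact a3
  · have e1 : 1 / (2 * rt P Q z) - 1 / 2 =
        -(w P Q z - 1) / (2 * rt P Q z * (1 + rt P Q z)) := by
      have h1r : 1 + rt P Q z ≠ 0 := by
        intro h0
        have := congrArg Complex.re h0
        rw [Complex.add_re, Complex.one_re, Complex.zero_re] at this
        have h3 := rt_re (P := P) (Q := Q) z
        linarith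
      rw [← hr2]
      field_simp
      ring
    have h3 : 1 ≤ ‖1 + rt P Q z‖ := by
      have h4 := Complex.abs_re_le_norm (1 + rt P Q z)
      rw [Complex.add_re, Complex.one_re] at h4
      have h5 := rt_re (P := P) (Q := Q) z
      have h6 := le_abs_self (1 + (rt P Q z).re)
      linarith
    rw [e1, norm_div, norm_neg, norm_mul, norm_mul]
    have h4 : 1 ≤ ‖(2 : ℂ)‖ * ‖rt P Q z‖ * ‖1 + rt P Q z‖ := by
      rw [Complex.norm_ofNat]
      nlinarith
    have h5 : 0 < ‖z‖ ^ 2 := by positivity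
    calc ‖w P Q z - 1‖ / (‖(2 : ℂ)‖ * ‖rt P Q z‖ * ‖1 + rt P Q z‖) ≤ ‖w P Q z - 1‖ / 1 :=
          div_le_div_of_nonneg_left (norm_nonneg _) one_pos h4
      _ = ‖w P Q z - 1‖ := div_one _
      _ ≤ C / ‖z‖ ^ 2 := h1
      _ ≤ max C 1 / ‖z‖ ^ 2 := by gcongr; exact le_max_left _ _
  · intro him
    obtain ⟨x, rfl⟩ : ∃ x : ℝ, z = (x : ℂ) := ⟨z.re, by
      apply Complex.ext
      · simp
      · simpa using him⟩
    have hwr := w_real P Q x
    have hpos : 0 < Q.eval x / P.eval x ^ 2 := by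
      rw [hwr, Complex.ofReal_re] at hre
      exact hre
    have hrr : (starRingEnd ℂ) (rt P Q (x : ℂ)) = rt P Q (x : ℂ) := by
      have e1 : rt P Q (x : ℂ) = ((Real.exp (Real.log (Q.eval x / P.eval x ^ 2) / 2) : ℝ) : ℂ) := by
        unfold rt
        rw [hwr, ← Complex.ofReal_log hpos.le]
        push_cast
        rfl
      rw [e1, Complex.conj_ofReal]
    have hsr : (starRingEnd ℂ) (s (x : ℂ)) = s (x : ℂ) := Complex.conj_eq_iff_im.2 (h.hs.real x)
    have hdr : (starRingEnd ℂ) (deriv s (x : ℂ)) = deriv s (x : ℂ) :=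
      Complex.conj_eq_iff_im.2 (Nodes.real_deriv h.hs.b.diff h.hs.real x)
    have hcu : (starRingEnd ℂ) (s (x : ℂ) + 2 * I * deriv s (x : ℂ) * rt P Q (x : ℂ)) =
        s (x : ℂ) - 2 * I * deriv s (x : ℂ) * rt P Q (x : ℂ) := by
      rw [map_add, map_mul, map_mul, map_mul, hrr, hsr, hdr, Complex.conj_I, map_ofNat]
      ring
    have h3 : ‖s (x : ℂ) + 2 * I * deriv s (x : ℂ) * rt P Q (x : ℂ)‖ ^ 2 = 1 := by
      have h4 := Complex.mul_conj (s (x : ℂ) + 2 * I * deriv s (x : ℂ) * rt P Q (x : ℂ))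
      rw [hcu, huv] at h4
      rw [Complex.sq_norm]
      exact_mod_cast h4.symm
    exact (pow_eq_one_iff_of_nonneg (norm_nonneg _) two_ne_zero).1 h3

end Helper22.SC
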