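import Pool.Agent.Helper22.SC.Defs
import Pool.Agent.Helper30.FG.B1
import Pool.Agent.Helper30.FG.B2

/-!
[SC-Gc] The functions `G s c = z E/(z² - c²)`. Basic: `sub_smul_dslope` twice (`z E z` vanishes at `± c`; at 0 to
second order). Bounds: `‖E z‖ ≤ ‖s‖ ‖s'‖ ≤ (1/2) e^{|Im z|}` (bernstein), `E` is IsB 1 (1/2), so `‖E'‖ ≤ 1/2` on the real
line and `‖E x‖ ≤ min(1/2, |x - c|/2, |x + c|/2)`. `IsE 1 M` with `M` independent of `c`: on the real line
`‖G s c x‖ ≤ |x|/(|x| + |c|) * ‖E x‖/||x| - |c|| ≤ 1/2`-ish, growth `C e^{|Im z|}`, `pl_bound`.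
Imaginary axis: `‖E(it)‖ ≤ (1/2) e^t` and `≤ C t` for `t ≤ 1` (`E 0 = 0`).
-/

set_option autoImplicit false

namespace Helper22.SC

open Complex MeasureTheory Set Filter Topology Polynomial
open Pool.Agent.Helper30.FG

variable {s : ℂ → ℂ}

namespace Gc

theorem zero_of_mul {h : ℂ → ℂ} (hc : Continuous h) {k : ℂ}
    (hz : ∀ z : ℂ, (z ^ 2 - k ^ 2) * h z = 0) (z : ℂ) : h z = 0 := by
  have hfin : ({k, -k} : Set ℂ).Finite := by simp
  have hd : Dense ((univ : Set ℂ) \ {k, -k}) := dense_univ.sdiff_finite hfin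
  have h1 : h = fun _ => 0 := by
    refine Continuous.ext_on hd hc continuous_const ?_
    intro w hw
    have h2 : w ^ 2 - k ^ 2 ≠ 0 := by
      intro h3
      apply hw.2
      rcases sq_eq_sq_iff_eq_or_eq_neg.1 (sub_eq_zero.1 h3) with h4 | h4
      · exact Or.inl h4
      · exact Or.inr h4
    exact (mul_eq_zero.1 (hz w)).resolve_left h2
  rw [h1]

theorem zero_of_mul_real {h : ℝ → ℝ} (hc : Continuous h) {k : ℝ}
    (hz : ∀ x : ℝ, (x ^ 2 - k ^ 2) * h x = 0) (x : ℝ) : h x = 0 := by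
  have hfin : ({k, -k} : Set ℝ).Finite := by simp
  have hd : Dense ((univ : Set ℝ) \ {k, -k}) := dense_univ.sdiff_finite hfin
  have h1 : h = fun _ => 0 := by
    refine Continuous.ext_on hd hc continuous_const ?_
    intro w hw
    have h2 : w ^ 2 - k ^ 2 ≠ 0 := by
      intro h3
      apply hw.2
      rcases sq_eq_sq_iff_eq_or_eq_neg.1 (sub_eq_zero.1 h3) with h4 | h4
      · exact Or.inl h4
      · exact Or.inr h4
    exact (mul_eq_zero.1 (hz w)).resolve_left h2
  rw [h1]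

theorem E_isB (hs : IsE (1 / 2) 1 s) : IsB 1 (1 / 2) (E s) := by
  have h1 : IsB (1 / 2) (1 / 2 * 1) (deriv s) := bernstein (by norm_num) hs.b
  have h2 := hs.b.mul h1
  norm_num at h2
  exact h2

theorem E_real (hs : IsE (1 / 2) 1 s) (x : ℝ) : (E s (x : ℂ)).im = 0 := by
  have h1 := hs.real x
  have h2 := deriv_real hs.b.diff hs.real x
  unfold E
  rw [Complex.mul_im, h1, h2, mul_zero, zero_mul, add_zero]

theorem dE_isB (hs : IsE (1 / 2) 1 s) : IsB 1 (1 / 2) (deriv (E s)) := by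
  have h := bernstein one_pos (E_isB hs)
  rwa [one_mul] at h

theorem deriv_zE (hs : IsE (1 / 2) 1 s) (c : ℂ) :
    deriv (fun z => z * E s z) c = E s c + c * deriv (E s) c := by
  have h1 : HasDerivAt (fun z => z * E s z) (1 * E s c + c * deriv (E s) c) c :=
    (hasDerivAt_id c).mul ((differentiable_E hs) c).hasDerivAt
  rw [h1.deriv, one_mul]

/-- the inner slope -/
theorem inner (hs : IsE (1 / 2) 1 s) {c : ℝ} (hc : E s (c : ℂ) = 0) :
    (∀ z : ℂ, (z - c) * dslope (fun z => z * E s z) (c : ℂ) z = z * E s z) ∧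
      dslope (fun z => z * E s z) (c : ℂ) (-(c : ℂ)) = 0 := by
  have h1 : ∀ z : ℂ, (z - c) * dslope (fun z => z * E s z) (c : ℂ) z = z * E s z := by
    intro z
    have h := sub_smul_dslope (fun z => z * E s z) (c : ℂ) z
    rw [smul_eq_mul] at h
    rw [h, hc, mul_zero, sub_zero]
  refine ⟨h1, ?_⟩
  by_cases h0 : c = 0
  · subst h0
    have e : (-((0 : ℝ) : ℂ)) = ((0 : ℝ) : ℂ) := by simp
    rw [e, dslope_same, deriv_zE hs, hc]
    simp
  · have h2 := h1 (-(c : ℂ))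
    rw [E_odd hs, hc, neg_zero, mul_zero] at h2
    refine (mul_eq_zero.1 h2).resolve_left ?_
    intro h3
    apply h0
    have h4 : (2 : ℂ) * (c : ℂ) = 0 := by linear_combination -h3
    have h5 := (mul_eq_zero.1 h4).resolve_left two_ne_zero
    exact_mod_cast h5

theorem outer (hs : IsE (1 / 2) 1 s) {c : ℝ} (hc : E s (c : ℂ) = 0) (z : ℂ) :
    (z + c) * G s c z = dslope (fun z => z * E s z) (c : ℂ) z := by
  have h := sub_smul_dslope (dslope (fun z => z * E s z) (c : ℂ)) (-(c : ℂ)) z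
  rw [smul_eq_mul, (inner hs hc).2, sub_zero, sub_neg_eq_add] at h
  exact h

theorem E_lip (hs : IsE (1 / 2) 1 s) (x y : ℝ) :
    ‖E s (y : ℂ) - E s (x : ℂ)‖ ≤ 1 / 2 * |y - x| := by
  have hconv : Convex ℝ {z : ℂ | z.im = 0} := by
    intro a ha b hb p q _ _ _
    simp only [mem_ofPred_eq] at ha hb ⊢
    simp [ha, hb]
  have h := hconv.norm_image_sub_le_of_norm_deriv_le (f := E s) (C := 1 / 2)
    (fun z _ => (differentiable_E hs) z) (fun z hz => by
      have h1 := (dE_isB hs).bd z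
      have h2 : z.im = 0 := hz
      rw [h2, abs_zero, mul_zero, Real.exp_zero, mul_one] at h1
      exact h1) (Complex.ofReal_im x) (Complex.ofReal_im y)
  rw [← Complex.ofReal_sub, Complex.norm_real, Real.norm_eq_abs] at h
  exact h

theorem E_le (hs : IsE (1 / 2) 1 s) (x : ℝ) : ‖E s (x : ℂ)‖ ≤ 1 / 2 := (E_isB hs).real_le x

theorem E_le_node (hs : IsE (1 / 2) 1 s) {c : ℝ} (hc : E s (c : ℂ) = 0) (x : ℝ) :
    ‖E s (x : ℂ)‖ ≤ 1 / 2 * |x - c| := by
  have h := E_lip hs c x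
  rwa [hc, sub_zero] at h

end Gc

theorem G_spec (hs : IsE (1 / 2) 1 s) {c : ℝ} (hc : E s (c : ℂ) = 0) (z : ℂ) :
    (z ^ 2 - (c : ℂ) ^ 2) * G s c z = z * E s z := by
  have h1 := (Gc.inner hs hc).1 z
  have h2 := Gc.outer hs hc z
  rw [← h1, ← h2]
  ring

/-- at the node itself (`c ≠ 0`), resp. at `0` -/
theorem G_self (hs : IsE (1 / 2) 1 s) {c : ℝ} (hc : E s (c : ℂ) = 0) (h0 : c ≠ 0) :
    G s c (c : ℂ) = deriv (E s) (c : ℂ) / 2 := by
  have h2 := Gc.outer hs hc (c : ℂ)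
  rw [dslope_same, Gc.deriv_zE hs, hc, zero_add] at h2
  have h3 : (c : ℂ) ≠ 0 := by exact_mod_cast h0
  have h4 : (c : ℂ) * (2 * G s c (c : ℂ)) = (c : ℂ) * deriv (E s) (c : ℂ) := by
    linear_combination h2
  have h5 := mul_left_cancel₀ h3 h4
  rw [← h5]
  ring

theorem G_self_zero (hs : IsE (1 / 2) 1 s) : G s 0 0 = deriv (E s) 0 := by
  have h1 : dslope (fun z => z * E s z) ((0 : ℝ) : ℂ) = E s := by
    funext z
    by_cases hz : z = 0
    · subst hz
      have e : ((0 : ℝ) : ℂ) = 0 := by simp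
      rw [e, dslope_same, Gc.deriv_zE hs, zero_mul, add_zero]
    · have h2 := (Gc.inner hs (c := 0) (by simpa using E_zero hs)).1 z
      have h3 : (z - ((0 : ℝ) : ℂ)) = z := by simp
      rw [h3] at h2
      exact mul_left_cancel₀ hz h2
  unfold G
  rw [h1]
  have e : (-((0 : ℝ) : ℂ)) = 0 := by simp
  rw [e, dslope_same]

/-- at the other nodes -/
theorem G_other (hs : IsE (1 / 2) 1 s) {c x : ℝ} (hc : E s (c : ℂ) = 0) (hx : E s (x : ℂ) = 0)
    (h1 : x ≠ c) (h2 : x ≠ -c) : G s c (x : ℂ) = 0 := by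
  have h3 := G_spec hs hc (x : ℂ)
  rw [hx, mul_zero] at h3
  refine (mul_eq_zero.1 h3).resolve_left ?_
  intro h4
  have h5 : x ^ 2 = c ^ 2 := by
    have h6 : (x : ℂ) ^ 2 = (c : ℂ) ^ 2 := sub_eq_zero.1 h4
    exact_mod_cast h6
  rcases sq_eq_sq_iff_eq_or_eq_neg.1 h5 with h6 | h6
  exacts [h1 h6, h2 h6]

theorem G_neg (hs : IsE (1 / 2) 1 s) {c : ℝ} (hc : E s (c : ℂ) = 0) (z : ℂ) :
    G s (-c) z = G s c z := by
  have hc' : E s ((-c : ℝ) : ℂ) = 0 := by
    rw [Complex.ofReal_neg, E_odd hs, hc, neg_zero]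
  have h1 : ∀ w : ℂ, (w ^ 2 - (c : ℂ) ^ 2) * (G s (-c) w - G s c w) = 0 := by
    intro w
    have h2 := G_spec hs hc w
    have h3 := G_spec hs hc' w
    push_cast at h3
    linear_combination h3 - h2
  have h2 := Gc.zero_of_mul (h := fun w => G s (-c) w - G s c w)
    ((differentiable_G hs _).continuous.sub (differentiable_G hs _).continuous) h1 z
  exact sub_eq_zero.1 h2

theorem G_isE (hs : IsE (1 / 2) 1 s) : ∃ M : ℝ, 0 < M ∧ ∀ c : ℝ, E s (c : ℂ) = 0 →
    IsE 1 M (G s c) := by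
  refine ⟨1 / 2, by norm_num, fun c hc => ?_⟩
  have hcont : Continuous (G s c) := (differentiable_G hs c).continuous
  -- even and real
  have heven : ∀ z : ℂ, G s c (-z) = G s c z := by
    intro z
    have h1 : ∀ w : ℂ, (w ^ 2 - (c : ℂ) ^ 2) * (G s c (-w) - G s c w) = 0 := by
      intro w
      have h2 := G_spec hs hc w
      have h3 := G_spec hs hc (-w)
      rw [E_odd hs] at h3
      linear_combination h3 - h2
    exact sub_eq_zero.1 (Gc.zero_of_mul (h := fun w => G s c (-w) - G s c w)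
      ((hcont.comp continuous_neg).sub hcont) h1 z)
  have hreal : ∀ x : ℝ, (G s c (x : ℂ)).im = 0 := by
    intro x
    refine Gc.zero_of_mul_real (h := fun x : ℝ => (G s c (x : ℂ)).im) (k := c)
      (Complex.continuous_im.comp (hcont.comp Complex.continuous_ofReal)) (fun y => ?_) x
    have h2 := G_spec hs hc (y : ℂ)
    have h3 : ((y : ℂ) ^ 2 - (c : ℂ) ^ 2) = ((y ^ 2 - c ^ 2 : ℝ) : ℂ) := by push_cast; ring
    rw [h3] at h2
    have h4 := congrArg Complex.im h2
    rw [Complex.im_ofReal_mul, Complex.im_ofReal_mul, Gc.E_real hs, mul_zero] at h4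
    exact h4
  -- bound on the real line, away from the node
  have hb0 : ∀ x : ℝ, |x| ≠ |c| → ‖G s c (x : ℂ)‖ ≤ 1 / 2 := by
    intro x hx
    have h2 := G_spec hs hc (x : ℂ)
    have h3 : ((x : ℂ) ^ 2 - (c : ℂ) ^ 2) = ((x ^ 2 - c ^ 2 : ℝ) : ℂ) := by push_cast; ring
    rw [h3] at h2
    have h4 := congrArg norm h2
    rw [norm_mul, norm_mul, Complex.norm_real, Complex.norm_real, Real.norm_eq_abs,
      Real.norm_eq_abs] at h4
    have h5 : |x ^ 2 - c ^ 2| = abs (|x| - |c|) * (|x| + |c|) := by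
      rw [← sq_abs x, ← sq_abs c, sq_sub_sq, abs_mul, mul_comm,
        abs_of_nonneg (by positivity : 0 ≤ |x| + |c|)]
    have hd : 0 < abs (|x| - |c|) := abs_pos.2 (sub_ne_zero.2 hx)
    -- |E x| ≤ (1/2) abs (|x| - |c|)
    have h6 : ‖E s (x : ℂ)‖ ≤ 1 / 2 * abs (|x| - |c|) := by
      have hc' : E s ((-c : ℝ) : ℂ) = 0 := by
        rw [Complex.ofReal_neg, E_odd hs, hc, neg_zero]
      have h7 := Gc.E_le_node hs hc x
      have h8 := Gc.E_le_node hs hc' x
      rcases abs_cases x with ⟨h9, _⟩ | ⟨h9, _⟩ <;> rcases abs_cases c with ⟨h10, _⟩ | ⟨h10, _⟩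
      · rw [h9, h10]; exact h7
      · rw [h9, h10]; exact h8
      · rw [h9, h10]
        have : |-x - c| = |x - -c| := by rw [← abs_neg]; congr 1; ring
        rw [this]; exact h8
      · rw [h9, h10]
        have : |-x - -c| = |x - c| := by rw [← abs_neg]; congr 1; ring
        rw [this]; exact h7
    have h7 : 0 < |x| + |c| := by
      by_contra h8
      have h9 : |x| = 0 := le_antisymm (by linarith [abs_nonneg c]) (abs_nonneg x)
      have h10 : |c| = 0 := le_antisymm (by linarith [abs_nonneg x]) (abs_nonneg c)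
      exact hx (h9.trans h10.symm)
    rw [h5] at h4
    have h8 : |x| * ‖E s (x : ℂ)‖ ≤ (abs (|x| - |c|) * (|x| + |c|)) * (1 / 2) := by
      calc |x| * ‖E s (x : ℂ)‖ ≤ (|x| + |c|) * (1 / 2 * abs (|x| - |c|)) :=
            mul_le_mul (by linarith [abs_nonneg c]) h6 (norm_nonneg _) h7.le
        _ = (abs (|x| - |c|) * (|x| + |c|)) * (1 / 2) := by ring
    rw [← h4] at h8
    exact le_of_mul_le_mul_left h8 (mul_pos hd h7)
  have hb : ∀ x : ℝ, ‖G s c (x : ℂ)‖ ≤ 1 / 2 := by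
    have hcl : IsClosed {x : ℝ | ‖G s c (x : ℂ)‖ ≤ 1 / 2} :=
      isClosed_le (hcont.comp Complex.continuous_ofReal).norm continuous_const
    have hfin : ({c, -c} : Set ℝ).Finite := by simp
    have hd : Dense ((univ : Set ℝ) \ {c, -c}) := dense_univ.sdiff_finite hfin
    intro x
    have h1 : closure ((univ : Set ℝ) \ {c, -c}) ⊆ {x : ℝ | ‖G s c (x : ℂ)‖ ≤ 1 / 2} := by
      refine hcl.closure_subset_iff.2 fun y hy => hb0 y ?_
      intro h2
      apply hy.2
      rcases abs_eq_abs.1 h2 with h3 | h3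
      · exact Or.inl h3
      · exact Or.inr h3
    exact h1 (hd x)
  -- growth
  obtain ⟨C, hC⟩ : ∃ C : ℝ, ∀ z : ℂ, ‖G s c z‖ ≤ C * Real.exp (1 * |z.im|) := by
    by_cases hk0 : c = 0
    · subst hk0
      obtain ⟨g, hg1, hg2, C, hC, hg3⟩ := exists_div zero_le_one (Gc.E_isB hs) (ζ := 0)
        (E_zero hs)
      refine ⟨C, fun z => ?_⟩
      have e : G s 0 z = g z := by
        have h1 : ∀ w : ℂ, (w ^ 2 - (0 : ℂ) ^ 2) * (G s 0 w - g w) = 0 := by
          intro w
          have h2 := G_spec hs hc w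
          have h3 := hg2 w
          push_cast at h2
          linear_combination h2 + w * h3
        exact sub_eq_zero.1 (Gc.zero_of_mul (h := fun w => G s 0 w - g w)
          (hcont.sub hg1.continuous) h1 z)
      rw [e]
      refine (hg3 z).trans (div_le_self (by positivity) ?_)
      linarith [norm_nonneg z]
    · have hk1 : E s (-(c : ℂ)) = 0 := by rw [E_odd hs, hc, neg_zero]
      obtain ⟨g, hg1, hg2, C, hC, hg3⟩ := exists_div_sq zero_le_one (Gc.E_isB hs)
        (ζ := (c : ℂ)) (by exact_mod_cast hk0) hc hk1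
      refine ⟨C, fun z => ?_⟩
      have e : G s c z = z * g z := by
        have h1 : ∀ w : ℂ, (w ^ 2 - (c : ℂ) ^ 2) * (G s c w - w * g w) = 0 := by
          intro w
          have h2 := G_spec hs hc w
          have h3 := hg2 w
          linear_combination h2 + w * h3
        exact sub_eq_zero.1 (Gc.zero_of_mul (h := fun w => G s c w - w * g w)
          (hcont.sub (continuous_id.mul hg1.continuous)) h1 z)
      have h1 := hg3 z
      have hz := norm_nonneg z
      have h2 : 0 < (1 + ‖z‖) ^ 2 := by positivity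
      rw [le_div_iff₀ h2] at h1
      rw [e, norm_mul]
      have h3 : ‖z‖ ≤ (1 + ‖z‖) ^ 2 := by nlinarith
      calc ‖z‖ * ‖g z‖ ≤ (1 + ‖z‖) ^ 2 * ‖g z‖ :=
            mul_le_mul_of_nonneg_right h3 (norm_nonneg _)
        _ = ‖g z‖ * (1 + ‖z‖) ^ 2 := mul_comm _ _
        _ ≤ C * Real.exp (1 * |z.im|) := h1
  exact ⟨pl_bound zero_le_one (differentiable_G hs c) hC hb, heven, hreal⟩

theorem G_real (hs : IsE (1 / 2) 1 s) : ∃ C : ℝ, 0 < C ∧ ∀ c : ℝ, 2 ≤ c → E s (c : ℂ) = 0 →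
    ∀ x : ℝ, 0 ≤ x → ‖G s c (x : ℂ)‖ ≤ C * (x / ((x + c) * (1 + |x - c|))) := by
  refine ⟨1, one_pos, fun c hc2 hc x hx => ?_⟩
  have hcx : 0 < x + c := by linarith
  by_cases hxc : x = c
  · subst hxc
    rw [G_self hs hc (by linarith : x ≠ 0), norm_div]
    have h1 := (Gc.dE_isB hs).real_le x
    rw [sub_self, abs_zero, add_zero, mul_one, one_mul, Complex.norm_ofNat]
    have h2 : x / (x + x) = 1 / 2 := by
      field_simp
      norm_num
    rw [h2]
    linarith
  · have hd : 0 < |x - c| := abs_pos.2 (sub_ne_zero.2 hxc)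
    have h2 := G_spec hs hc (x : ℂ)
    have h3 : ((x : ℂ) ^ 2 - (c : ℂ) ^ 2) = ((x ^ 2 - c ^ 2 : ℝ) : ℂ) := by push_cast; ring
    rw [h3] at h2
    have h4 := congrArg norm h2
    rw [norm_mul, norm_mul, Complex.norm_real, Complex.norm_real, Real.norm_eq_abs,
      Real.norm_eq_abs, abs_of_nonneg hx] at h4
    have h5 : |x ^ 2 - c ^ 2| = (x + c) * |x - c| := by
      rw [sq_sub_sq, abs_mul, abs_of_pos hcx]
    rw [h5] at h4
    -- |E x| (1 + |x - c|) ≤ |x - c|
    have h6 : ‖E s (x : ℂ)‖ * (1 + |x - c|) ≤ |x - c| := by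
      have h7 := Gc.E_le_node hs hc x
      have h8 := Gc.E_le hs x
      nlinarith [norm_nonneg (E s (x : ℂ))]
    rw [one_mul, le_div_iff₀ (by positivity)]
    have h7 : |x - c| * (‖G s c (x : ℂ)‖ * ((x + c) * (1 + |x - c|))) ≤ |x - c| * x := by
      calc |x - c| * (‖G s c (x : ℂ)‖ * ((x + c) * (1 + |x - c|)))
          = ((x + c) * |x - c| * ‖G s c (x : ℂ)‖) * (1 + |x - c|) := by ring
        _ = x * (‖E s (x : ℂ)‖ * (1 + |x - c|)) := by rw [h4]; ring
        _ ≤ x * |x - c| := mul_le_mul_of_nonneg_left h6 hx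
        _ = |x - c| * x := mul_comm _ _
    exact le_of_mul_le_mul_left h7 hd

theorem G_imag (hs : IsE (1 / 2) 1 s) : ∃ C : ℝ, 0 < C ∧ ∀ c : ℝ, 2 ≤ c → E s (c : ℂ) = 0 →
    ∀ t : ℝ, 0 < t → ‖G s c ((t : ℂ) * I)‖ ≤ C * t * min t 1 * Real.exp t / (t ^ 2 + c ^ 2) := by
  refine ⟨1 / 2, by norm_num, fun c hc2 hc t ht => ?_⟩
  have hE : ‖E s ((t : ℂ) * I)‖ ≤ 1 / 2 * min t 1 * Real.exp t := by
    have h1 : ‖E s ((t : ℂ) * I)‖ ≤ 1 / 2 * Real.exp t := by
      have h := (Gc.E_isB hs).imag_le ht.le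
      rwa [one_mul] at h
    have h2 : ‖E s ((t : ℂ) * I)‖ ≤ 1 / 2 * t * Real.exp t := by
      have hconv : Convex ℝ {z : ℂ | |z.im| ≤ t} := by
        intro a ha b hb p q hp hq hpq
        simp only [mem_ofPred_eq] at ha hb ⊢
        rw [abs_le] at ha hb ⊢
        have e : (p • a + q • b).im = p * a.im + q * b.im := by simp
        rw [e]
        constructor <;> nlinarith
      have h := hconv.norm_image_sub_le_of_norm_deriv_le (f := E s) (C := 1 / 2 * Real.exp t)
        (x := 0) (y := (t : ℂ) * I) (fun z _ => (differentiable_E hs) z) (fun z hz => by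
          refine ((Gc.dE_isB hs).bd z).trans ?_
          rw [one_mul]
          exact mul_le_mul_of_nonneg_left (Real.exp_le_exp.2 hz) (by norm_num))
        (by simp [ht.le]) (by simp [abs_of_pos ht])
      rw [E_zero hs, sub_zero, sub_zero, norm_mul, Complex.norm_I, mul_one, Complex.norm_real,
        Real.norm_eq_abs, abs_of_pos ht] at h
      calc ‖E s ((t : ℂ) * I)‖ ≤ 1 / 2 * Real.exp t * t := h
        _ = 1 / 2 * t * Real.exp t := by ring
    rcases min_cases t 1 with ⟨h3, _⟩ | ⟨h3, _⟩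
    · rw [h3]; exact h2
    · rw [h3, mul_one]; exact h1
  have h2 := G_spec hs hc ((t : ℂ) * I)
  have h3 : (((t : ℂ) * I) ^ 2 - (c : ℂ) ^ 2) = ((-(t ^ 2 + c ^ 2) : ℝ) : ℂ) := by
    push_cast
    linear_combination (t : ℂ) ^ 2 * Complex.I_sq
  rw [h3] at h2
  have h4 := congrArg norm h2
  have hp : 0 < t ^ 2 + c ^ 2 := by positivity
  rw [norm_mul, norm_mul, norm_mul, Complex.norm_I, mul_one, Complex.norm_real, Complex.norm_real,
    Real.norm_eq_abs, Real.norm_eq_abs, abs_neg, abs_of_pos hp, abs_of_pos ht] at h4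
  rw [le_div_iff₀ hp]
  calc ‖G s c ((t : ℂ) * I)‖ * (t ^ 2 + c ^ 2) = t * ‖E s ((t : ℂ) * I)‖ := by
        rw [← h4]; ring
    _ ≤ t * (1 / 2 * min t 1 * Real.exp t) := mul_le_mul_of_nonneg_left hE ht.le
    _ = 1 / 2 * t * min t 1 * Real.exp t := by ring

end Helper22.SC
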