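import Pool.Agent.Helper22.SC.Point
import Pool.Agent.Helper30.FG.A6

/-!
[SC-Interp] `Lf` of the interpolation formula `interp_point`: `Lf g = ∑_k gcos α (wf k) (g (wf k)).re` is absolutely
convergent (`summable_gcos_int`), `∑_x |g x/E' x| < ∞` (decay, `Eprime_lower`, `nodes_summable`), `|G_x(y)| ≤ M`
(`G_isE`): exchange the two sums (`Summable.tsum_comm` / `HasSum` on the product).
-/

set_option autoImplicit false

namespace Helper22.SC

open Complex MeasureTheory Set Filter Topology Polynomial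
open Pool.Agent.Helper30.FG Pool.Agent.Helper78.Bern Pool.Agent.Helper45.Bern

variable {s : ℂ → ℂ} {P Q : ℝ[X]}

theorem interp_Lf {α : ℝ} (h0 : 0 < α) (h1 : α < 1) (h : PellData s P Q) :
    ∃ N₀ : ℕ, 2 ≤ N₀ ∧ ∀ (g : ℂ → ℂ) (M K : ℝ), IsE 1 M g →
      (∀ z : ℂ, ‖g z‖ ≤ K * Real.exp |z.im| / (1 + ‖z‖) ^ N₀) →
        HasSum (fun x : Node s => (g (x.1 : ℂ)).re / (deriv (E s) (x.1 : ℂ)).re *
          Lf α (G s x.1)) (Lf α g) := by
  obtain ⟨N₀, hN, hpt⟩ := interp_point h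
  obtain ⟨c₀, hc₀, hlow⟩ := Eprime_lower h
  obtain ⟨M', hM', hG⟩ := G_isE h.hs
  have hns := nodes_summable h one_pos
  refine ⟨N₀, hN, fun g M K hg hdec => ?_⟩
  -- the coefficients
  set a : Node s → ℝ := fun x => (g (x.1 : ℂ)).re / (deriv (E s) (x.1 : ℂ)).re with ha
  have hK : 0 ≤ K := by
    have h2 := hdec 0
    have h3 : 0 ≤ K * Real.exp |(0 : ℂ).im| / (1 + ‖(0 : ℂ)‖) ^ N₀ := (norm_nonneg _).trans h2
    simpa using h3
  have hab : ∀ x : Node s, |a x| ≤ K / c₀ * (1 + |x.1|) ^ (-1 - 1 : ℝ) := by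
    intro x
    have h2 := hdec (x.1 : ℂ)
    have h3 : ‖((x.1 : ℝ) : ℂ)‖ = |x.1| := by rw [Complex.norm_real, Real.norm_eq_abs]
    rw [Complex.ofReal_im, abs_zero, Real.exp_zero, mul_one, h3] at h2
    have h4 : |(g (x.1 : ℂ)).re| ≤ K / (1 + |x.1|) ^ N₀ := (Complex.abs_re_le_norm _).trans h2
    have h5 : (1 : ℝ) ≤ 1 + |x.1| := by linarith [abs_nonneg x.1]
    have h6 : K / (1 + |x.1|) ^ N₀ ≤ K / (1 + |x.1|) ^ 2 :=
      div_le_div_of_nonneg_left hK (by positivity) (pow_le_pow_right₀ h5 hN)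
    have h7 : (1 + |x.1|) ^ (-1 - 1 : ℝ) = 1 / (1 + |x.1|) ^ 2 := by
      have : (-1 - 1 : ℝ) = -((2 : ℕ) : ℝ) := by norm_num
      rw [this, Real.rpow_neg (by linarith), Real.rpow_natCast, one_div]
    rw [ha]
    simp only
    rw [abs_div, h7, div_mul_div_comm, mul_one]
    have h8 := hlow x.1 x.2
    calc |(g (x.1 : ℂ)).re| / |(deriv (E s) (x.1 : ℂ)).re|
        ≤ (K / (1 + |x.1|) ^ 2) / c₀ :=
          div_le_div₀ (div_nonneg hK (by positivity)) (h4.trans h6) hc₀ h8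
      _ = K / (c₀ * (1 + |x.1|) ^ 2) := by rw [div_div, mul_comm]
  have has : Summable (fun x : Node s => |a x|) :=
    Summable.of_nonneg_of_le (fun x => abs_nonneg _) hab (hns.mul_left _)
  have hks : Summable (fun k : ℤ => |gcos α (wf k)| * M') := (summable_gcos_int h0 h1).mul_right M'
  set F : Node s × ℤ → ℝ := fun p => a p.1 * (gcos α (wf p.2) * (G s p.1.1 ((wf p.2 : ℝ) : ℂ)).re)
    with hF
  have hFs : Summable F := by
    have h2 : Summable (fun p : Node s × ℤ => |a p.1| * (|gcos α (wf p.2)| * M')) :=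
      has.mul_of_nonneg hks (fun _ => abs_nonneg _) (fun _ => mul_nonneg (abs_nonneg _) hM'.le)
    refine Summable.of_norm_bounded h2 fun p => ?_
    rw [hF]
    simp only
    rw [norm_mul, norm_mul, Real.norm_eq_abs, Real.norm_eq_abs, Real.norm_eq_abs]
    refine mul_le_mul_of_nonneg_left (mul_le_mul_of_nonneg_left ?_ (abs_nonneg _)) (abs_nonneg _)
    exact (Complex.abs_re_le_norm _).trans ((hG p.1.1 p.1.2).b.real_le _)
  have hFT := hFs.hasSum
  -- rows
  have hrow : HasSum (fun x : Node s => a x * Lf α (G s x.1)) (∑' p, F p) := by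
    refine hFT.prod_fiberwise fun x => ?_
    exact (summable_Lf h0 h1 (fun y => (hG x.1 x.2).b.real_le y)).hasSum.mul_left (a x)
  -- columns
  have hcol : HasSum (fun k : ℤ => gcos α (wf k) * (g ((wf k : ℝ) : ℂ)).re) (∑' p, F p) := by
    have h2 : HasSum (fun q : ℤ × Node s => F q.swap) (∑' p, F p) :=
      (Equiv.prodComm ℤ (Node s)).hasSum_iff.2 hFT
    refine h2.prod_fiberwise fun k => ?_
    have h3 := (hpt g M K hg hdec (wf k)).mul_left (gcos α (wf k))
    have h4 : (fun x : Node s => F (k, x).swap) = fun x : Node s => gcos α (wf k) *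
        ((g (x.1 : ℂ)).re / (deriv (E s) (x.1 : ℂ)).re * (G s x.1 ((wf k : ℝ) : ℂ)).re) := by
      funext x
      rw [hF]
      simp only [Prod.swap_prod_mk]
      rw [ha]
      ring
    rw [h4]
    exact h3
  have e : Lf α g = ∑' p, F p := hcol.tsum_eq
  rw [e]
  exact hrow

end Helper22.SC
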