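import Pool.Agent.Helper22.SC.Expo

/-!
[SC-LowerE] Lower bound of `E` off a strip, from `exists_u` (`Expo.lean`).
`F = u e^{iz/2}`: `F'/F = i/2 - i/(2r)`, `‖F'/F‖ ≤ C/‖z‖²`. Integrate (log ‖F‖ along segments; or
`F(z₁)/F(z₀) = exp ∫`) along the vertical line from `Re z` if `|Re z| ≥ R₀ + 1`, otherwise along
`R₀ + 1 → R₀ + 1 + iy → z` (`|y| ≥ R₀ + 1`): `C⁻¹ ≤ ‖F‖ ≤ C` as `‖F‖ = ‖u‖ = 1` on the real axis; so
`‖u‖ ≍ e^{y/2}` for `|y| ≥ y₀`, and `E = (u² - u⁻²)/(8 i r)`: `‖E‖ ≥ c e^{|y|}`.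
-/

set_option autoImplicit false

namespace Helper22.SC

open Complex MeasureTheory Set Filter Topology Polynomial
open Pool.Agent.Helper30.FG

variable {s : ℂ → ℂ} {P Q : ℝ[X]}

private theorem LowerE_log {w : ℝ → ℂ} {κ : ℂ} {t : ℝ} (h0 : w t ≠ 0)
    (hw : HasDerivAt w (κ * w t) t) : HasDerivAt (fun t => Real.log ‖w t‖) κ.re t := by
  have h1 := hw.norm_sq
  have h2 : (‖w t‖ ^ 2 : ℝ) ≠ 0 := by positivity
  have h3 := (h1.log h2).const_mul (1 / 2 : ℝ)
  have e1 : (fun t => (1 / 2 : ℝ) * Real.log (‖w t‖ ^ 2)) = fun t => Real.log ‖w t‖ := by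
    funext t
    rw [Real.log_pow]
    push_cast
    ring
  have e2 : (inner ℝ (w t) (κ * w t) : ℝ) = κ.re * ‖w t‖ ^ 2 := by
    rw [Complex.inner, ← Complex.normSq_eq_norm_sq, Complex.normSq_apply]
    simp only [mul_re, mul_im, conj_re, conj_im]
    ring
  have e3 : (1 / 2 : ℝ) * (2 * (κ.re * ‖w t‖ ^ 2) / ‖w t‖ ^ 2) = κ.re := by
    field_simp
  rw [e1, e2, e3] at h3
  exact h3

private theorem LowerE_g {u q : ℂ → ℂ} {R₀ C : ℝ}
    (hu : ∀ z : ℂ, R₀ < ‖z‖ → u z ≠ 0 ∧ HasDerivAt u (-(I * q z) * u z) z ∧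
      ‖q z - 1‖ ≤ C / ‖z‖ ^ 2) (a d : ℂ) (t : ℝ) (ht : R₀ < ‖a + t * d‖) :
    ∃ g' : ℝ, HasDerivAt (fun t : ℝ => Real.log ‖u (a + t * d)‖ - (a + t * d).im) g' t ∧
      |g'| ≤ ‖d‖ * (C / ‖a + t * d‖ ^ 2) := by
  obtain ⟨h0, h1, h2⟩ := hu _ ht
  have hγ : HasDerivAt (fun t : ℝ => a + (t : ℂ) * d) d t := by
    have := ((hasDerivAt_id t).ofReal_comp.mul_const d).const_add a
    simpa using this
  have hw : HasDerivAt (fun t : ℝ => u (a + (t : ℂ) * d))
      ((-(I * q (a + t * d)) * d) * u (a + t * d)) t := by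
    have h3 := h1.scomp t hγ
    have e3 : (-(I * q (a + t * d)) * d) * u (a + t * d) =
        d • (-(I * q (a + t * d)) * u (a + t * d)) := by
      rw [smul_eq_mul]
      ring
    rw [e3]
    exact h3
  have hl := LowerE_log (w := fun t : ℝ => u (a + (t : ℂ) * d)) h0 hw
  have him : HasDerivAt (fun t : ℝ => (a + (t : ℂ) * d).im) d.im t := by
    have : (fun t : ℝ => (a + (t : ℂ) * d).im) = fun t : ℝ => a.im + t * d.im := by
      funext t
      simp
    rw [this]
    simpa using ((hasDerivAt_id t).mul_const d.im).const_add a.im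
  refine ⟨_, hl.sub him, ?_⟩
  have e : (-(I * q (a + t * d)) * d).re - d.im = (-(I * (q (a + t * d) - 1)) * d).re := by
    simp only [neg_mul, neg_re, mul_re, mul_im, I_re, I_im, sub_re, sub_im, one_re, one_im, zero_mul,
      one_mul, zero_sub, zero_add]
    ring
  rw [e]
  refine (Complex.abs_re_le_norm _).trans ?_
  rw [norm_mul, norm_neg, norm_mul, norm_I, one_mul, mul_comm]
  exact mul_le_mul_of_nonneg_left h2 (norm_nonneg _)

/-- the logarithm of the exponential is the imaginary part up to a bounded error -/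
private theorem LowerE_bdd {u q : ℂ → ℂ} {R₀ C : ℝ} (hR : 1 ≤ R₀) (hC : 0 ≤ C)
    (hu : ∀ z : ℂ, R₀ < ‖z‖ → u z ≠ 0 ∧ HasDerivAt u (-(I * q z) * u z) z ∧
      ‖q z - 1‖ ≤ C / ‖z‖ ^ 2) (hr : ∀ z : ℂ, R₀ < ‖z‖ → z.im = 0 → ‖u z‖ = 1) :
    ∃ M : ℝ, 0 ≤ M ∧ ∀ z : ℂ, R₀ + 1 ≤ |z.im| → |Real.log ‖u z‖ - z.im| ≤ M := by
  have hvert : ∀ x y : ℝ, R₀ + 1 ≤ |x| →
      |Real.log ‖u (x + y * I)‖ - ((x : ℂ) + y * I).im| ≤ C * (Real.pi / 2) := by
    intro x y hx
    have hbig : ∀ t : ℝ, R₀ < ‖(x : ℂ) + t * I‖ := by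
      intro t
      have h1 : |x| ≤ ‖(x : ℂ) + t * I‖ := by
        have := Complex.abs_re_le_norm ((x : ℂ) + t * I)
        simpa using this
      linarith
    have hn : ∀ t : ℝ, 1 + t ^ 2 ≤ ‖(x : ℂ) + t * I‖ ^ 2 := by
      intro t
      rw [← Complex.normSq_eq_norm_sq, Complex.normSq_apply]
      have h1 : 1 ≤ x ^ 2 := by
        have h2 : 1 ≤ |x| := by linarith
        nlinarith [sq_abs x]
      simp
      nlinarith
    obtain ⟨g', hg'⟩ : ∃ g' : ℝ → ℝ, ∀ t : ℝ,
        HasDerivAt (fun t : ℝ => Real.log ‖u (x + t * I)‖ - ((x : ℂ) + t * I).im) (g' t) t ∧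
          |g' t| ≤ C * (1 / (1 + t ^ 2)) := by
      choose g' h1 h2 using fun t : ℝ => LowerE_g hu (x : ℂ) I t (hbig t)
      refine ⟨g', fun t => ⟨h1 t, (h2 t).trans ?_⟩⟩
      rw [norm_I, one_mul, mul_one_div]
      exact div_le_div_of_nonneg_left hC (by positivity) (hn t)
    have hg0 : Real.log ‖u ((x : ℂ) + (0 : ℝ) * I)‖ - ((x : ℂ) + (0 : ℝ) * I).im = 0 := by
      have h1 : ‖u ((x : ℂ) + (0 : ℝ) * I)‖ = 1 := hr _ (hbig 0) (by simp)
      rw [h1]
      simp
    have hm : Monotone (fun t : ℝ => (Real.log ‖u (x + t * I)‖ - ((x : ℂ) + t * I).im) +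
        C * Real.arctan t) := by
      have hd : ∀ t : ℝ, HasDerivAt (fun t : ℝ => (Real.log ‖u (x + t * I)‖ -
          ((x : ℂ) + t * I).im) + C * Real.arctan t) (g' t + C * (1 / (1 + t ^ 2))) t := fun t =>
        (hg' t).1.add ((Real.hasDerivAt_arctan t).const_mul C)
      refine monotone_of_deriv_nonneg (fun t => (hd t).differentiableAt) fun t => ?_
      rw [(hd t).deriv]
      have := (abs_le.1 (hg' t).2).1
      linarith
    have ha : Antitone (fun t : ℝ => (Real.log ‖u (x + t * I)‖ - ((x : ℂ) + t * I).im) -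
        C * Real.arctan t) := by
      have hd : ∀ t : ℝ, HasDerivAt (fun t : ℝ => (Real.log ‖u (x + t * I)‖ -
          ((x : ℂ) + t * I).im) - C * Real.arctan t) (g' t - C * (1 / (1 + t ^ 2))) t := fun t =>
        (hg' t).1.sub ((Real.hasDerivAt_arctan t).const_mul C)
      refine antitone_of_deriv_nonpos (fun t => (hd t).differentiableAt) fun t => ?_
      rw [(hd t).deriv]
      have := (abs_le.1 (hg' t).2).2
      linarith
    have hlt : Real.arctan y < Real.pi / 2 := Real.arctan_lt_pi_div_two y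
    have hgt : -(Real.pi / 2) < Real.arctan y := Real.neg_pi_div_two_lt_arctan y
    have k1 : C * Real.arctan y ≤ C * (Real.pi / 2) := mul_le_mul_of_nonneg_left hlt.le hC
    have k2 : -(C * (Real.pi / 2)) ≤ C * Real.arctan y := by
      have := mul_le_mul_of_nonneg_left hgt.le hC
      linarith
    have m0 := fun h : (0 : ℝ) ≤ y => hm h
    have m1 := fun h : y ≤ (0 : ℝ) => hm h
    have a0 := fun h : (0 : ℝ) ≤ y => ha h
    have a1 := fun h : y ≤ (0 : ℝ) => ha h
    simp only [hg0, Real.arctan_zero, mul_zero, add_zero, sub_zero] at m0 m1 a0 a1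
    rw [abs_le]
    rcases le_total 0 y with h | h
    · have := m0 h
      have := a0 h
      constructor <;> linarith
    · have := m1 h
      have := a1 h
      constructor <;> linarith
  refine ⟨C * (Real.pi / 2) + 2 * (R₀ + 1) * C, by positivity, fun z hz => ?_⟩
  have hzeq : (z.re : ℂ) + z.im * I = z := Complex.re_add_im z
  by_cases hx : R₀ + 1 ≤ |z.re|
  · have h1 := hvert z.re z.im hx
    rw [hzeq] at h1
    refine h1.trans ?_
    have : 0 ≤ 2 * (R₀ + 1) * C := by positivity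
    linarith
  · push Not at hx
    set x₁ : ℝ := R₀ + 1 with hx₁
    have h1 := hvert x₁ z.im (le_abs_self _)
    -- horizontal segment
    set a : ℂ := (x₁ : ℂ) + z.im * I with ha
    set d : ℂ := ((z.re - x₁ : ℝ) : ℂ) with hd
    have hdn : ‖d‖ ≤ 2 * (R₀ + 1) := by
      rw [hd, Complex.norm_real, Real.norm_eq_abs]
      have := abs_lt.1 hx
      rw [abs_le]
      constructor <;> linarith
    have hpt : ∀ t : ℝ, |z.im| ≤ ‖a + t * d‖ := by
      intro t
      have h2 := Complex.abs_im_le_norm (a + t * d)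
      have h3 : (a + t * d).im = z.im := by
        rw [ha, hd]
        simp
      rwa [h3] at h2
    have hbig : ∀ t : ℝ, R₀ < ‖a + t * d‖ := fun t => by
      have := hpt t
      linarith
    choose g' hg1 hg2 using fun t : ℝ => LowerE_g hu a d t (hbig t)
    have hbound : ∀ t : ℝ, ‖g' t‖ ≤ 2 * (R₀ + 1) * C := by
      intro t
      rw [Real.norm_eq_abs]
      refine (hg2 t).trans ?_
      have h3 : 1 ≤ ‖a + t * d‖ ^ 2 := by
        have : 1 ≤ ‖a + t * d‖ := by linarith [hbig t]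
        nlinarith
      have h4 : C / ‖a + t * d‖ ^ 2 ≤ C := div_le_self hC h3
      exact mul_le_mul hdn h4 (by positivity) (by positivity)
    have h5 := (convex_univ (𝕜 := ℝ) (E := ℝ)).norm_image_sub_le_of_norm_hasDerivWithin_le
      (f := fun t : ℝ => Real.log ‖u (a + t * d)‖ - (a + t * d).im) (f' := g')
      (C := 2 * (R₀ + 1) * C) (x := 0) (y := 1)
      (fun t _ => (hg1 t).hasDerivWithinAt) (fun t _ => hbound t) (mem_univ _) (mem_univ _)
    have e1 : a + ((1 : ℝ) : ℂ) * d = z := by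
      rw [ha, hd]
      push_cast
      linear_combination hzeq
    have e0 : a + ((0 : ℝ) : ℂ) * d = a := by simp
    rw [e1, e0, Real.norm_eq_abs] at h5
    have h6 : ‖(1 : ℝ) - 0‖ = 1 := by simp
    rw [h6, mul_one] at h5
    have h7 := abs_le.1 h5
    have h8 := abs_le.1 h1
    rw [abs_le]
    constructor <;> linarith [h7.1, h7.2, h8.1, h8.2]

private theorem LowerE_sub {u : ℂ} {y M : ℝ} (h0 : u ≠ 0) (h : |Real.log ‖u‖ - y| ≤ M)
    (hy : M + 1 ≤ |y|) : Real.exp (-M) / 2 * Real.exp |y| ≤ ‖u - u⁻¹‖ := by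
  have hpos : 0 < ‖u‖ := norm_pos_iff.2 h0
  have hl := abs_le.1 h
  have key : ∀ a b : ℝ, 0 < a → 0 < b → Real.exp (|y| - M) ≤ a → b ≤ Real.exp (M - |y|) →
      Real.exp (-M) / 2 * Real.exp |y| ≤ a - b := by
    intro a b _ _ h1 h2
    have e1 : Real.exp (-M) / 2 * Real.exp |y| = Real.exp (|y| - M) / 2 := by
      rw [sub_eq_add_neg, Real.exp_add]
      ring
    have e2 : Real.exp (M - |y|) ≤ Real.exp (-1) := Real.exp_le_exp.2 (by linarith)
    have e3 : Real.exp 1 ≤ Real.exp (|y| - M) := Real.exp_le_exp.2 (by linarith)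
    have e4 : (2 : ℝ) ≤ Real.exp 1 := by
      have := Real.add_one_le_exp (1 : ℝ)
      linarith
    have e5 : Real.exp (-1) ≤ 1 / 2 := by
      rw [Real.exp_neg, one_div]
      exact inv_anti₀ (by norm_num) e4
    rw [e1]
    linarith
  rcases le_total 0 y with hy0 | hy0
  · rw [abs_of_nonneg hy0] at key hy ⊢
    have h1 : Real.exp (y - M) ≤ ‖u‖ := by
      rw [← Real.exp_log hpos]
      exact Real.exp_le_exp.2 (by linarith)
    have h2 : ‖u⁻¹‖ ≤ Real.exp (M - y) := by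
      rw [norm_inv, ← Real.exp_log hpos, ← Real.exp_neg]
      exact Real.exp_le_exp.2 (by linarith)
    exact (key _ _ hpos (norm_pos_iff.2 (inv_ne_zero h0)) h1 h2).trans (norm_sub_norm_le _ _)
  · rw [abs_of_nonpos hy0] at key hy ⊢
    have h1 : Real.exp (-y - M) ≤ ‖u⁻¹‖ := by
      rw [norm_inv, ← Real.exp_log hpos, ← Real.exp_neg]
      exact Real.exp_le_exp.2 (by linarith)
    have h2 : ‖u‖ ≤ Real.exp (M - -y) := by
      rw [← Real.exp_log hpos]
      exact Real.exp_le_exp.2 (by linarith)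
    rw [norm_sub_rev]
    exact (key _ _ (norm_pos_iff.2 (inv_ne_zero h0)) hpos h1 h2).trans (norm_sub_norm_le _ _)

theorem lower_E (h : PellData s P Q) : ∃ y₀ c : ℝ, 1 ≤ y₀ ∧ 0 < c ∧ ∀ z : ℂ, y₀ ≤ |z.im| →
    c * Real.exp |z.im| ≤ ‖E s z‖ := by
  obtain ⟨R₀, C, hR, hC, u, r, H⟩ := exists_u h
  obtain ⟨M, hM, hb⟩ := LowerE_bdd (u := fun z => u z ^ 2) (q := fun z => 1 / r z) (C := 2 * C) hR
    (by linarith : (0 : ℝ) ≤ 2 * C)
    (fun z hz => by
      obtain ⟨h1, -, -, -, -, h2, h3, -⟩ := H z hz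
      refine ⟨pow_ne_zero 2 h1, ?_, ?_⟩
      · have h4 := h2.pow 2
        have e : -(I * (1 / r z)) * u z ^ 2 =
            ((2 : ℕ) : ℂ) * u z ^ (2 - 1) * (-(I / (2 * r z)) * u z) := by
          push_cast
          have : (1 : ℂ) / r z = 2 * (1 / (2 * r z)) := by
            rw [one_div, one_div, mul_inv, ← mul_assoc, mul_inv_cancel₀ two_ne_zero, one_mul]
          rw [this, div_eq_mul_inv I, one_div]
          ring
        rw [e]
        exact h4
      · have e : 1 / r z - 1 = 2 * (1 / (2 * r z) - 1 / 2) := by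
          have : (1 : ℂ) / r z = 2 * (1 / (2 * r z)) := by
            rw [one_div, one_div, mul_inv, ← mul_assoc, mul_inv_cancel₀ two_ne_zero, one_mul]
          rw [this]
          ring
        rw [e, norm_mul, Complex.norm_two, mul_div_assoc]
        exact mul_le_mul_of_nonneg_left h3 (by norm_num))
    (fun z hz hz0 => by
      have := (H z hz).2.2.2.2.2.2.2 hz0
      rw [norm_pow, this, one_pow])
  refine ⟨max (R₀ + 1) (M + 1), Real.exp (-M) / 32, (by linarith : 1 ≤ R₀ + 1).trans (le_max_left _ _),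
    by positivity, fun z hz => ?_⟩
  have h1 : R₀ + 1 ≤ |z.im| := (le_max_left _ _).trans hz
  have h2 : M + 1 ≤ |z.im| := (le_max_right _ _).trans hz
  have hz' : R₀ < ‖z‖ := by
    have := Complex.abs_im_le_norm z
    linarith
  obtain ⟨u0, hs, hd, r1, r2, -, -, -⟩ := H z hz'
  have h3 := LowerE_sub (u := u z ^ 2) (pow_ne_zero 2 u0) (hb z h1) h2
  have hr0 : r z ≠ 0 := by
    intro h0
    rw [h0, norm_zero] at r1
    norm_num at r1
  have hE : E s z = (u z ^ 2 - (u z ^ 2)⁻¹) / (8 * I * r z) := by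
    unfold E
    rw [hs, hd]
    field_simp
    ring
  rw [hE, norm_div, norm_mul, norm_mul, norm_I]
  have h4 : ‖(8 : ℂ)‖ = 8 := by simp
  rw [h4, mul_one, le_div_iff₀ (by positivity)]
  calc Real.exp (-M) / 32 * Real.exp |z.im| * (8 * ‖r z‖)
      ≤ Real.exp (-M) / 32 * Real.exp |z.im| * (8 * 2) := by
        refine mul_le_mul_of_nonneg_left ?_ (by positivity)
        linarith
    _ = Real.exp (-M) / 2 * Real.exp |z.im| := by ring
    _ ≤ _ := h3

end Helper22.SC
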