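import Pool.Agent.Helper22.SC.Gc
import Pool.Agent.Helper30.FG.C0
import Pool.Agent.Helper30.FG.C5
import Pool.Agent.Helper30.FG.D5

/-!
[SC-Necess] The sign conditions are necessary. `f = 1 - 2 s²`, `c` a node (`E s c = 0`), `G_c ≥ 0` near `± c` if
`s c = 0` (`G_c(c) = s'(c)²/2 > 0`), `G_c ≤ 0` near `± c` if `|s c| = 1` (`G_c(c) = s s''(c)/2 < 0`; `c = 0`: factor 2).
Away from `± c`: `|G_c| ≤ b |s| |s'| ≤ (b/2) |s| √(1 - s²)` on the real line (Bernstein-Szegoe B1: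
`4 s'² + s² ≤ 1`). Hence for small `η > 0`, `|f - η G_c| ≤ 1 + C η²` on the real line:
`1 - 2 s² + η (b/2)|s| ≤ 1 + C η²`, `-1 + 2(1 - s²) - η (b/2) √(1-s²) ≥ -1 - C η²`, and near `± c` by the sign.
As in `D5.lean`: `L f - η L(G_c) ≤ (1 + C η²) I`, so `L(G_c) ≥ -C η I`, `η → 0`.
If `|s c| < 1`, `s' c = 0`: both signs of `η` are allowed (near `± c` `|f| < 1`), so `L(G_c) = 0`.
-/

set_option autoImplicit false

namespace Helper22.SC

open Complex MeasureTheory Set Filter Topology Polynomial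
open Pool.Agent.Helper30.FG Pool.Agent.Helper78.Bern Pool.Agent.Helper45.Bern

variable {s : ℂ → ℂ}

namespace Necess

lemma away {S w η b : ℝ} (hS : S ^ 2 ≤ 1) (hw : w ^ 2 ≤ b ^ 2 / 4 * (S ^ 2 * (1 - S ^ 2))) :
    |1 - 2 * S ^ 2 - η * w| ≤ 1 + b ^ 2 / 32 * η ^ 2 := by
  have hS0 := sq_nonneg S
  have h1 : (η * w) ^ 2 ≤ η ^ 2 * (b ^ 2 / 4 * (S ^ 2 * (1 - S ^ 2))) := by
    rw [mul_pow]; exact mul_le_mul_of_nonneg_left hw (sq_nonneg _)
  have hb : 0 ≤ η ^ 2 * (b ^ 2 / 4) := by positivity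
  have h2 : S ^ 2 * (1 - S ^ 2) ≤ S ^ 2 := by nlinarith
  have h3 : S ^ 2 * (1 - S ^ 2) ≤ 1 - S ^ 2 := by nlinarith
  have h4 : |η * w| ≤ 2 * S ^ 2 + b ^ 2 / 32 * η ^ 2 := by
    apply abs_le_of_sq_le_sq
    · have h5 : η ^ 2 * (b ^ 2 / 4 * (S ^ 2 * (1 - S ^ 2))) ≤ η ^ 2 * (b ^ 2 / 4) * S ^ 2 := by
        rw [← mul_assoc]; exact mul_le_mul_of_nonneg_left h2 hb
      nlinarith [sq_nonneg (2 * S ^ 2 - b ^ 2 / 32 * η ^ 2)]
    · positivity
  have h6 : |η * w| ≤ 2 * (1 - S ^ 2) + b ^ 2 / 32 * η ^ 2 := by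
    apply abs_le_of_sq_le_sq
    · have h5 : η ^ 2 * (b ^ 2 / 4 * (S ^ 2 * (1 - S ^ 2))) ≤ η ^ 2 * (b ^ 2 / 4) * (1 - S ^ 2) := by
        rw [← mul_assoc]; exact mul_le_mul_of_nonneg_left h3 hb
      nlinarith [sq_nonneg (2 * (1 - S ^ 2) - b ^ 2 / 32 * η ^ 2)]
    · have : 0 ≤ 1 - S ^ 2 := by linarith
      positivity
  have h7 := abs_le.1 h4
  have h8 := abs_le.1 h6
  rw [abs_le]
  constructor
  · linarith [h8.2]
  · linarith [h7.1]

lemma core {α : ℝ} (h0 : 0 < α) (h1 : α < 1) (hs : IsE (1 / 2) 1 s)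
    (hmax : ∀ s' : ℂ → ℂ, IsE (1 / 2) 1 s' → J α s' ≤ J α s)
    {M C η0 : ℝ} {W : ℂ → ℂ} (hW : IsE 1 M W) (hC : 0 ≤ C) (hη0 : 0 < η0)
    (hb : ∀ η : ℝ, 0 < η → η ≤ η0 → ∀ x : ℝ,
      |1 - 2 * (s (x : ℂ)).re ^ 2 - η * (W (x : ℂ)).re| ≤ 1 + C * η ^ 2) : 0 ≤ Lf α W := by
  obtain ⟨hE1, hJ⟩ := J_eq h0 h1 hs
  have hI : bernsteinNorm α ≤ J α s := norm_le_of_J_le h0 h1 hmax
  have key : ∀ η : ℝ, 0 < η → η ≤ η0 → -(C * η * J α s) ≤ Lf α W := by
    intro η hη hη1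
    have hK : 0 < 1 + C * η ^ 2 := by positivity
    set F : ℂ → ℂ := fun z => (1 - 2 * s z ^ 2) + ((-η : ℝ) : ℂ) * W z with hF
    have hFE : IsE 1 (1 + |(-η)| * M) F := hE1.add (hW.const_mul (-η))
    have hFr : ∀ x : ℝ, ‖F (x : ℂ)‖ ≤ 1 + C * η ^ 2 := by
      intro x
      have hsx : s (x : ℂ) = (((s (x : ℂ)).re : ℝ) : ℂ) :=
        Complex.ext (by simp) (by simpa using hs.real x)
      have hWx : W (x : ℂ) = (((W (x : ℂ)).re : ℝ) : ℂ) :=
        Complex.ext (by simp) (by simpa using hW.real x)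
      have hval : F (x : ℂ) =
          ((1 - 2 * (s (x : ℂ)).re ^ 2 - η * (W (x : ℂ)).re : ℝ) : ℂ) := by
        rw [hF]
        show (1 - 2 * s (x : ℂ) ^ 2) + ((-η : ℝ) : ℂ) * W (x : ℂ) = _
        rw [hsx, hWx]; push_cast; simp [sub_eq_add_neg]
      rw [hval, Complex.norm_real, Real.norm_eq_abs]
      exact hb η hη hη1 x
    have hFB : IsB 1 (1 + C * η ^ 2) F := pl_bound zero_le_one hFE.b.diff hFE.b.bd hFr
    have hFE2 : IsE 1 (1 + C * η ^ 2) F := ⟨hFB, hFE.even, hFE.real⟩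
    set c : ℝ := (1 + C * η ^ 2)⁻¹ with hc
    have hc0 : 0 < c := inv_pos.2 hK
    have hE3 := hFE2.const_mul c
    have hc1 : |c| * (1 + C * η ^ 2) = 1 := by
      rw [abs_of_pos hc0, hc, inv_mul_cancel₀ hK.ne']
    rw [hc1] at hE3
    have h3 := Lf_le h0 h1 hE3
    rw [Lf_const_mul] at h3
    have hLF : Lf α F = J α s + (-η) * Lf α W := by
      rw [hF]
      rw [Lf_add (f := fun z => 1 - 2 * s z ^ 2) (g := fun z => ((-η : ℝ) : ℂ) * W z) h0 h1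
        (fun x => hE1.b.real_le x) (fun x => (hW.const_mul (-η)).b.real_le x), Lf_const_mul, hJ]
    rw [hLF] at h3
    have h4 : c * (J α s + (-η) * Lf α W) ≤ J α s := h3.trans hI
    have h5 : J α s + (-η) * Lf α W ≤ (1 + C * η ^ 2) * J α s := by
      have := mul_le_mul_of_nonneg_left h4 hK.le
      rwa [← mul_assoc, hc, mul_inv_cancel₀ hK.ne', one_mul] at this
    have h6 : η * (-(C * η * J α s)) ≤ η * Lf α W := by linarith
    exact le_of_mul_le_mul_left h6 hη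
  have hlim : Tendsto (fun η : ℝ => -(C * η * J α s)) (𝓝[>] 0) (𝓝 0) := by
    have : Tendsto (fun η : ℝ => -(C * η * J α s)) (𝓝 0) (𝓝 (-(C * 0 * J α s))) := by
      apply Continuous.tendsto
      fun_prop
    simp only [mul_zero, zero_mul, neg_zero] at this
    exact this.mono_left nhdsWithin_le_nhds
  refine le_of_tendsto hlim ?_
  filter_upwards [Ioc_mem_nhdsGT hη0] with η hη
  exact key η hη.1 hη.2

/-- from a bound near `c` to a bound on the real line -/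
lemma global (hs : IsE (1 / 2) 1 s) {c : ℝ} (hc : E s (c : ℂ) = 0) {M : ℝ}
    (hG : IsE 1 M (G s c)) {σ : ℝ} (hσ : σ ^ 2 = 1) {δ : ℝ} (hδ : 0 < δ) {η : ℝ}
    (hn : ∀ x : ℝ, |x - c| < δ →
      |1 - 2 * (s (x : ℂ)).re ^ 2 - η * (σ * (G s c (x : ℂ)).re)| ≤ 1) (x : ℝ) :
    |1 - 2 * (s (x : ℂ)).re ^ 2 - η * (σ * (G s c (x : ℂ)).re)| ≤
      1 + (1 / δ) ^ 2 / 32 * η ^ 2 := by
  have hpos : 0 ≤ (1 / δ) ^ 2 / 32 * η ^ 2 := by positivity
  rcases lt_or_ge |x - c| δ with h1 | h1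
  · exact (hn x h1).trans (by linarith)
  rcases lt_or_ge |x + c| δ with h2 | h2
  · have h3 : |(-x) - c| < δ := by
      rw [← abs_neg]; ring_nf; rw [add_comm] ; simpa [add_comm] using h2
    have h4 := hn (-x) h3
    have e1 : s (((-x : ℝ)) : ℂ) = s (x : ℂ) := by push_cast; exact hs.even _
    have e2 : G s c (((-x : ℝ)) : ℂ) = G s c (x : ℂ) := by push_cast; exact hG.even _
    rw [e1, e2] at h4
    exact h4.trans (by linarith)
  -- away from `± c`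
  set S := (s (x : ℂ)).re with hSdef
  set S1 := (deriv s (x : ℂ)).re with hS1def
  set g := (G s c (x : ℂ)).re with hgdef
  have hsx : s (x : ℂ) = ((S : ℝ) : ℂ) := Complex.ext (by simp [hSdef]) (by simpa using hs.real x)
  have hdx : deriv s (x : ℂ) = ((S1 : ℝ) : ℂ) :=
    Complex.ext (by simp [hS1def]) (by simpa using deriv_real hs.b.diff hs.real x)
  have hgx : G s c (x : ℂ) = ((g : ℝ) : ℂ) :=
    Complex.ext (by simp [hgdef]) (by simpa using hG.real x)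
  have hBS : 4 * S1 ^ 2 + S ^ 2 ≤ 1 := bern_szego hs.b hs.real x
  have hspec := G_spec hs hc (x : ℂ)
  unfold E at hspec
  rw [hsx, hdx, hgx] at hspec
  have hspec2 : (x ^ 2 - c ^ 2) * g = x * (S * S1) := by exact_mod_cast hspec
  have hprod : δ * |x| ≤ |x ^ 2 - c ^ 2| := by
    have e : x ^ 2 - c ^ 2 = (x - c) * (x + c) := by ring
    rw [e, abs_mul]
    have h5 : |x| ≤ |x - c| ∨ |x| ≤ |x + c| := by
      by_contra hcon
      push Not at hcon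
      have h6 : |2 * x| ≤ |x - c| + |x + c| := by
        have := abs_add_le (x - c) (x + c)
        calc |2 * x| = |(x - c) + (x + c)| := by ring_nf
          _ ≤ _ := this
      rw [abs_mul, abs_two] at h6
      linarith [hcon.1, hcon.2]
    rcases h5 with h5 | h5
    · calc δ * |x| ≤ |x + c| * |x - c| := mul_le_mul h2 h5 (abs_nonneg _) (abs_nonneg _)
        _ = _ := mul_comm _ _
    · exact mul_le_mul h1 h5 (abs_nonneg _) (abs_nonneg _)
  have hne : 0 < (x ^ 2 - c ^ 2) ^ 2 := by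
    have e : x ^ 2 - c ^ 2 = (x - c) * (x + c) := by ring
    have h5 : 0 < |x - c| := hδ.trans_le h1
    have h6 : 0 < |x + c| := hδ.trans_le h2
    rw [← sq_abs, e, abs_mul]
    positivity
  have hprod2 : δ ^ 2 * x ^ 2 ≤ (x ^ 2 - c ^ 2) ^ 2 := by
    have := pow_le_pow_left₀ (by positivity) hprod 2
    rwa [mul_pow, sq_abs, sq_abs] at this
  have hg2 : g ^ 2 ≤ (1 / δ) ^ 2 * (S ^ 2 * S1 ^ 2) := by
    have h5 : (x ^ 2 - c ^ 2) ^ 2 * g ^ 2 = x ^ 2 * (S ^ 2 * S1 ^ 2) := by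
      have h51 : ((x ^ 2 - c ^ 2) * g) ^ 2 = (x * (S * S1)) ^ 2 := by rw [hspec2]
      linear_combination h51
    have h6 : x ^ 2 ≤ (1 / δ) ^ 2 * (x ^ 2 - c ^ 2) ^ 2 := by
      have h7 : x ^ 2 = (1 / δ) ^ 2 * (δ ^ 2 * x ^ 2) := by field_simp
      rw [h7]
      exact mul_le_mul_of_nonneg_left (by rw [← h7]; exact hprod2) (by positivity)
    have h8 : (x ^ 2 - c ^ 2) ^ 2 * g ^ 2 ≤
        (x ^ 2 - c ^ 2) ^ 2 * ((1 / δ) ^ 2 * (S ^ 2 * S1 ^ 2)) := by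
      rw [h5]
      calc x ^ 2 * (S ^ 2 * S1 ^ 2) ≤ (1 / δ) ^ 2 * (x ^ 2 - c ^ 2) ^ 2 * (S ^ 2 * S1 ^ 2) :=
            mul_le_mul_of_nonneg_right h6 (by positivity)
        _ = _ := by ring
    exact le_of_mul_le_mul_left h8 hne
  refine away (b := 1 / δ) (by nlinarith [sq_nonneg S1]) ?_
  rw [mul_pow, hσ, one_mul]
  refine hg2.trans ?_
  have h9 : S ^ 2 * S1 ^ 2 ≤ S ^ 2 * ((1 - S ^ 2) / 4) :=
    mul_le_mul_of_nonneg_left (by linarith) (sq_nonneg _)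
  calc (1 / δ) ^ 2 * (S ^ 2 * S1 ^ 2) ≤ (1 / δ) ^ 2 * (S ^ 2 * ((1 - S ^ 2) / 4)) :=
        mul_le_mul_of_nonneg_left h9 (by positivity)
    _ = _ := by ring

/-- the local condition suffices -/
lemma of_near {α : ℝ} (h0 : 0 < α) (h1 : α < 1) (hs : IsE (1 / 2) 1 s)
    (hmax : ∀ s' : ℂ → ℂ, IsE (1 / 2) 1 s' → J α s' ≤ J α s)
    {c : ℝ} (hc : E s (c : ℂ) = 0) {σ : ℝ} (hσ : σ ^ 2 = 1) {δ η0 : ℝ} (hδ : 0 < δ)
    (hη0 : 0 < η0)
    (hn : ∀ η : ℝ, 0 < η → η ≤ η0 → ∀ x : ℝ, |x - c| < δ →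
      |1 - 2 * (s (x : ℂ)).re ^ 2 - η * (σ * (G s c (x : ℂ)).re)| ≤ 1) :
    0 ≤ σ * Lf α (G s c) := by
  obtain ⟨M, hM, hG⟩ := G_isE hs
  have hGc := hG c hc
  rw [← Lf_const_mul]
  refine core h0 h1 hs hmax (hGc.const_mul σ) (C := (1 / δ) ^ 2 / 32) (by positivity) hη0 ?_
  intro η hη hη1 x
  have h2 := global hs hc hGc hσ hδ (hn η hη hη1) x
  rwa [Complex.re_ofReal_mul]

lemma cont_re {F : ℂ → ℂ} (hF : Differentiable ℂ F) : Continuous fun x : ℝ => (F (x : ℂ)).re :=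
  Complex.continuous_re.comp (hF.continuous.comp Complex.continuous_ofReal)

/-- local condition, inner case -/
lemma near_gap (hs : IsE (1 / 2) 1 s) {c : ℝ} (hc : E s (c : ℂ) = 0)
    (hl : 0 < (s (c : ℂ)).re ^ 2) (hu : (s (c : ℂ)).re ^ 2 < 1) :
    ∃ δ : ℝ, 0 < δ ∧ ∃ η0 : ℝ, 0 < η0 ∧ ∀ σ : ℝ, σ ^ 2 = 1 →
      ∀ η : ℝ, 0 < η → η ≤ η0 → ∀ x : ℝ, |x - c| < δ →
      |1 - 2 * (s (x : ℂ)).re ^ 2 - η * (σ * (G s c (x : ℂ)).re)| ≤ 1 := by
  obtain ⟨M, hM, hG⟩ := G_isE hs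
  have hGc := hG c hc
  have hcont : Continuous fun x : ℝ => (s (x : ℂ)).re ^ 2 := (cont_re hs.b.diff).pow 2
  obtain ⟨l, hl1, hl2⟩ := exists_between hl
  obtain ⟨u, hu1, hu2⟩ := exists_between hu
  have h1 : ∀ᶠ x in 𝓝 c, (s ((x : ℝ) : ℂ)).re ^ 2 ∈ Ioo l u :=
    hcont.continuousAt.eventually (Ioo_mem_nhds hl2 hu1)
  obtain ⟨δ, hδ, h2⟩ := Metric.eventually_nhds_iff.1 h1
  refine ⟨δ, hδ, min (2 * l) (2 * (1 - u)) / M, by
    have : 0 < min (2 * l) (2 * (1 - u)) := lt_min (by linarith) (by linarith)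
    positivity, ?_⟩
  intro σ hσ η hη hη1 x hx
  have h3 := h2 (by rwa [Real.dist_eq])
  have h4 : |η * (σ * (G s c (x : ℂ)).re)| ≤ min (2 * l) (2 * (1 - u)) := by
    have hσ1 : |σ| = 1 := by
      have := sq_abs σ
      rw [hσ] at this
      nlinarith [abs_nonneg σ]
    rw [abs_mul, abs_mul, hσ1, one_mul, abs_of_pos hη]
    calc η * |(G s c (x : ℂ)).re| ≤ min (2 * l) (2 * (1 - u)) / M * M :=
          mul_le_mul hη1 ((Complex.abs_re_le_norm _).trans (hGc.b.real_le x)) (abs_nonneg _)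
            (hη.le.trans hη1)
      _ = _ := by field_simp
  have h5 := abs_le.1 (h4.trans (min_le_left _ _))
  have h6 := abs_le.1 (h4.trans (min_le_right _ _))
  rw [abs_le]
  constructor
  · linarith [h3.2, h6.2]
  · linarith [h3.1, h5.1]

/-- local condition at a zero -/
lemma near_zero (hs : IsE (1 / 2) 1 s) {c : ℝ} (hc : E s (c : ℂ) = 0)
    (hz : (s (c : ℂ)).re = 0) (hg : 0 < (G s c (c : ℂ)).re) :
    ∃ δ : ℝ, 0 < δ ∧ ∃ η0 : ℝ, 0 < η0 ∧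
      ∀ η : ℝ, 0 < η → η ≤ η0 → ∀ x : ℝ, |x - c| < δ →
      |1 - 2 * (s (x : ℂ)).re ^ 2 - η * (1 * (G s c (x : ℂ)).re)| ≤ 1 := by
  obtain ⟨M, hM, hG⟩ := G_isE hs
  have hGc := hG c hc
  have hcont : Continuous fun x : ℝ => (s (x : ℂ)).re ^ 2 := (cont_re hs.b.diff).pow 2
  have h1 : ∀ᶠ x in 𝓝 c, (s ((x : ℝ) : ℂ)).re ^ 2 < 1 / 2 :=
    hcont.continuousAt.eventually (gt_mem_nhds (by simp only [hz]; norm_num))
  have h1' : ∀ᶠ x in 𝓝 c, 0 < (G s c ((x : ℝ) : ℂ)).re :=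
    (cont_re hGc.b.diff).continuousAt.eventually (lt_mem_nhds hg)
  obtain ⟨δ, hδ, h2⟩ := Metric.eventually_nhds_iff.1 (h1.and h1')
  refine ⟨δ, hδ, 1 / M, by positivity, ?_⟩
  intro η hη hη1 x hx
  obtain ⟨h3, h4⟩ := h2 (by rwa [Real.dist_eq])
  rw [one_mul]
  have h5 : η * (G s c (x : ℂ)).re ≤ 1 := by
    calc η * (G s c (x : ℂ)).re ≤ 1 / M * M :=
          mul_le_mul hη1 ((le_abs_self _).trans
            ((Complex.abs_re_le_norm _).trans (hGc.b.real_le x))) h4.le (by positivity)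
      _ = 1 := by field_simp
  have h6 : 0 < η * (G s c (x : ℂ)).re := mul_pos hη h4
  rw [abs_le]
  constructor <;> nlinarith [sq_nonneg (s (x : ℂ)).re]

/-- local condition at an extreme point -/
lemma near_ext (hs : IsE (1 / 2) 1 s) {c : ℝ} (hc : E s (c : ℂ) = 0)
    (hz : (s (c : ℂ)).re ^ 2 = 1) (hg : (G s c (c : ℂ)).re < 0) :
    ∃ δ : ℝ, 0 < δ ∧ ∃ η0 : ℝ, 0 < η0 ∧
      ∀ η : ℝ, 0 < η → η ≤ η0 → ∀ x : ℝ, |x - c| < δ →
      |1 - 2 * (s (x : ℂ)).re ^ 2 - η * (1 * (G s c (x : ℂ)).re)| ≤ 1 := by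
  obtain ⟨M, hM, hG⟩ := G_isE hs
  have hGc := hG c hc
  have hcont : Continuous fun x : ℝ => (s (x : ℂ)).re ^ 2 := (cont_re hs.b.diff).pow 2
  have h1 : ∀ᶠ x in 𝓝 c, 1 / 2 < (s ((x : ℝ) : ℂ)).re ^ 2 :=
    hcont.continuousAt.eventually (lt_mem_nhds (by simp only [hz]; norm_num))
  have h1' : ∀ᶠ x in 𝓝 c, (G s c ((x : ℝ) : ℂ)).re < 0 :=
    (cont_re hGc.b.diff).continuousAt.eventually (gt_mem_nhds hg)
  obtain ⟨δ, hδ, h2⟩ := Metric.eventually_nhds_iff.1 (h1.and h1')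
  refine ⟨δ, hδ, 1 / M, by positivity, ?_⟩
  intro η hη hη1 x hx
  obtain ⟨h3, h4⟩ := h2 (by rwa [Real.dist_eq])
  rw [one_mul]
  have hS1 : (s (x : ℂ)).re ^ 2 ≤ 1 := by
    have := pow_le_pow_left₀ (abs_nonneg _) ((Complex.abs_re_le_norm _).trans (hs.b.real_le x)) 2
    rwa [sq_abs, one_pow] at this
  have h5 : η * (-(G s c (x : ℂ)).re) ≤ 1 := by
    calc η * (-(G s c (x : ℂ)).re) ≤ 1 / M * M :=
          mul_le_mul hη1 ((neg_le_abs _).trans
            ((Complex.abs_re_le_norm _).trans (hGc.b.real_le x))) (by linarith) (by positivity)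
      _ = 1 := by field_simp
  have h6 : 0 < η * (-(G s c (x : ℂ)).re) := mul_pos hη (by linarith)
  rw [abs_le]
  constructor <;> linarith

lemma deriv_E (hs : IsE (1 / 2) 1 s) (z : ℂ) :
    deriv (E s) z = deriv s z * deriv s z + s z * deriv (deriv s) z := by
  have h1 := (hs.b.diff z).hasDerivAt.mul (differentiable_deriv hs z).hasDerivAt
  exact h1.deriv

/-- at an extreme point `s s'' ≤ 0` -/
lemma second_nonpos (hs : IsE (1 / 2) 1 s) {c : ℝ} (hd : deriv s (c : ℂ) = 0)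
    (hz : (s (c : ℂ)).re ^ 2 = 1) : (s (c : ℂ)).re * (deriv (deriv s) (c : ℂ)).re ≤ 0 := by
  by_contra hcon
  push Not at hcon
  set φ : ℝ → ℝ := fun x => (s (x : ℂ)).re ^ 2 with hφ
  have d0 : ∀ x : ℝ, HasDerivAt (fun x : ℝ => (s (x : ℂ)).re) (deriv s (x : ℂ)).re x :=
    fun x => (hs.b.diff (x : ℂ)).hasDerivAt.real_of_complex
  have d1 : ∀ x : ℝ, HasDerivAt (fun x : ℝ => (deriv s (x : ℂ)).re)
      (deriv (deriv s) (x : ℂ)).re x :=
    fun x => (differentiable_deriv hs (x : ℂ)).hasDerivAt.real_of_complex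
  have e1 : deriv φ = fun x : ℝ => 2 * ((s (x : ℂ)).re * (deriv s (x : ℂ)).re) := by
    funext x
    have := ((d0 x).pow 2).deriv
    rw [hφ]
    refine this.trans ?_
    push_cast
    ring
  have e2 : deriv (deriv φ) c = 2 * ((deriv s (c : ℂ)).re * (deriv s (c : ℂ)).re +
      (s (c : ℂ)).re * (deriv (deriv s) (c : ℂ)).re) := by
    rw [e1]
    exact (((d0 c).mul (d1 c)).const_mul 2).deriv
  have hpos : 0 < deriv (deriv φ) c := by
    rw [e2, hd]; simpa using hcon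
  have hz0 : deriv φ c = 0 := by rw [e1]; simp [hd]
  have hcontφ : Continuous φ := (cont_re hs.b.diff).pow 2
  have hmin : IsLocalMin φ c := isLocalMin_of_deriv_deriv_pos hpos hz0 hcontφ.continuousAt
  have hle : ∀ x : ℝ, φ x ≤ φ c := by
    intro x
    have := pow_le_pow_left₀ (abs_nonneg _) ((Complex.abs_re_le_norm _).trans (hs.b.real_le x)) 2
    rw [sq_abs, one_pow] at this
    show (s (x : ℂ)).re ^ 2 ≤ (s (c : ℂ)).re ^ 2
    rw [hz]; exact this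
  have heq : φ =ᶠ[𝓝 c] fun _ => φ c := by
    filter_upwards [hmin] with x hx
    exact le_antisymm (hle x) hx
  have h3 : deriv (deriv φ) c = 0 := by
    have h4 : deriv φ =ᶠ[𝓝 c] deriv (fun _ : ℝ => φ c) := heq.deriv
    rw [h4.deriv_eq]
    simp
  exact hpos.ne' h3

end Necess

open Necess

theorem gap_necessary {α : ℝ} (h0 : 0 < α) (h1 : α < 1) (hs : IsE (1 / 2) 1 s)
    (hmax : ∀ s' : ℂ → ℂ, IsE (1 / 2) 1 s' → J α s' ≤ J α s) (hne : ∃ z, s z ≠ 0)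
    {c : ℝ} (hc : deriv s (c : ℂ) = 0) (h1c : ‖s (c : ℂ)‖ < 1) : Lf α (G s c) = 0 := by
  have hEc : E s (c : ℂ) = 0 := by unfold E; rw [hc, mul_zero]
  obtain ⟨-, hz⟩ := zeros h0 h1 hs hmax hne
  have hsc : s (c : ℂ) = (((s (c : ℂ)).re : ℝ) : ℂ) :=
    Complex.ext (by simp) (by simpa using hs.real c)
  have hl : 0 < (s (c : ℂ)).re ^ 2 := by
    have h2 : s (c : ℂ) ≠ 0 := fun h => (hz _ h).2 hc
    have h3 : (s (c : ℂ)).re ≠ 0 := fun h => h2 (by rw [hsc, h, Complex.ofReal_zero])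
    positivity
  have hu : (s (c : ℂ)).re ^ 2 < 1 := by
    have h4 : |(s (c : ℂ)).re| < 1 := (Complex.abs_re_le_norm _).trans_lt h1c
    exact (sq_lt_one_iff_abs_lt_one _).2 h4
  obtain ⟨δ, hδ, η0, hη0, hn⟩ := near_gap hs hEc hl hu
  have a1 := of_near h0 h1 hs hmax hEc (σ := 1) (by norm_num) hδ hη0 (hn 1 (by norm_num))
  have a2 := of_near h0 h1 hs hmax hEc (σ := -1) (by norm_num) hδ hη0 (hn (-1) (by norm_num))
  linarith

theorem sign_necessary {α : ℝ} (h0 : 0 < α) (h1 : α < 1) (hs : IsE (1 / 2) 1 s)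
    (hmax : ∀ s' : ℂ → ℂ, IsE (1 / 2) 1 s' → J α s' ≤ J α s) (hne : ∃ z, s z ≠ 0)
    (hcr : ∀ z : ℂ, deriv s z = 0 → z.im = 0 ∧ deriv (deriv s) z ≠ 0)
    {c : ℝ} (hc : E s (c : ℂ) = 0) : 0 ≤ Lf α (G s c) := by
  obtain ⟨hs0, hz⟩ := zeros h0 h1 hs hmax hne
  have hsc : s (c : ℂ) = (((s (c : ℂ)).re : ℝ) : ℂ) :=
    Complex.ext (by simp) (by simpa using hs.real c)
  have hdc : deriv s (c : ℂ) = (((deriv s (c : ℂ)).re : ℝ) : ℂ) :=
    Complex.ext (by simp) (by simpa using deriv_real hs.b.diff hs.real c)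
  rcases mul_eq_zero.1 hc with hsz | hd
  · -- zero of `s`
    have hc0 : c ≠ 0 := by
      intro h; rw [h, Complex.ofReal_zero] at hsz; exact hs0 hsz
    have hd0 : (deriv s (c : ℂ)).re ≠ 0 := fun h => (hz _ hsz).2 (by
      rw [hdc, h, Complex.ofReal_zero])
    have hg : 0 < (G s c (c : ℂ)).re := by
      rw [G_self hs hc hc0, deriv_E hs, hsz, zero_mul, add_zero, hdc]
      have : ((((deriv s (c : ℂ)).re : ℝ) : ℂ) * (((deriv s (c : ℂ)).re : ℝ) : ℂ) / 2) =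
          (((deriv s (c : ℂ)).re * (deriv s (c : ℂ)).re / 2 : ℝ) : ℂ) := by push_cast; ring
      rw [this, Complex.ofReal_re]
      exact div_pos (mul_self_pos.2 hd0) two_pos
    obtain ⟨δ, hδ, η0, hη0, hn⟩ := near_zero hs hc (by rw [hsz]; simp) hg
    have a1 := of_near h0 h1 hs hmax hc (σ := 1) (by norm_num) hδ hη0 hn
    linarith
  · rcases (hs.b.real_le c).lt_or_eq with hlt | heq
    · rw [gap_necessary h0 h1 hs hmax hne hd hlt]
    · have hS1 : (s (c : ℂ)).re ^ 2 = 1 := by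
        rw [hsc, Complex.norm_real, Real.norm_eq_abs] at heq
        rw [← sq_abs, heq, one_pow]
      have hle := second_nonpos hs hd hS1
      have hd2 : (deriv (deriv s) (c : ℂ)).re ≠ 0 := by
        intro h
        refine (hcr _ hd).2 (Complex.ext (by simpa using h) ?_)
        simpa using deriv_real (differentiable_deriv hs)
          (deriv_real hs.b.diff hs.real) c
      have hSne : (s (c : ℂ)).re ≠ 0 := by
        intro h; rw [h] at hS1; norm_num at hS1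
      have hlt : (s (c : ℂ)).re * (deriv (deriv s) (c : ℂ)).re < 0 :=
        lt_of_le_of_ne hle (mul_ne_zero hSne hd2)
      have hre : (deriv (E s) (c : ℂ)).re = (s (c : ℂ)).re * (deriv (deriv s) (c : ℂ)).re := by
        rw [deriv_E hs, hd, mul_zero, zero_add, Complex.mul_re, hs.real c, zero_mul, sub_zero]
      have hg : (G s c (c : ℂ)).re < 0 := by
        rcases eq_or_ne c 0 with h2 | h2
        · subst h2
          have := G_self_zero hs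
          rw [Complex.ofReal_zero] at hre hlt ⊢
          rw [this, hre]
          exact hlt
        · rw [G_self hs hc h2, Complex.div_ofNat_re, hre]
          linarith
      obtain ⟨δ, hδ, η0, hη0, hn⟩ := near_ext hs hc hS1 hg
      have a1 := of_near h0 h1 hs hmax hc (σ := 1) (by norm_num) hδ hη0 hn
      linarith

end Helper22.SC
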