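import Pool.Agent.Helper22.SC.Squares
import Pool.Agent.Helper22.SC.Nodes
import Pool.Agent.Helper22.SC.Gc

/-!
[SC-Point] Interpolation at the nodes for functions with decay.
`N` from `squares`; decay exponent `N₀ = N + 3`. For `r` a square radius let
`S_r z = ∑_{nodes c, |c| < r} g(c)/E'(c) G_c(z)`. `g - S_r` vanishes at the nodes in the square (`G_self`, `G_other`,
`G_neg`: the nodes `± c` give `2 * g(c)/E'(c) * E'(c)/2 = g(c)`; `c = 0`: `G_self_zero`), all zeros of `E` are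
real and simple, so `h_r = (g - S_r)/E` is analytic in the square (finite product division, or local
argument), and on its boundary `‖g/E‖ ≤ C r^{N - N₀}` and
`‖S_r/E‖ ≤ ∑ |g(c)/E'(c)| ‖z/(z² - c²)‖ ≤ C ∑_c (1+|c|)^{-N₀} (1/‖z-c‖ + 1/‖z+c‖) → 0`
(`|c| ≤ r/2`: `≤ 4/r`; `r/2 < |c| < r`: distance `≥ c₀/r^N`). Maximum principle: `g - S_r = E h_r → 0` pointwise;
`∑_c |g(c)/E'(c)| ‖G_c(y)‖ < ∞` identifies the limit with the sum.
-/

set_option autoImplicit false

namespace Helper22.SC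

open Complex MeasureTheory Set Filter Topology Polynomial
open Pool.Agent.Helper30.FG Pool.Agent.Helper78.Bern Pool.Agent.Helper45.Bern

variable {s : ℂ → ℂ} {P Q : ℝ[X]}

namespace Point

/-- division of an entire function by the linear factors at finitely many of its zeros -/
theorem div_prod (Z : Finset ℂ) : ∀ f : ℂ → ℂ, Differentiable ℂ f → (∀ c ∈ Z, f c = 0) →
    ∃ f₁ : ℂ → ℂ, Differentiable ℂ f₁ ∧ ∀ z, f z = (∏ c ∈ Z, (z - c)) * f₁ z := by
  classical
  induction Z using Finset.induction_on with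
  | empty =>
    intro f hf _
    exact ⟨f, hf, fun z => by simp⟩
  | insert a Z ha ih =>
    intro f hf hz
    have h1 : ∀ z, f z = (z - a) * dslope f a z := by
      intro z
      have h2 := sub_smul_dslope f a z
      rw [smul_eq_mul, hz a (Finset.mem_insert_self a Z), sub_zero] at h2
      exact h2.symm
    have h3 : Differentiable ℂ (dslope f a) := PA.differentiable_dslope hf a
    obtain ⟨f₁, hf₁, h4⟩ := ih (dslope f a) h3 (by
      intro c hc
      have h5 := h1 c
      rw [hz c (Finset.mem_insert_of_mem hc)] at h5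
      have h6 : c - a ≠ 0 := by
        intro h7
        rw [sub_eq_zero.1 h7] at hc
        exact ha hc
      exact (mul_eq_zero.1 h5.symm).resolve_left h6)
    refine ⟨f₁, hf₁, fun z => ?_⟩
    rw [h1, h4, Finset.prod_insert ha, mul_assoc]

/-- the open square -/
def Sq (r : ℝ) : Set ℂ := {z | |z.re| < r ∧ |z.im| < r}

theorem isOpen_Sq (r : ℝ) : IsOpen (Sq r) :=
  (isOpen_lt (continuous_abs.comp continuous_re) continuous_const).inter
    (isOpen_lt (continuous_abs.comp continuous_im) continuous_const)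

theorem closure_Sq {r : ℝ} {z : ℂ} (hz : z ∈ closure (Sq r)) : |z.re| ≤ r ∧ |z.im| ≤ r := by
  have h1 : IsClosed {z : ℂ | |z.re| ≤ r ∧ |z.im| ≤ r} :=
    (isClosed_le (continuous_abs.comp continuous_re) continuous_const).inter
      (isClosed_le (continuous_abs.comp continuous_im) continuous_const)
  have h2 : closure (Sq r) ⊆ {z : ℂ | |z.re| ≤ r ∧ |z.im| ≤ r} :=
    h1.closure_subset_iff.2 fun z hz => ⟨hz.1.le, hz.2.le⟩
  exact h2 hz

theorem frontier_Sq {r : ℝ} {z : ℂ} (hz : z ∈ frontier (Sq r)) :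
    (|z.re| = r ∧ |z.im| ≤ r) ∨ (|z.re| ≤ r ∧ |z.im| = r) := by
  rw [frontier, (isOpen_Sq r).interior_eq] at hz
  obtain ⟨h1, h2⟩ := closure_Sq hz.1
  rcases h1.lt_or_eq with h3 | h3
  · rcases h2.lt_or_eq with h4 | h4
    · exact absurd ⟨h3, h4⟩ hz.2
    · exact Or.inr ⟨h1, h4⟩
  · exact Or.inl ⟨h3, h2⟩

theorem bounded_Sq (r : ℝ) : Bornology.IsBounded (Sq r) := by
  refine (Metric.isBounded_closedBall (x := (0 : ℂ)) (r := r + r)).subset fun z hz => ?_
  rw [mem_closedBall_zero_iff]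
  exact (norm_le_abs_re_add_abs_im z).trans (add_le_add hz.1.le hz.2.le)

theorem norm_ge_of_boundary {r : ℝ} {z : ℂ}
    (hz : (|z.re| = r ∧ |z.im| ≤ r) ∨ (|z.re| ≤ r ∧ |z.im| = r)) : r ≤ ‖z‖ := by
  rcases hz with h | h
  · rw [← h.1]; exact abs_re_le_norm z
  · rw [← h.2]; exact abs_im_le_norm z

/-- distance of a boundary point to a real point in the inner half -/
theorem dist_ge_half {r x : ℝ} {z : ℂ}
    (hz : (|z.re| = r ∧ |z.im| ≤ r) ∨ (|z.re| ≤ r ∧ |z.im| = r)) (hx : |x| ≤ r / 2) :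
    r / 2 ≤ ‖z - x‖ := by
  have hr : 0 ≤ r := by
    have := abs_nonneg x
    linarith
  rcases hz with h | h
  · have h1 : |(z - x).re| ≤ ‖z - x‖ := abs_re_le_norm _
    rw [sub_re, ofReal_re] at h1
    have h2 : |z.re| - |x| ≤ |z.re - x| := abs_sub_abs_le_abs_sub _ _
    rw [h.1] at h2
    linarith
  · have h1 : |(z - x).im| ≤ ‖z - x‖ := abs_im_le_norm _
    rw [sub_im, ofReal_im, sub_zero, h.2] at h1
    linarith

/-- all zeros of `E` are real -/
theorem E_zero_real (h : PellData s P Q) {z : ℂ} (hz : E s z = 0) : z = ((z.re : ℝ) : ℂ) := by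
  have h1 : z.im = 0 := by
    rcases mul_eq_zero.1 hz with h2 | h2
    · exact (h.zr z h2).1
    · exact (h.cr z h2).1
  exact Complex.ext (by simp) (by simp [h1])

theorem E_deriv_ne (h : PellData s P Q) {x : ℝ} (hx : E s (x : ℂ) = 0) :
    deriv (E s) (x : ℂ) ≠ 0 := by
  obtain ⟨c, hc, h1⟩ := Eprime_lower h
  intro h2
  have h3 := h1 x hx
  rw [h2, zero_re, abs_zero] at h3
  linarith

theorem E_deriv_neg (h : PellData s P Q) (z : ℂ) : deriv (E s) (-z) = deriv (E s) z := by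
  have h2 : (fun w => E s (-w)) = fun w => - E s w := funext (E_odd h.hs)
  have h3 : deriv (fun w => E s (-w)) z = - deriv (E s) (-z) := deriv_comp_neg (E s) z
  rw [h2, deriv.fun_neg] at h3
  exact (neg_injective h3).symm

/-- the coefficient of a node -/
noncomputable def co (s g : ℂ → ℂ) (x : ℝ) : ℝ := (g (x : ℂ)).re / (deriv (E s) (x : ℂ)).re

theorem co_mul (h : PellData s P Q) {g : ℂ → ℂ} (hg : ∀ x : ℝ, (g (x : ℂ)).im = 0) {x : ℝ}
    (hx : E s (x : ℂ) = 0) : (co s g x : ℂ) * deriv (E s) (x : ℂ) = g (x : ℂ) := by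
  have h1 : deriv (E s) (x : ℂ) = (((deriv (E s) (x : ℂ)).re : ℝ) : ℂ) :=
    Complex.ext (by simp) (by simp [Eprime_real h x])
  have h2 : g (x : ℂ) = (((g (x : ℂ)).re : ℝ) : ℂ) :=
    Complex.ext (by simp) (by simp [hg x])
  have h3 : (deriv (E s) (x : ℂ)).re ≠ 0 := by
    intro h4
    rw [h4, ofReal_zero] at h1
    exact E_deriv_ne h hx h1
  rw [h1, h2, ← ofReal_mul]
  congr 1
  rw [co]
  exact div_mul_cancel₀ _ h3

theorem co_neg (h : PellData s P Q) {g : ℂ → ℂ} (hg : ∀ z : ℂ, g (-z) = g z) (x : ℝ) :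
    co s g (-x) = co s g x := by
  rw [co, co, ofReal_neg, hg, E_deriv_neg h]

/-- the node at `-x` -/
def neg (h : PellData s P Q) (x : Node s) : Node s :=
  ⟨-x.1, by rw [ofReal_neg, E_odd h.hs, x.2, neg_zero]⟩

/-- the finite sum takes the values of `g` at its nodes -/
theorem sum_node (h : PellData s P Q) {g : ℂ → ℂ} (hg : ∀ x : ℝ, (g (x : ℂ)).im = 0)
    (he : ∀ z : ℂ, g (-z) = g z) (A : Finset (Node s)) (x : Node s) (hx : x ∈ A)
    (hx' : neg h x ∈ A) :
    ∑ c ∈ A, (co s g c.1 : ℂ) * G s c.1 (x.1 : ℂ) = g (x.1 : ℂ) := by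
  by_cases h0 : x.1 = 0
  · have h1 : ∀ c ∈ A, c ≠ x → (co s g c.1 : ℂ) * G s c.1 (x.1 : ℂ) = 0 := by
      intro c _ hc
      have hc0 : x.1 ≠ c.1 := fun h2 => hc (Subtype.ext h2.symm)
      rw [G_other h.hs c.2 x.2 hc0 (by
        intro h2
        rw [h0] at h2 hc0
        exact hc0 (by linarith)), mul_zero]
    rw [Finset.sum_eq_single_of_mem x hx h1, ← co_mul h hg x.2]
    congr 1
    rw [h0, ofReal_zero, G_self_zero h.hs]
  · have hne : x ≠ neg h x := by
      intro h2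
      have h3 : x.1 = -x.1 := congrArg Subtype.val h2
      exact h0 (by linarith)
    have h1 : ∀ c ∈ A, c ≠ x ∧ c ≠ neg h x → (co s g c.1 : ℂ) * G s c.1 (x.1 : ℂ) = 0 := by
      intro c _ hc
      rw [G_other h.hs c.2 x.2 (fun h2 => hc.1 (Subtype.ext h2.symm)) (by
        intro h2
        refine hc.2 (Subtype.ext ?_)
        show c.1 = -x.1
        linarith), mul_zero]
    rw [Finset.sum_eq_add_of_mem x (neg h x) hx hx' hne h1]
    have h2 : G s (neg h x).1 (x.1 : ℂ) = G s x.1 (x.1 : ℂ) := G_neg h.hs x.2 _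
    have h3 : co s g (neg h x).1 = co s g x.1 := co_neg h he x.1
    rw [h2, h3, G_self h.hs x.2 h0]
    linear_combination co_mul h hg x.2

/-- the main estimate -/
theorem main_bound (h : PellData s P Q) {g : ℂ → ℂ} {M : ℝ} (hg : IsE 1 M g) {r B : ℝ}
    (A : Finset (Node s)) (hA : ∀ x : Node s, x ∈ A ↔ |x.1| < r)
    (hE : ∀ z : ℂ, ((|z.re| = r ∧ |z.im| ≤ r) ∨ (|z.re| ≤ r ∧ |z.im| = r)) → E s z ≠ 0)
    (hB : ∀ z : ℂ, ((|z.re| = r ∧ |z.im| ≤ r) ∨ (|z.re| ≤ r ∧ |z.im| = r)) →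
      ‖g z - ∑ c ∈ A, (co s g c.1 : ℂ) * G s c.1 z‖ ≤ B * ‖E s z‖) {y : ℝ} (hy : |y| < r) :
    ‖g y - ∑ c ∈ A, (co s g c.1 : ℂ) * G s c.1 y‖ ≤ B * ‖E s y‖ := by
  classical
  have hr : 0 < r := lt_of_le_of_lt (abs_nonneg y) hy
  set D : ℂ → ℂ := fun z => g z - ∑ c ∈ A, (co s g c.1 : ℂ) * G s c.1 z with hD
  have hDd : Differentiable ℂ D := by
    refine hg.b.diff.sub ?_
    refine Differentiable.fun_sum fun c _ => ?_
    exact (differentiable_G h.hs c.1).const_mul _
  set Z : Finset ℂ := A.image (fun x => ((x.1 : ℝ) : ℂ)) with hZ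
  have hZE : ∀ c ∈ Z, E s c = 0 := by
    intro c hc
    obtain ⟨x, _, rfl⟩ := Finset.mem_image.1 hc
    exact x.2
  have hZD : ∀ c ∈ Z, D c = 0 := by
    intro c hc
    obtain ⟨x, hx, rfl⟩ := Finset.mem_image.1 hc
    have h1 : neg h x ∈ A := by
      rw [hA]
      show |-x.1| < r
      rw [abs_neg]
      exact (hA x).1 hx
    show g (x.1 : ℂ) - ∑ c ∈ A, (co s g c.1 : ℂ) * G s c.1 (x.1 : ℂ) = 0
    rw [sum_node h hg.real hg.even A x hx h1, sub_self]
  obtain ⟨D₁, hD₁, hDe⟩ := div_prod Z D hDd hZD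
  obtain ⟨E₁, hE₁, hEe⟩ := div_prod Z (E s) (differentiable_E h.hs) hZE
  -- `E₁` has no zero in the closed square
  have hne : ∀ z ∈ closure (Sq r), E₁ z ≠ 0 := by
    intro z hz h1
    have h2 : E s z = 0 := by rw [hEe, h1, mul_zero]
    obtain ⟨h3, h4⟩ := closure_Sq hz
    have h5 := E_zero_real h h2
    have h6 : |z.re| < r := by
      rcases h3.lt_or_eq with h7 | h7
      · exact h7
      · exact absurd h2 (hE z (Or.inl ⟨h7, h4⟩))
    have h7 : E s ((z.re : ℝ) : ℂ) = 0 := by rw [← h5]; exact h2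
    have h8 : z ∈ Z := by
      rw [hZ, Finset.mem_image]
      exact ⟨⟨z.re, h7⟩, (hA _).2 h6, h5.symm⟩
    have h9 : HasDerivAt (fun w => (∏ c ∈ Z, (w - c)) * E₁ w)
        (deriv (fun w => ∏ c ∈ Z, (w - c)) z * E₁ z + (∏ c ∈ Z, (z - c)) * deriv E₁ z) z := by
      refine HasDerivAt.mul ?_ (hE₁ z).hasDerivAt
      refine DifferentiableAt.hasDerivAt ?_
      refine DifferentiableAt.fun_finsetProd fun c _ => ?_
      exact differentiableAt_id.sub (differentiableAt_const c)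
    have h10 : ∏ c ∈ Z, (z - c) = 0 := Finset.prod_eq_zero h8 (sub_self z)
    rw [h1, mul_zero, h10, zero_mul, add_zero] at h9
    have h11 : (fun w => (∏ c ∈ Z, (w - c)) * E₁ w) = E s := funext fun w => (hEe w).symm
    rw [h11] at h9
    have h12 := h9.deriv
    rw [h5] at h12
    exact E_deriv_ne h h7 h12
  have hcl : DiffContOnCl ℂ (fun z => D₁ z / E₁ z) (Sq r) := by
    refine DifferentiableOn.diffContOnCl fun z hz => ?_
    exact ((hD₁ z).div (hE₁ z) (hne z hz)).differentiableWithinAt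
  have hfr : ∀ z ∈ frontier (Sq r), ‖D₁ z / E₁ z‖ ≤ B := by
    intro z hz
    have h1 := frontier_Sq hz
    have h2 : E s z ≠ 0 := hE z h1
    have h3 : ∏ c ∈ Z, (z - c) ≠ 0 := by
      intro h4
      exact h2 (by rw [hEe, h4, zero_mul])
    have h4 : D₁ z / E₁ z = D z / E s z := by
      rw [hDe, hEe, mul_div_mul_left _ _ h3]
    rw [h4, norm_div, div_le_iff₀ (norm_pos_iff.2 h2)]
    exact hB z h1
  have hyU : (y : ℂ) ∈ Sq r := by
    refine ⟨?_, ?_⟩
    · simpa using hy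
    · simpa using hr
  have hmax := Complex.norm_le_of_forall_mem_frontier_norm_le (bounded_Sq r) hcl hfr
    (subset_closure hyU)
  have h1 : E₁ y ≠ 0 := hne y (subset_closure hyU)
  show ‖D y‖ ≤ B * ‖E s y‖
  rw [hDe, hEe, norm_mul, norm_mul]
  rw [norm_div, div_le_iff₀ (norm_pos_iff.2 h1)] at hmax
  calc ‖∏ c ∈ Z, ((y : ℂ) - c)‖ * ‖D₁ y‖ ≤ ‖∏ c ∈ Z, ((y : ℂ) - c)‖ * (B * ‖E₁ y‖) :=
        mul_le_mul_of_nonneg_left hmax (norm_nonneg _)
    _ = B * (‖∏ c ∈ Z, ((y : ℂ) - c)‖ * ‖E₁ y‖) := by ring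

theorem G_le (h : PellData s P Q) {c : ℝ} (hc : E s (c : ℂ) = 0) {z : ℂ} {d : ℝ} (hd : 0 < d)
    (h1 : d ≤ ‖z - c‖) (h2 : d ≤ ‖z + c‖) : ‖G s c z‖ ≤ ‖E s z‖ / d := by
  rw [le_div_iff₀ hd]
  have h3 : ‖z - c‖ * ‖z + c‖ * ‖G s c z‖ = ‖z‖ * ‖E s z‖ := by
    rw [← norm_mul, ← norm_mul, ← norm_mul, ← G_spec h.hs hc z]
    congr 1
    ring
  have h4 : 2 * ‖z‖ ≤ ‖z - c‖ + ‖z + c‖ := by
    have h5 : ‖(z - c) + (z + c)‖ = 2 * ‖z‖ := by
      have : (z - c) + (z + c) = 2 * z := by ring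
      rw [this, norm_mul]
      norm_num
    rw [← h5]
    exact norm_add_le _ _
  have ha : 0 < ‖z - c‖ := lt_of_lt_of_le hd h1
  have hb : 0 < ‖z + c‖ := lt_of_lt_of_le hd h2
  have h6 : d * (2 * ‖z‖) ≤ 2 * (‖z - c‖ * ‖z + c‖) := by
    have h7 : d * ‖z - c‖ ≤ ‖z + c‖ * ‖z - c‖ := mul_le_mul_of_nonneg_right h2 ha.le
    have h8 : d * ‖z + c‖ ≤ ‖z - c‖ * ‖z + c‖ := mul_le_mul_of_nonneg_right h1 hb.le
    have h9 : d * (2 * ‖z‖) ≤ d * (‖z - c‖ + ‖z + c‖) := mul_le_mul_of_nonneg_left h4 hd.le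
    linarith [mul_comm ‖z + (c : ℂ)‖ ‖z - (c : ℂ)‖]
  have hab : 0 < ‖z - c‖ * ‖z + c‖ := mul_pos ha hb
  refine le_of_mul_le_mul_left ?_ hab
  calc ‖z - c‖ * ‖z + c‖ * (‖G s c z‖ * d) = d * (‖z - c‖ * ‖z + c‖ * ‖G s c z‖) := by ring
    _ = d * (2 * ‖z‖) / 2 * ‖E s z‖ := by rw [h3]; ring
    _ ≤ 2 * (‖z - c‖ * ‖z + c‖) / 2 * ‖E s z‖ := by
        refine mul_le_mul_of_nonneg_right ?_ (norm_nonneg _)
        linarith
    _ = ‖z - c‖ * ‖z + c‖ * ‖E s z‖ := by ring

end Point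

theorem interp_point (h : PellData s P Q) : ∃ N₀ : ℕ, 2 ≤ N₀ ∧ ∀ (g : ℂ → ℂ) (M K : ℝ), IsE 1 M g →
    (∀ z : ℂ, ‖g z‖ ≤ K * Real.exp |z.im| / (1 + ‖z‖) ^ N₀) → ∀ y : ℝ,
      HasSum (fun x : Node s => (g (x.1 : ℂ)).re / (deriv (E s) (x.1 : ℂ)).re *
        (G s x.1 (y : ℂ)).re) (g (y : ℂ)).re := by
  classical
  obtain ⟨c₁, N, hc₁, hsq⟩ := squares h
  obtain ⟨c₀, hc₀, hE'⟩ := Eprime_lower h
  obtain ⟨MG, hMG, hG⟩ := G_isE h.hs
  obtain ⟨w, hwdef⟩ : ∃ w : Node s → ℝ, w = fun x => ((1 + |x.1|) ^ 2)⁻¹ := ⟨_, rfl⟩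
  have hw0 : ∀ x, 0 < w x := by
    intro x
    rw [hwdef]
    have := abs_nonneg x.1
    positivity
  have hw : Summable w := by
    have h1 := nodes_summable h (δ := 1) one_pos
    rw [hwdef]
    refine h1.congr fun x => ?_
    have h2 : (0 : ℝ) ≤ 1 + |x.1| := by positivity
    rw [show (-1 - 1 : ℝ) = -((2 : ℕ) : ℝ) by norm_num, Real.rpow_neg h2, Real.rpow_natCast]
  refine ⟨N + 3, by omega, fun g M K hg hdec y => ?_⟩
  have hK : 0 ≤ K := by
    have h1 := (norm_nonneg _).trans (hdec 0)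
    simpa using h1
  -- the coefficients
  have hco : ∀ x : Node s, |Point.co s g x.1| ≤ K / c₀ * (w x / (1 + |x.1|) ^ (N + 1)) := by
    intro x
    have h0 : (0 : ℝ) < 1 + |x.1| := by positivity
    have h1 : |(g (x.1 : ℂ)).re| ≤ K / (1 + |x.1|) ^ (N + 3) := by
      have h2 := (Complex.abs_re_le_norm _).trans (hdec (x.1 : ℂ))
      simpa using h2
    rw [Point.co, abs_div, div_le_iff₀ (lt_of_lt_of_le hc₀ (hE' x.1 x.2))]
    refine h1.trans ?_
    have h3 : K / (1 + |x.1|) ^ (N + 3) = K / c₀ * (w x / (1 + |x.1|) ^ (N + 1)) * c₀ := by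
      rw [hwdef]
      field_simp
      try ring
    rw [h3]
    refine mul_le_mul_of_nonneg_left (hE' x.1 x.2) ?_
    have := (hw0 x).le
    positivity
  have hco' : ∀ x : Node s, |Point.co s g x.1| ≤ K / c₀ * w x := by
    intro x
    refine (hco x).trans (mul_le_mul_of_nonneg_left ?_ (by positivity))
    refine div_le_self (hw0 x).le (one_le_pow₀ ?_)
    have := abs_nonneg x.1
    linarith
  obtain ⟨F, hFdef⟩ : ∃ F : Node s → ℝ, F = fun x => Point.co s g x.1 * (G s x.1 (y : ℂ)).re :=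
    ⟨_, rfl⟩
  have hF : Summable F := by
    refine Summable.of_norm_bounded (g := fun x => K / c₀ * MG * w x) (hw.mul_left _) fun x => ?_
    rw [hFdef]
    show ‖Point.co s g x.1 * (G s x.1 (y : ℂ)).re‖ ≤ _
    rw [norm_mul, Real.norm_eq_abs, Real.norm_eq_abs]
    have h1 : |(G s x.1 (y : ℂ)).re| ≤ MG :=
      (Complex.abs_re_le_norm _).trans ((hG x.1 x.2).b.real_le y)
    calc |Point.co s g x.1| * |(G s x.1 (y : ℂ)).re| ≤ (K / c₀ * w x) * MG :=
          mul_le_mul (hco' x) h1 (abs_nonneg _) (by have := (hw0 x).le; positivity)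
      _ = K / c₀ * MG * w x := by ring
  -- finite sets of nodes
  have hfin : ∀ r : ℝ, {x : Node s | |x.1| < r}.Finite := by
    intro r
    rcases le_or_gt r 0 with hr | hr
    · refine Set.finite_empty.subset fun x hx => ?_
      have h1 : |x.1| < r := hx
      have := abs_nonneg x.1
      linarith
    · have h1 : (0 : ℝ) < ((1 + r) ^ 2)⁻¹ := by positivity
      have h2 := Filter.eventually_cofinite.1
        (hw.tendsto_cofinite_zero.eventually (gt_mem_nhds h1))
      refine h2.subset fun x hx => ?_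
      show ¬ w x < ((1 + r) ^ 2)⁻¹
      have h3 : |x.1| < r := hx
      rw [not_lt, hwdef]
      have h4 := abs_nonneg x.1
      refine inv_anti₀ (by positivity) (pow_le_pow_left₀ (by positivity) (by linarith) 2)
  set C₃ : ℝ := 2 * (K / c₀) + K / c₀ * 2 ^ (N + 1) / c₁ with hC₃
  have hC₃0 : 0 ≤ C₃ := by positivity
  set S : ℝ := ∑' x, w x with hS
  have hS0 : 0 ≤ S := tsum_nonneg fun x => (hw0 x).le
  -- the key estimate
  have key : ∀ R₀ : ℝ, ∃ r : ℝ, R₀ ≤ r ∧ ∀ A : Finset (Node s), (∀ x : Node s, x ∈ A ↔ |x.1| < r) →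
      |y| < r → |(g (y : ℂ)).re - ∑ x ∈ A, F x| ≤ (K / c₁ + C₃ * S) / r * ‖E s y‖ := by
    intro R₀
    obtain ⟨r, hr, hr1, hz⟩ := hsq R₀
    have hr0 : 0 < r := by linarith
    refine ⟨r, hr, fun A hA hy => ?_⟩
    have h1 : ‖g y - ∑ c ∈ A, (Point.co s g c.1 : ℂ) * G s c.1 y‖ ≤
        (K / c₁ + C₃ * S) / r * ‖E s y‖ := by
      refine Point.main_bound h hg A hA ?_ ?_ hy
      · intro z hzb h2
        have h3 := (hz z hzb).1
        rw [h2, norm_zero] at h3
        have h4 : 0 < c₁ * Real.exp |z.im| / r ^ N := by positivity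
        linarith
      · intro z hzb
        obtain ⟨h3, h4⟩ := hz z hzb
        have hzr := Point.norm_ge_of_boundary hzb
        have h5 : ‖g z‖ ≤ K / c₁ / r * ‖E s z‖ := by
          refine (hdec z).trans ?_
          refine le_trans ?_ (mul_le_mul_of_nonneg_left h3 (by positivity))
          have h6 : K / c₁ / r * (c₁ * Real.exp |z.im| / r ^ N) =
              K * Real.exp |z.im| / r ^ (N + 1) := by
            rw [pow_succ]
            field_simp
          rw [h6]
          refine div_le_div_of_nonneg_left (by positivity) (by positivity) ?_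
          calc r ^ (N + 1) ≤ r ^ (N + 3) := pow_le_pow_right₀ hr1 (by omega)
            _ ≤ (1 + ‖z‖) ^ (N + 3) := pow_le_pow_left₀ hr0.le (by linarith) _
        have h7 : ∀ x ∈ A, ‖(Point.co s g x.1 : ℂ) * G s x.1 z‖ ≤ C₃ / r * ‖E s z‖ * w x := by
          intro x hx
          have hxr : |x.1| < r := (hA x).1 hx
          have hxx := x.2
          have hn : E s ((-x.1 : ℝ) : ℂ) = 0 := (Point.neg h x).2
          rw [norm_mul, Complex.norm_real, Real.norm_eq_abs]
          have hE0 := norm_nonneg (E s z)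
          have hwx := (hw0 x).le
          rcases le_or_gt |x.1| (r / 2) with hc | hc
          · have h8 : r / 2 ≤ ‖z - x.1‖ := Point.dist_ge_half hzb hc
            have h9 : r / 2 ≤ ‖z + x.1‖ := by
              have h10 := Point.dist_ge_half (x := -x.1) hzb (by rw [abs_neg]; exact hc)
              rwa [ofReal_neg, sub_neg_eq_add] at h10
            have h10 := Point.G_le h hxx (by positivity) h8 h9
            calc |Point.co s g x.1| * ‖G s x.1 z‖ ≤ (K / c₀ * w x) * (‖E s z‖ / (r / 2)) :=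
                  mul_le_mul (hco' x) h10 (norm_nonneg _) (by positivity)
              _ = 2 * (K / c₀) / r * ‖E s z‖ * w x := by
                  field_simp
              _ ≤ C₃ / r * ‖E s z‖ * w x := by
                  refine mul_le_mul_of_nonneg_right (mul_le_mul_of_nonneg_right ?_ hE0) hwx
                  refine div_le_div_of_nonneg_right ?_ hr0.le
                  rw [hC₃]
                  have : 0 ≤ K / c₀ * 2 ^ (N + 1) / c₁ := by positivity
                  linarith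
          · have h8 := h4 x.1 hxx
            have h9 := h4 (-x.1) hn
            rw [ofReal_neg, sub_neg_eq_add] at h9
            have h10 := Point.G_le h hxx (by positivity) h8 h9
            have h11 : (r / 2) ^ (N + 1) ≤ (1 + |x.1|) ^ (N + 1) :=
              pow_le_pow_left₀ (by positivity) (by linarith) _
            have h12 : |Point.co s g x.1| ≤ K / c₀ * (w x / (r / 2) ^ (N + 1)) := by
              refine (hco x).trans (mul_le_mul_of_nonneg_left ?_ (by positivity))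
              exact div_le_div_of_nonneg_left hwx (by positivity) h11
            calc |Point.co s g x.1| * ‖G s x.1 z‖ ≤
                  (K / c₀ * (w x / (r / 2) ^ (N + 1))) * (‖E s z‖ / (c₁ / r ^ N)) :=
                  mul_le_mul h12 h10 (norm_nonneg _) (by positivity)
              _ = K / c₀ * 2 ^ (N + 1) / c₁ / r * ‖E s z‖ * w x := by
                  rw [div_pow, pow_succ r N]
                  field_simp
              _ ≤ C₃ / r * ‖E s z‖ * w x := by
                  refine mul_le_mul_of_nonneg_right (mul_le_mul_of_nonneg_right ?_ hE0) hwx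
                  refine div_le_div_of_nonneg_right ?_ hr0.le
                  rw [hC₃]
                  have : 0 ≤ 2 * (K / c₀) := by positivity
                  linarith
        have h8 : ‖∑ c ∈ A, (Point.co s g c.1 : ℂ) * G s c.1 z‖ ≤ C₃ / r * ‖E s z‖ * S := by
          refine (norm_sum_le _ _).trans ((Finset.sum_le_sum h7).trans ?_)
          rw [← Finset.mul_sum]
          refine mul_le_mul_of_nonneg_left ?_ (by positivity)
          exact hw.sum_le_tsum A fun x _ => (hw0 x).le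
        calc ‖g z - ∑ c ∈ A, (Point.co s g c.1 : ℂ) * G s c.1 z‖ ≤
              ‖g z‖ + ‖∑ c ∈ A, (Point.co s g c.1 : ℂ) * G s c.1 z‖ := norm_sub_le _ _
          _ ≤ K / c₁ / r * ‖E s z‖ + C₃ / r * ‖E s z‖ * S := add_le_add h5 h8
          _ = (K / c₁ + C₃ * S) / r * ‖E s z‖ := by ring
    refine le_trans ?_ h1
    have h2 : (g (y : ℂ)).re - ∑ x ∈ A, F x =
        (g y - ∑ c ∈ A, (Point.co s g c.1 : ℂ) * G s c.1 y).re := by
      rw [Complex.sub_re, Complex.re_sum, hFdef]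
      congr 1
      refine Finset.sum_congr rfl fun x _ => ?_
      rw [Complex.re_ofReal_mul]
    rw [h2]
    exact Complex.abs_re_le_norm _
  -- conclusion
  have hlim : ∑' x, F x = (g (y : ℂ)).re := by
    refine eq_of_abs_sub_le_all fun ε hε => ?_
    have h1 := hF.hasSum
    rw [HasSum, SummationFilter.unconditional_filter] at h1
    obtain ⟨S₀, hS₀⟩ := Metric.tendsto_atTop.1 h1 (ε / 2) (by positivity)
    obtain ⟨r, hr, hkey⟩ := key (1 + |y| + ∑ x ∈ S₀, |x.1| +
      (K / c₁ + C₃ * S) * ‖E s y‖ / (ε / 2))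
    have hQ : 0 ≤ (K / c₁ + C₃ * S) * ‖E s y‖ / (ε / 2) := by positivity
    have hSS : 0 ≤ ∑ x ∈ S₀, |x.1| := Finset.sum_nonneg fun _ _ => abs_nonneg _
    have hyy := abs_nonneg y
    have hr0 : 0 < r := by linarith
    set A : Finset (Node s) := (hfin r).toFinset with hAdef
    have hA : ∀ x : Node s, x ∈ A ↔ |x.1| < r := by
      intro x
      rw [hAdef, Set.Finite.mem_toFinset]
      rfl
    have h2 := hkey A hA (by linarith)
    have h3 : S₀ ≤ A := by
      intro x hx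
      rw [hA]
      have := Finset.single_le_sum (f := fun x : Node s => |x.1|) (fun _ _ => abs_nonneg _) hx
      linarith
    have h4 := hS₀ A h3
    rw [Real.dist_eq] at h4
    have h5 : (K / c₁ + C₃ * S) / r * ‖E s y‖ ≤ ε / 2 := by
      have h6 : (K / c₁ + C₃ * S) * ‖E s y‖ / (ε / 2) ≤ r := by linarith
      rw [div_le_iff₀ (by positivity)] at h6
      rw [div_mul_eq_mul_div, div_le_iff₀ hr0]
      linarith
    have h7 : ∑' x, F x - (g (y : ℂ)).re =
        -(∑ x ∈ A, F x - ∑' x, F x) - ((g (y : ℂ)).re - ∑ x ∈ A, F x) := by ring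
    rw [h7]
    refine (abs_sub _ _).trans ?_
    rw [abs_neg]
    linarith
  have h1 := hF.hasSum
  rw [hlim, hFdef] at h1
  exact h1

end Helper22.SC
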