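import Pool.Agent.Helper22.SC.Gc
import Pool.Agent.Helper30.FG.D3a

/-!
[SC-Pois] Poisson integral of `G_c`, exactly as `pois_sv_bound` in `Helper30/FG/D3a.lean` (its lemmas `maj_near`,
`maj_far`, `int_near`, `int_far` are about the majorant `y/((y+k)(1+|y-k|))`, which is the one of `G_real`).
-/

set_option autoImplicit false

namespace Helper22.SC

open Complex MeasureTheory Set Filter Topology Polynomial
open Pool.Agent.Helper30.FG

variable {s : ℂ → ℂ}

/-- the Poisson integral of an even continuous function with the majorant of `pois_sv_bound` -/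
theorem pois_of_maj {g : ℂ → ℂ} (hcg : Continuous g) (hev : ∀ z : ℂ, g (-z) = g z)
    {C₀ c t : ℝ} (hC : 0 < C₀) (hc2 : 2 ≤ c) (ht : 0 < t)
    (hg : ∀ x : ℝ, 0 ≤ x → ‖g (x : ℂ)‖ ≤ C₀ * (x / ((x + c) * (1 + |x - c|)))) :
    |Pois t g| ≤ (11 * C₀) * t * (1 + Real.log c + Real.log (1 + c ^ 2 / t ^ 2)) / c ^ 2 := by
  have hk0 : 0 < c := by linarith
  set f : ℝ → ℝ := fun x => t / (x ^ 2 + t ^ 2) * (g (x : ℂ)).re with hf
  have hneg : ∀ x : ℝ, f (-x) = f x := by
    intro x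
    simp only [hf, Complex.ofReal_neg, hev, neg_sq]
  have habs : ∀ x : ℝ, f |x| = f x := by
    intro x
    rcases abs_choice x with h1 | h1
    · rw [h1]
    · rw [h1, hneg]
  have hcont : Continuous f := by
    have h1 : Continuous (fun x : ℝ => t / (x ^ 2 + t ^ 2)) :=
      continuous_const.div (by fun_prop) (fun x => by positivity)
    have h2 : Continuous (fun x : ℝ => (g (x : ℂ)).re) :=
      Complex.continuous_re.comp (hcg.comp Complex.continuous_ofReal)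
    exact h1.mul h2
  have hpt : ∀ y : ℝ, 0 < y →
      ‖f y‖ ≤ C₀ * (t / (y ^ 2 + t ^ 2) * (y / ((y + c) * (1 + |y - c|)))) := by
    intro y hy
    have h1 : |(g (y : ℂ)).re| ≤ C₀ * (y / ((y + c) * (1 + |y - c|))) :=
      (Complex.abs_re_le_norm _).trans (hg y hy.le)
    rw [hf, Real.norm_eq_abs, abs_mul, abs_of_nonneg (by positivity : 0 ≤ t / (y ^ 2 + t ^ 2))]
    calc t / (y ^ 2 + t ^ 2) * |(g (y : ℂ)).re|
        ≤ t / (y ^ 2 + t ^ 2) * (C₀ * (y / ((y + c) * (1 + |y - c|)))) :=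
          mul_le_mul_of_nonneg_left h1 (by positivity)
      _ = _ := by ring
  obtain ⟨hi1, hb1⟩ := D3a.int_near ht hc2
  obtain ⟨hi2, hb2⟩ := D3a.int_far (t := t) hc2
  have hn1 : ‖∫ y in Ioc 0 (2 * c), f y‖ ≤
      C₀ * (t / c ^ 2 * (10 + 8 * Real.log c + Real.log (1 + c ^ 2 / t ^ 2))) := by
    refine (norm_integral_le_of_norm_le (hi1.const_mul C₀) ?_).trans ?_
    · refine (ae_restrict_iff' measurableSet_Ioc).2 (Filter.Eventually.of_forall fun y hmem => ?_)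
      exact (hpt y hmem.1).trans
        (mul_le_mul_of_nonneg_left (D3a.maj_near ht hc2 hmem.1 rfl) hC.le)
    · rw [integral_const_mul]
      exact mul_le_mul_of_nonneg_left hb1 hC.le
  have hfar : ∀ᵐ y ∂(volume.restrict (Ioi (2 * c))), ‖f y‖ ≤ C₀ * (2 * t * y ^ (-3 : ℝ)) := by
    refine (ae_restrict_iff' measurableSet_Ioi).2 (Filter.Eventually.of_forall fun y hmem => ?_)
    have hmem' : 2 * c < y := hmem
    exact (hpt y (by linarith)).trans
      (mul_le_mul_of_nonneg_left (D3a.maj_far ht hc2 hmem') hC.le)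
  have hn2 : ‖∫ y in Ioi (2 * c), f y‖ ≤ C₀ * (t / c ^ 2 * (1 / 4)) := by
    refine (norm_integral_le_of_norm_le (hi2.const_mul C₀) hfar).trans ?_
    rw [integral_const_mul, hb2]
  have hI2 : IntegrableOn f (Ioi (2 * c)) :=
    Integrable.mono' (hi2.const_mul C₀) hcont.aestronglyMeasurable hfar
  have hI1 : IntegrableOn f (Ioc 0 (2 * c)) :=
    (hcont.integrableOn_Icc (a := 0) (b := 2 * c)).mono_set Ioc_subset_Icc_self
  have hsplit : ∫ y in Ioi (0 : ℝ), f y =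
      (∫ y in Ioc 0 (2 * c), f y) + ∫ y in Ioi (2 * c), f y := by
    rw [← setIntegral_union (Set.Ioc_disjoint_Ioi le_rfl) measurableSet_Ioi hI1 hI2,
      Ioc_union_Ioi_eq_Ioi (by linarith)]
  have hP : Pois t g = (1 / Real.pi) * (2 * ∫ y in Ioi (0 : ℝ), f y) := by
    have h1 : ∫ x : ℝ, f x = 2 * ∫ y in Ioi (0 : ℝ), f y := by
      rw [← integral_comp_abs]
      exact integral_congr_ae (Filter.Eventually.of_forall fun x => (habs x).symm)
    rw [← h1]
    rfl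
  have hlogk : 0 ≤ Real.log c := Real.log_nonneg (by linarith)
  have hlogq : 0 ≤ Real.log (1 + c ^ 2 / t ^ 2) :=
    Real.log_nonneg (by have : 0 ≤ c ^ 2 / t ^ 2 := by positivity
                        linarith)
  have h5 : 0 ≤ C₀ * (t / c ^ 2) := by positivity
  have hpi : 2 / Real.pi ≤ 1 := by
    rw [div_le_one Real.pi_pos]
    linarith [Real.pi_gt_three]
  have hsum : |∫ y in Ioi (0 : ℝ), f y| ≤
      C₀ * (t / c ^ 2 * (10 + 8 * Real.log c + Real.log (1 + c ^ 2 / t ^ 2))) +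
        C₀ * (t / c ^ 2 * (1 / 4)) := by
    rw [hsplit]
    exact (abs_add_le _ _).trans (add_le_add hn1 hn2)
  rw [hP, ← mul_assoc, show 1 / Real.pi * 2 = 2 / Real.pi by ring, abs_mul,
    abs_of_nonneg (by positivity : 0 ≤ 2 / Real.pi)]
  calc 2 / Real.pi * |∫ y in Ioi (0 : ℝ), f y| ≤ 1 * |∫ y in Ioi (0 : ℝ), f y| :=
        mul_le_mul_of_nonneg_right hpi (abs_nonneg _)
    _ ≤ C₀ * (t / c ^ 2 * (10 + 8 * Real.log c + Real.log (1 + c ^ 2 / t ^ 2))) +
          C₀ * (t / c ^ 2 * (1 / 4)) := by rw [one_mul]; exact hsum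
    _ = C₀ * (t / c ^ 2) * (10 + 1 / 4 + 8 * Real.log c + Real.log (1 + c ^ 2 / t ^ 2)) := by ring
    _ ≤ C₀ * (t / c ^ 2) * (11 * (1 + Real.log c + Real.log (1 + c ^ 2 / t ^ 2))) :=
        mul_le_mul_of_nonneg_left (by linarith) h5
    _ = (11 * C₀) * t * (1 + Real.log c + Real.log (1 + c ^ 2 / t ^ 2)) / c ^ 2 := by ring

theorem pois_G (hs : IsE (1 / 2) 1 s) : ∃ C : ℝ, 0 < C ∧ ∀ c : ℝ, 2 ≤ c → E s (c : ℂ) = 0 →
    ∀ t : ℝ, 0 < t → |Pois t (G s c)| ≤
      C * t * (1 + Real.log c + Real.log (1 + c ^ 2 / t ^ 2)) / c ^ 2 := by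
  obtain ⟨M, _, hM⟩ := G_isE hs
  obtain ⟨C₀, hC, hG⟩ := G_real hs
  exact ⟨11 * C₀, by positivity, fun c hc2 hc t ht =>
    pois_of_maj (differentiable_G hs c).continuous (hM c hc).even hC hc2 ht (hG c hc2 hc)⟩

end Helper22.SC
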