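import Pool.Agent.Helper22.SC.Pois
import Pool.Agent.Helper30.FG.A6

/-!
[SC-Weight] The weights `L(G_c)` decay like `c^{-1-δ}`. `Lf = Lr` (`Lf_eq_Lr`), `G_c(0) = 0` for `c ≠ 0`:
`brk = -2 e^{-t} G_c(it) + e^{-t} Pois t G_c`. pois_G: as in `D3a.lean` (its lemmas `maj_near`, `maj_far`, `int_near`,
`int_far` are about the majorant `y/((y+k)(1+|y-k|))` of `G_real`). Imaginary part: `G_imag`,
`∫_0^1 t^{-α-1} t t/(t²+c²) ≤ C/c²`, `∫_1^∞ t^{-α}/(t²+c²) dt ≤ C c^{-1-α}`.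
weight_pos (large `c`): `-G_c(it) = t S S'/(t²+c²) ≥ 0` with `S S' = i E(it)`-type real, `e^{-t} S S' ≥ c₁ > 0` for
`t ≥ y₀` (`lower_E`), so the first term is `≥ c₂ ∫_{y₀}^∞ t^{-α}/(t²+c²) ≥ c₃ c^{-1-α}`, the Poisson term is
`O((1 + log c)/c²)`. (`S S' ≥ 0` for `t > 0`: `PA.EvenRR.logDeriv_im` with a zero of `s`.)
-/

set_option autoImplicit false

namespace Helper22.SC

open Complex MeasureTheory Set Filter Topology Polynomial
open Pool.Agent.Helper30.FG Pool.Agent.Helper78.Bern Pool.Agent.Helper45.Bern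

variable {s : ℂ → ℂ} {P Q : ℝ[X]}

namespace Weight

/-- `t² + c²` against `t^(1-δ) c^(1+δ)` -/
private theorem amgm {t c δ : ℝ} (ht : 0 < t) (hc : 0 < c) (hδ0 : 0 < δ) (hδ1 : δ < 1) :
    t / (t ^ 2 + c ^ 2) ≤ t ^ δ * c ^ (-1 - δ) := by
  have hm0 : 0 < max t c := lt_max_of_lt_left ht
  have h1 : t ^ (1 - δ) ≤ max t c ^ (1 - δ) :=
    Real.rpow_le_rpow ht.le (le_max_left _ _) (by linarith)
  have h2 : c ^ (1 + δ) ≤ max t c ^ (1 + δ) :=
    Real.rpow_le_rpow hc.le (le_max_right _ _) (by linarith)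
  have h3 : t ^ (1 - δ) * c ^ (1 + δ) ≤ t ^ 2 + c ^ 2 := by
    calc t ^ (1 - δ) * c ^ (1 + δ) ≤ max t c ^ (1 - δ) * max t c ^ (1 + δ) :=
          mul_le_mul h1 h2 (Real.rpow_nonneg hc.le _) (Real.rpow_nonneg hm0.le _)
      _ = max t c ^ 2 := by
          rw [← Real.rpow_add hm0, ← Real.rpow_natCast]
          congr 1
          push_cast
          ring
      _ ≤ t ^ 2 + c ^ 2 := by
          rcases max_choice t c with h | h <;> rw [h] <;> nlinarith [sq_nonneg t, sq_nonneg c]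
  have hq : 0 < t ^ 2 + c ^ 2 := by positivity
  have h4 : t ^ δ * c ^ (-1 - δ) * (t ^ (1 - δ) * c ^ (1 + δ)) = t := by
    have e1 : t ^ δ * t ^ (1 - δ) = t := by
      rw [← Real.rpow_add ht, show δ + (1 - δ) = 1 by ring, Real.rpow_one]
    have e2 : c ^ (-1 - δ) * c ^ (1 + δ) = 1 := by
      rw [← Real.rpow_add hc, show -1 - δ + (1 + δ) = 0 by ring, Real.rpow_zero]
    calc t ^ δ * c ^ (-1 - δ) * (t ^ (1 - δ) * c ^ (1 + δ)) =
          (t ^ δ * t ^ (1 - δ)) * (c ^ (-1 - δ) * c ^ (1 + δ)) := by ring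
      _ = t := by rw [e1, e2, mul_one]
  rw [div_le_iff₀ hq]
  calc t = t ^ δ * c ^ (-1 - δ) * (t ^ (1 - δ) * c ^ (1 + δ)) := h4.symm
    _ ≤ t ^ δ * c ^ (-1 - δ) * (t ^ 2 + c ^ 2) :=
        mul_le_mul_of_nonneg_left h3 (mul_nonneg (Real.rpow_nonneg ht.le _)
          (Real.rpow_nonneg hc.le _))

private theorem log_bound {x ε : ℝ} (hx : 0 ≤ x) (hε0 : 0 < ε) (hε1 : ε ≤ 1) :
    Real.log (1 + x) ≤ x ^ ε / ε := by
  have h1 : (1 + x) ^ ε ≤ 1 ^ ε + x ^ ε := Real.rpow_add_le_add_rpow zero_le_one hx hε0.le hε1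
  rw [Real.one_rpow] at h1
  have h2 : 0 < 1 + x := by linarith
  have h3 : Real.log ((1 + x) ^ ε) = ε * Real.log (1 + x) := Real.log_rpow h2 ε
  have h4 : Real.log ((1 + x) ^ ε) ≤ (1 + x) ^ ε - 1 :=
    Real.log_le_sub_one_of_pos (Real.rpow_pos_of_pos h2 _)
  rw [le_div_iff₀ hε0]
  linarith

/-- the logarithmic terms -/
private theorem log_terms {α t c : ℝ} (h0 : 0 < α) (h1 : α < 1) (ht : 0 < t) (hc : 2 ≤ c) :
    (1 + Real.log c + Real.log (1 + c ^ 2 / t ^ 2)) / c ^ 2 ≤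
      c ^ (-1 - α / 2) * (3 + 4 / (1 - α) * t ^ (-((1 - α) / 2))) := by
  have hc0 : 0 < c := by linarith
  have hc1 : 1 ≤ c := by linarith
  have hsplit : c ^ (-1 - α / 2) = c ^ (1 - α / 2) / c ^ 2 := by
    rw [eq_div_iff (by positivity), ← Real.rpow_natCast, ← Real.rpow_add hc0]
    congr 1
    push_cast
    ring
  have hA : 1 ≤ c ^ (1 - α / 2) := Real.one_le_rpow hc1 (by linarith)
  have hB : Real.log c ≤ 2 * c ^ (1 - α / 2) := by
    have h2 := Real.log_le_rpow_div hc0.le (show 0 < 1 - α / 2 by linarith)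
    refine h2.trans ?_
    rw [div_le_iff₀ (by linarith)]
    have h3 : 0 ≤ c ^ (1 - α / 2) := by linarith
    nlinarith
  have hC : Real.log (1 + c ^ 2 / t ^ 2) ≤
      4 / (1 - α) * (c ^ (1 - α / 2) * t ^ (-((1 - α) / 2))) := by
    have hε0 : 0 < (1 - α) / 4 := by linarith
    have h2 := log_bound (x := c ^ 2 / t ^ 2) (by positivity) hε0 (by linarith)
    refine h2.trans ?_
    have h3 : (c ^ 2 / t ^ 2) ^ ((1 - α) / 4) = c ^ ((1 - α) / 2) * t ^ (-((1 - α) / 2)) := by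
      rw [Real.div_rpow (by positivity) (by positivity), ← Real.rpow_natCast c,
        ← Real.rpow_natCast t, ← Real.rpow_mul hc0.le, ← Real.rpow_mul ht.le,
        Real.rpow_neg ht.le, div_eq_mul_inv]
      congr 2
      · push_cast
        ring
      · congr 1
        push_cast
        ring
    have h4 : c ^ ((1 - α) / 2) ≤ c ^ (1 - α / 2) :=
      Real.rpow_le_rpow_of_exponent_le hc1 (by linarith)
    rw [h3]
    have h5 : c ^ ((1 - α) / 2) * t ^ (-((1 - α) / 2)) ≤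
        c ^ (1 - α / 2) * t ^ (-((1 - α) / 2)) :=
      mul_le_mul_of_nonneg_right h4 (Real.rpow_nonneg ht.le _)
    have h6 : 4 / (1 - α) * (c ^ (1 - α / 2) * t ^ (-((1 - α) / 2))) =
        c ^ (1 - α / 2) * t ^ (-((1 - α) / 2)) / ((1 - α) / 4) := by
      have : 1 - α ≠ 0 := by linarith
      field_simp
    rw [h6]
    exact div_le_div_of_nonneg_right h5 hε0.le
  rw [hsplit, div_mul_eq_mul_div]
  refine div_le_div_of_nonneg_right ?_ (by positivity)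
  calc 1 + Real.log c + Real.log (1 + c ^ 2 / t ^ 2) ≤
        c ^ (1 - α / 2) + 2 * c ^ (1 - α / 2) +
          4 / (1 - α) * (c ^ (1 - α / 2) * t ^ (-((1 - α) / 2))) := by linarith
    _ = c ^ (1 - α / 2) * (3 + 4 / (1 - α) * t ^ (-((1 - α) / 2))) := by ring

/-- the majorant -/
private noncomputable def H (α C₁ C₂ t : ℝ) : ℝ :=
  4 * C₁ * (t ^ (-(α / 2) - 1) * (1 - Real.exp (-(1 * t)))) +
    C₂ * (3 * (Real.exp (-t) * t ^ ((1 - α) - 1)) +
      4 / (1 - α) * (Real.exp (-t) * t ^ ((1 - α) / 2 - 1)))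

private theorem integrable_H {α : ℝ} (h0 : 0 < α) (h1 : α < 1) (C₁ C₂ : ℝ) :
    IntegrableOn (H α C₁ C₂) (Ioi 0) := by
  have i1 := (integrable_exp_kernel (α := α / 2) (by linarith) (by linarith)
    zero_le_one).const_mul (4 * C₁)
  have i2 := (Real.GammaIntegral_convergent (s := 1 - α) (by linarith)).const_mul 3
  have i3 := (Real.GammaIntegral_convergent (s := (1 - α) / 2) (by linarith)).const_mul
    (4 / (1 - α))
  exact i1.add ((i2.add i3).const_mul C₂)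

private theorem pointwise {α C₁ C₂ : ℝ} (h0 : 0 < α) (h1 : α < 1) (hC₁ : 0 < C₁) (hC₂ : 0 < C₂)
    {c t : ℝ} (hc : 2 ≤ c) (ht : 0 < t) {g : ℂ → ℂ} (hg0 : g 0 = 0)
    (hgi : ‖g ((t : ℂ) * I)‖ ≤ C₁ * t * min t 1 * Real.exp t / (t ^ 2 + c ^ 2))
    (hgp : |Pois t g| ≤ C₂ * t * (1 + Real.log c + Real.log (1 + c ^ 2 / t ^ 2)) / c ^ 2) :
    |t ^ (-α - 1) * brk g t| ≤ c ^ (-1 - α / 2) * H α C₁ C₂ t := by
  have hc0 : 0 < c := by linarith
  have hp : 0 < t ^ (-α - 1) := Real.rpow_pos_of_pos ht _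
  have hcp : 0 < c ^ (-1 - α / 2) := Real.rpow_pos_of_pos hc0 _
  have he : 0 < Real.exp (-t) := Real.exp_pos _
  have hbrk : |brk g t| ≤ 2 * Real.exp (-t) * ‖g ((t : ℂ) * I)‖ + Real.exp (-t) * |Pois t g| := by
    unfold brk
    rw [hg0, Complex.zero_re, zero_sub]
    refine (abs_add_le _ _).trans ?_
    rw [abs_neg, abs_mul, abs_mul (Real.exp (-t)), abs_of_pos (by positivity : 0 < 2 * Real.exp (-t)),
      abs_of_pos he]
    have := Complex.abs_re_le_norm (g ((t : ℂ) * I))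
    gcongr
  have hT1 : t ^ (-α - 1) * (2 * Real.exp (-t) * ‖g ((t : ℂ) * I)‖) ≤
      c ^ (-1 - α / 2) * (4 * C₁ * (t ^ (-(α / 2) - 1) * (1 - Real.exp (-(1 * t))))) := by
    have h2 : Real.exp (-t) * (C₁ * t * min t 1 * Real.exp t / (t ^ 2 + c ^ 2)) =
        C₁ * min t 1 * (t / (t ^ 2 + c ^ 2)) := by
      have h3 : Real.exp (-t) * Real.exp t = 1 := by rw [← Real.exp_add]; simp
      calc Real.exp (-t) * (C₁ * t * min t 1 * Real.exp t / (t ^ 2 + c ^ 2)) =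
            (Real.exp (-t) * Real.exp t) * (C₁ * min t 1 * (t / (t ^ 2 + c ^ 2))) := by ring
        _ = _ := by rw [h3, one_mul]
    have hmin : 0 < min t 1 := lt_min ht one_pos
    have h4 := amgm ht hc0 (show 0 < α / 2 by linarith) (by linarith)
    have h5 := A6.min_le ht
    have h6 : Real.exp (-t) * ‖g ((t : ℂ) * I)‖ ≤
        C₁ * (2 * (1 - Real.exp (-(1 * t)))) * (t ^ (α / 2) * c ^ (-1 - α / 2)) := by
      calc Real.exp (-t) * ‖g ((t : ℂ) * I)‖ ≤ Real.exp (-t) *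
            (C₁ * t * min t 1 * Real.exp t / (t ^ 2 + c ^ 2)) :=
            mul_le_mul_of_nonneg_left hgi he.le
        _ = C₁ * min t 1 * (t / (t ^ 2 + c ^ 2)) := h2
        _ ≤ C₁ * (2 * (1 - Real.exp (-(1 * t)))) * (t ^ (α / 2) * c ^ (-1 - α / 2)) := by
            refine mul_le_mul (mul_le_mul_of_nonneg_left h5 hC₁.le) h4 (by positivity) ?_
            exact mul_nonneg hC₁.le (hmin.le.trans h5)
    have h7 : t ^ (-α - 1) * t ^ (α / 2) = t ^ (-(α / 2) - 1) := by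
      rw [← Real.rpow_add ht]
      congr 1
      ring
    calc t ^ (-α - 1) * (2 * Real.exp (-t) * ‖g ((t : ℂ) * I)‖) =
          2 * t ^ (-α - 1) * (Real.exp (-t) * ‖g ((t : ℂ) * I)‖) := by ring
      _ ≤ 2 * t ^ (-α - 1) * (C₁ * (2 * (1 - Real.exp (-(1 * t)))) *
            (t ^ (α / 2) * c ^ (-1 - α / 2))) := mul_le_mul_of_nonneg_left h6 (by positivity)
      _ = c ^ (-1 - α / 2) * (4 * C₁ * ((t ^ (-α - 1) * t ^ (α / 2)) *
            (1 - Real.exp (-(1 * t))))) := by ring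
      _ = _ := by rw [h7]
  have hT2 : t ^ (-α - 1) * (Real.exp (-t) * |Pois t g|) ≤
      c ^ (-1 - α / 2) * (C₂ * (3 * (Real.exp (-t) * t ^ ((1 - α) - 1)) +
        4 / (1 - α) * (Real.exp (-t) * t ^ ((1 - α) / 2 - 1)))) := by
    have h2 := log_terms h0 h1 ht hc
    have h3 : |Pois t g| ≤ C₂ * t * (c ^ (-1 - α / 2) *
        (3 + 4 / (1 - α) * t ^ (-((1 - α) / 2)))) := by
      refine hgp.trans ?_
      rw [mul_div_assoc]
      exact mul_le_mul_of_nonneg_left h2 (by positivity)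
    have h4 : t ^ (-α - 1) * t = t ^ ((1 - α) - 1) := by
      nth_rewrite 2 [← Real.rpow_one t]
      rw [← Real.rpow_add ht]
      congr 1
      ring
    have h5 : t ^ (-α - 1) * t * t ^ (-((1 - α) / 2)) = t ^ ((1 - α) / 2 - 1) := by
      rw [h4, ← Real.rpow_add ht]
      congr 1
      ring
    calc t ^ (-α - 1) * (Real.exp (-t) * |Pois t g|) ≤ t ^ (-α - 1) * (Real.exp (-t) *
          (C₂ * t * (c ^ (-1 - α / 2) * (3 + 4 / (1 - α) * t ^ (-((1 - α) / 2)))))) :=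
          mul_le_mul_of_nonneg_left (mul_le_mul_of_nonneg_left h3 he.le) hp.le
      _ = c ^ (-1 - α / 2) * (C₂ * (3 * (Real.exp (-t) * (t ^ (-α - 1) * t)) +
            4 / (1 - α) * (Real.exp (-t) * (t ^ (-α - 1) * t * t ^ (-((1 - α) / 2)))))) := by ring
      _ = _ := by rw [h5, h4]
  rw [abs_mul, abs_of_pos hp]
  calc t ^ (-α - 1) * |brk g t| ≤ t ^ (-α - 1) * (2 * Real.exp (-t) * ‖g ((t : ℂ) * I)‖ +
        Real.exp (-t) * |Pois t g|) := mul_le_mul_of_nonneg_left hbrk hp.le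
    _ = t ^ (-α - 1) * (2 * Real.exp (-t) * ‖g ((t : ℂ) * I)‖) +
        t ^ (-α - 1) * (Real.exp (-t) * |Pois t g|) := by ring
    _ ≤ _ := add_le_add hT1 hT2
    _ = c ^ (-1 - α / 2) * H α C₁ C₂ t := by
        unfold H
        ring

end Weight

open Weight

theorem weight_bound {α : ℝ} (h0 : 0 < α) (h1 : α < 1) (hs : IsE (1 / 2) 1 s) :
    ∃ C δ : ℝ, 0 < C ∧ 0 < δ ∧ ∀ c : ℝ, 2 ≤ c → E s (c : ℂ) = 0 →
      |Lf α (G s c)| ≤ C * c ^ (-1 - δ) := by
  obtain ⟨M, -, hM⟩ := G_isE hs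
  obtain ⟨C₁, hC₁, hi⟩ := G_imag hs
  obtain ⟨C₂, hC₂, hp⟩ := pois_G hs
  refine ⟨|α / Real.Gamma (1 - α)| * (∫ t in Ioi (0 : ℝ), H α C₁ C₂ t) ⊔ 1, α / 2,
    lt_of_lt_of_le one_pos (le_max_right _ _), by linarith, fun c hc hE => ?_⟩
  have hc0 : 0 < c := by linarith
  have hg0 : G s c 0 = 0 := by
    have h2 := G_spec hs hE 0
    rw [zero_mul] at h2
    rcases mul_eq_zero.1 h2 with h3 | h3
    · exfalso
      have h4 : (c : ℂ) ^ 2 = 0 := by
        have h5 : ((0 : ℂ) ^ 2 - (c : ℂ) ^ 2) = -(c : ℂ) ^ 2 := by ring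
        rw [h5, neg_eq_zero] at h3
        exact h3
      have h6 : (c : ℂ) = 0 := by simpa using h4
      have h7 : c = 0 := by exact_mod_cast h6
      linarith
    · exact h3
  rw [Lf_eq_Lr h0 h1 (hM c hE), Lr, abs_mul]
  have hint : |∫ t in Ioi (0 : ℝ), t ^ (-α - 1) * brk (G s c) t| ≤
      ∫ t in Ioi (0 : ℝ), c ^ (-1 - α / 2) * H α C₁ C₂ t := by
    rw [← Real.norm_eq_abs]
    refine norm_integral_le_of_norm_le ((integrable_H h0 h1 C₁ C₂).const_mul _) ?_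
    refine (ae_restrict_iff' measurableSet_Ioi).2 (Eventually.of_forall fun t ht => ?_)
    rw [Real.norm_eq_abs]
    exact pointwise h0 h1 hC₁ hC₂ hc ht hg0 (hi c hc hE t ht) (hp c hc hE t ht)
  rw [integral_const_mul] at hint
  have hcp : 0 ≤ c ^ (-1 - α / 2) := Real.rpow_nonneg hc0.le _
  calc |α / Real.Gamma (1 - α)| * |∫ t in Ioi (0 : ℝ), t ^ (-α - 1) * brk (G s c) t| ≤
        |α / Real.Gamma (1 - α)| * (c ^ (-1 - α / 2) * ∫ t in Ioi (0 : ℝ), H α C₁ C₂ t) :=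
        mul_le_mul_of_nonneg_left hint (abs_nonneg _)
    _ = (|α / Real.Gamma (1 - α)| * ∫ t in Ioi (0 : ℝ), H α C₁ C₂ t) * c ^ (-1 - α / 2) := by
        ring
    _ ≤ _ := mul_le_mul_of_nonneg_right (le_max_left _ _) hcp

end Helper22.SC
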