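import Pool.Agent.Helper22.SC.Interp
import Pool.Agent.Helper22.SC.Weight

/-!
[SC-Quad] Quadrature formula and the sufficient condition.
quadrature: `w x = L(G_x)/E'(x)` is summable over the nodes (`weight_bound`, `Eprime_lower`, `nodes_summable`, finitely
many nodes with `|c| < 2`). For `g` in `IsE 1 M` let `g_ε z = g((1 - ε N₀) z) (sin (ε z)/(ε z))^{N₀}` (entire
version of sin z/z as in `Helper30/FG/A3.lean`): `IsE 1 M` on the real line bounded by `M`, decay
`C_ε e^{|Im z|}/(1+‖z‖)^{N₀}`, `g_ε → g` pointwise as `ε → 0`; `interp_Lf`, `tendsto_Lf`, dominated convergence.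
sufficient: `f = 1 - 2 s²`, `f*` the maximiser (D1, C5: `Lf f* = bernsteinNorm`):
`Lf f* = ∑ w f* ≤ ∑ |w| = ∑ w f = Lf f = J s` since `w x = |w x| f(x)`: `f(x) = 1` at zeros of `s` (`E' > 0`), `f(x) = -1`
where `|s| = 1` (`E' < 0`), `w x = 0` where `|s| < 1`.
-/

set_option autoImplicit false

namespace Helper22.SC

open Complex MeasureTheory Set Filter Topology Polynomial
open Pool.Agent.Helper30.FG Pool.Agent.Helper78.Bern Pool.Agent.Helper45.Bern

variable {s : ℂ → ℂ} {P Q : ℝ[X]}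

namespace Quad

/-- `sin u / u` -/
noncomputable def cs (u : ℂ) : ℂ := dslope Complex.sin 0 u

theorem cs_mul (u : ℂ) : cs u * u = Complex.sin u := by
  have h := sub_smul_dslope Complex.sin 0 u
  simp only [sub_zero, Complex.sin_zero, smul_eq_mul] at h
  rw [cs, mul_comm]; exact h

theorem cs_zero : cs 0 = 1 := by
  rw [cs, dslope_same, Complex.deriv_sin, Complex.cos_zero]

theorem cs_of_ne {u : ℂ} (hu : u ≠ 0) : cs u = Complex.sin u / u := by
  rw [eq_div_iff hu, cs_mul]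

theorem cs_neg (u : ℂ) : cs (-u) = cs u := by
  by_cases hu : u = 0
  · rw [hu, neg_zero]
  · rw [cs_of_ne hu, cs_of_ne (neg_ne_zero.2 hu), Complex.sin_neg, neg_div_neg_eq]

theorem cs_real (x : ℝ) : cs (x : ℂ) = ((Real.sinc x : ℝ) : ℂ) := by
  by_cases hx : x = 0
  · rw [hx, Complex.ofReal_zero, cs_zero, Real.sinc_zero, Complex.ofReal_one]
  · rw [cs_of_ne (by exact_mod_cast hx), Real.sinc_of_ne_zero hx, Complex.ofReal_div,
      Complex.ofReal_sin]

theorem cs_diff : Differentiable ℂ cs := by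
  rw [← differentiableOn_univ]
  exact (Complex.differentiableOn_dslope univ_mem).2 Complex.differentiable_sin.differentiableOn

theorem norm_cos_le' (s : ℂ) : ‖Complex.cos s‖ ≤ Real.exp |s.im| := by
  have h : Complex.cos s = (Complex.exp (s * I) + Complex.exp (-s * I)) / 2 := rfl
  rw [h, norm_div]
  have h2 : ‖(2 : ℂ)‖ = 2 := by simp
  rw [h2, div_le_iff₀ (by norm_num)]
  refine (norm_add_le _ _).trans ?_
  rw [Complex.norm_exp, Complex.norm_exp]
  have e1 : (s * I).re = -s.im := by simp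
  have e2 : (-s * I).re = s.im := by simp
  rw [e1, e2]
  have h3 : Real.exp (-s.im) ≤ Real.exp |s.im| := Real.exp_le_exp.2 (neg_le_abs _)
  have h4 : Real.exp (s.im) ≤ Real.exp |s.im| := Real.exp_le_exp.2 (le_abs_self _)
  linarith

theorem norm_sin_le' (s : ℂ) : ‖Complex.sin s‖ ≤ Real.exp |s.im| := by
  have h := norm_cos_le' ((Real.pi / 2 : ℝ) - s)
  have h1 : Complex.cos (((Real.pi / 2 : ℝ) : ℂ) - s) = Complex.sin s := by
    have := Complex.cos_pi_div_two_sub s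
    simpa using this
  have h2 : ((((Real.pi / 2 : ℝ) : ℂ) - s)).im = -s.im := by simp
  rw [h1, h2, abs_neg] at h
  exact h

theorem norm_sin_le_mul (u : ℂ) : ‖Complex.sin u‖ ≤ Real.exp |u.im| * ‖u‖ := by
  have hconv : Convex ℝ {w : ℂ | |w.im| ≤ |u.im|} := by
    intro x hx y hy a b ha hb hab
    have hx' : |x.im| ≤ |u.im| := hx
    have hy' : |y.im| ≤ |u.im| := hy
    show |(a • x + b • y).im| ≤ |u.im|
    have h1 : (a • x + b • y).im = a * x.im + b * y.im := by simp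
    rw [h1]
    calc |a * x.im + b * y.im| ≤ |a * x.im| + |b * y.im| := abs_add_le _ _
      _ = a * |x.im| + b * |y.im| := by rw [abs_mul, abs_mul, abs_of_nonneg ha, abs_of_nonneg hb]
      _ ≤ a * |u.im| + b * |u.im| := by gcongr
      _ = |u.im| := by rw [← add_mul, hab, one_mul]
  have h := hconv.norm_image_sub_le_of_norm_hasDerivWithin_le (f := Complex.sin)
    (f' := Complex.cos) (C := Real.exp |u.im|) (x := 0) (y := u)
    (fun x _ => (Complex.hasDerivAt_sin x).hasDerivWithinAt)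
    (fun x hx => (norm_cos_le' x).trans (Real.exp_le_exp.2 hx))
    (show |(0 : ℂ).im| ≤ |u.im| by simp) (show |u.im| ≤ |u.im| from le_rfl)
  simpa using h

theorem norm_cs_le (u : ℂ) : ‖cs u‖ ≤ Real.exp |u.im| := by
  by_cases hu : u = 0
  · rw [hu, cs_zero]; simp
  · have h := norm_sin_le_mul u
    rw [← cs_mul, norm_mul] at h
    exact le_of_mul_le_mul_right h (norm_pos_iff.2 hu)

theorem norm_cs_mul (u : ℂ) : ‖cs u‖ * (1 + ‖u‖) ≤ 2 * Real.exp |u.im| := by
  have h1 := norm_cs_le u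
  have h2 : ‖cs u‖ * ‖u‖ ≤ Real.exp |u.im| := by
    rw [← norm_mul, cs_mul]
    exact norm_sin_le' u
  rw [mul_add, mul_one]
  linarith

/-- the regularised function -/
noncomputable def reg (g : ℂ → ℂ) (N : ℕ) (ε : ℝ) (z : ℂ) : ℂ :=
  g (((1 - ε * N : ℝ) : ℂ) * z) * cs ((ε : ℂ) * z) ^ N

theorem reg_isE {g : ℂ → ℂ} {M : ℝ} (hg : IsE 1 M g) (N : ℕ) {ε : ℝ} (hε : 0 < ε)
    (hεN : ε * N ≤ 1) : IsE 1 M (reg g N ε) := by
  have h0 : 0 ≤ 1 - ε * N := by linarith
  refine ⟨⟨?_, fun z => ?_⟩, fun z => ?_, fun x => ?_⟩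
  · unfold reg
    exact (hg.b.diff.comp (differentiable_id.const_mul _)).mul
      ((cs_diff.comp (differentiable_id.const_mul _)).pow N)
  · unfold reg
    rw [norm_mul, norm_pow]
    have e1 : |(((1 - ε * N : ℝ) : ℂ) * z).im| = (1 - ε * N) * |z.im| := by
      rw [Complex.im_ofReal_mul, abs_mul, abs_of_nonneg h0]
    have e2 : |((ε : ℂ) * z).im| = ε * |z.im| := by
      rw [Complex.im_ofReal_mul, abs_mul, abs_of_pos hε]
    have h1 := hg.b.bd (((1 - ε * N : ℝ) : ℂ) * z)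
    rw [e1] at h1
    have h2 := norm_cs_le ((ε : ℂ) * z)
    rw [e2] at h2
    calc _ ≤ (M * Real.exp (1 * ((1 - ε * N) * |z.im|))) * (Real.exp (ε * |z.im|)) ^ N :=
          mul_le_mul h1 (pow_le_pow_left₀ (norm_nonneg _) h2 N) (by positivity)
            (mul_nonneg hg.b.nonneg (Real.exp_pos _).le)
      _ = M * Real.exp (1 * |z.im|) := by
          rw [mul_assoc, ← Real.exp_nat_mul, ← Real.exp_add]
          congr 2
          ring
  · unfold reg
    rw [mul_neg, hg.even, mul_neg, cs_neg]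
  · unfold reg
    have e1 : ((1 - ε * N : ℝ) : ℂ) * (x : ℂ) = (((1 - ε * N) * x : ℝ) : ℂ) := by push_cast; ring
    have e2 : (ε : ℂ) * (x : ℂ) = ((ε * x : ℝ) : ℂ) := by push_cast; ring
    rw [e1, e2, cs_real, ← Complex.ofReal_pow, Complex.im_mul_ofReal, hg.real, zero_mul]

theorem reg_decay {g : ℂ → ℂ} {M : ℝ} (hg : IsE 1 M g) (N : ℕ) {ε : ℝ} (hε : 0 < ε)
    (hεN : ε * N ≤ 1) (hε1 : ε ≤ 1) (z : ℂ) :
    ‖reg g N ε z‖ ≤ M * (2 / ε) ^ N * Real.exp |z.im| / (1 + ‖z‖) ^ N := by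
  have h0 : 0 ≤ 1 - ε * N := by linarith
  have e1 : |(((1 - ε * N : ℝ) : ℂ) * z).im| = (1 - ε * N) * |z.im| := by
    rw [Complex.im_ofReal_mul, abs_mul, abs_of_nonneg h0]
  have e2 : |((ε : ℂ) * z).im| = ε * |z.im| := by
    rw [Complex.im_ofReal_mul, abs_mul, abs_of_pos hε]
  have h1 := hg.b.bd (((1 - ε * N : ℝ) : ℂ) * z)
  rw [e1] at h1
  have h2 := norm_cs_mul ((ε : ℂ) * z)
  rw [e2, norm_mul, Complex.norm_real, Real.norm_eq_abs, abs_of_pos hε] at h2
  have hz : 0 < 1 + ‖z‖ := by positivity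
  have h3 : ‖cs ((ε : ℂ) * z)‖ * (1 + ‖z‖) ≤ (2 / ε) * Real.exp (ε * |z.im|) := by
    rw [div_mul_eq_mul_div, le_div_iff₀ hε]
    calc ‖cs ((ε : ℂ) * z)‖ * (1 + ‖z‖) * ε = ‖cs ((ε : ℂ) * z)‖ * (ε + ε * ‖z‖) := by ring
      _ ≤ ‖cs ((ε : ℂ) * z)‖ * (1 + ε * ‖z‖) := by gcongr
      _ ≤ 2 * Real.exp (ε * |z.im|) := h2
  rw [le_div_iff₀ (pow_pos hz N)]
  unfold reg
  rw [norm_mul, norm_pow, mul_assoc, ← mul_pow]
  calc _ ≤ (M * Real.exp (1 * ((1 - ε * N) * |z.im|))) * ((2 / ε) * Real.exp (ε * |z.im|)) ^ N :=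
        mul_le_mul h1 (pow_le_pow_left₀ (by positivity) h3 N) (by positivity)
          (mul_nonneg hg.b.nonneg (Real.exp_pos _).le)
    _ = M * (2 / ε) ^ N * Real.exp |z.im| := by
        rw [mul_pow, ← Real.exp_nat_mul]
        have : Real.exp |z.im| = Real.exp (1 * ((1 - ε * N) * |z.im|)) *
            Real.exp (N * (ε * |z.im|)) := by
          rw [← Real.exp_add]
          congr 1
          ring
        rw [this]
        ring

theorem reg_tendsto {g : ℂ → ℂ} {M : ℝ} (hg : IsE 1 M g) (N : ℕ) {e : ℕ → ℝ}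
    (he : Tendsto e atTop (𝓝 0)) (z : ℂ) :
    Tendsto (fun n => reg g N (e n) z) atTop (𝓝 (g z)) := by
  have h1 : Continuous fun ε : ℝ => reg g N ε z := by
    unfold reg
    refine Continuous.mul (hg.b.diff.continuous.comp ?_) ((cs_diff.continuous.comp ?_).pow N)
    · exact (Complex.continuous_ofReal.comp (by fun_prop)).mul continuous_const
    · exact Complex.continuous_ofReal.mul continuous_const
  have h2 := (h1.tendsto 0).comp he
  have h3 : reg g N 0 z = g z := by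
    unfold reg
    simp [cs_zero]
  rw [h3] at h2
  exact h2

theorem abs_Lf_le {α : ℝ} (h0 : 0 < α) (h1 : α < 1) {M : ℝ} {g : ℂ → ℂ} (hg : IsB 1 M g) :
    |Lf α g| ≤ (∑' k : ℤ, |gcos α (wf k)|) * M := by
  unfold Lf
  rw [← Real.norm_eq_abs]
  refine tsum_of_norm_bounded ((summable_gcos_int h0 h1).hasSum.mul_right M) fun k => ?_
  rw [norm_mul, Real.norm_eq_abs, Real.norm_eq_abs]
  exact mul_le_mul_of_nonneg_left ((Complex.abs_re_le_norm _).trans (hg.real_le _)) (abs_nonneg _)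

theorem Lf_G_le {α : ℝ} (h0 : 0 < α) (h1 : α < 1) (hs : IsE (1 / 2) 1 s) :
    ∃ K δ : ℝ, 0 < K ∧ 0 < δ ∧ ∀ c : ℝ, E s (c : ℂ) = 0 →
      |Lf α (G s c)| ≤ K * (1 + |c|) ^ (-1 - δ) := by
  obtain ⟨C, δ, hC, hδ, hw⟩ := weight_bound h0 h1 hs
  obtain ⟨M, hM, hG⟩ := G_isE hs
  set B : ℝ := ∑' k : ℤ, |gcos α (wf k)| with hB
  have hB0 : 0 ≤ B := tsum_nonneg fun k => abs_nonneg _
  refine ⟨B * M * 3 ^ (1 + δ) + C * (3 / 2) ^ (1 + δ), δ, ?_, hδ, fun c hc => ?_⟩
  · have : 0 < C * (3 / 2 : ℝ) ^ (1 + δ) := by positivity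
    have h2 : 0 ≤ B * M * 3 ^ (1 + δ) := by positivity
    linarith
  have hpos : 0 < 1 + |c| := by positivity
  have hX : 0 < (1 + |c|) ^ (-1 - δ) := Real.rpow_pos_of_pos hpos _
  have hneg : ∀ a : ℝ, 0 < a → a ^ (-1 - δ) = (a ^ (1 + δ))⁻¹ := by
    intro a ha
    rw [← Real.rpow_neg ha.le]
    congr 1
    ring
  rw [add_mul]
  have hA : 0 ≤ B * M * 3 ^ (1 + δ) * (1 + |c|) ^ (-1 - δ) := by positivity
  have hA' : 0 ≤ C * (3 / 2) ^ (1 + δ) * (1 + |c|) ^ (-1 - δ) := by positivity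
  by_cases hc2 : 2 ≤ |c|
  · -- large nodes
    have h3 : |Lf α (G s c)| ≤ C * |c| ^ (-1 - δ) := by
      rcases le_total 0 c with h4 | h4
      · rw [abs_of_nonneg h4] at hc2 ⊢
        exact hw c hc2 hc
      · rw [abs_of_nonpos h4] at hc2 ⊢
        have h5 : E s ((-c : ℝ) : ℂ) = 0 := by
          push_cast
          rw [E_odd hs, hc, neg_zero]
        have h6 : G s c = G s (-c) := by
          funext z
          exact (G_neg hs hc z).symm
        rw [h6]
        exact hw (-c) hc2 h5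
    have h7 : |c| ^ (-1 - δ) ≤ (3 / 2) ^ (1 + δ) * (1 + |c|) ^ (-1 - δ) := by
      have hcpos : 0 < |c| := by linarith
      rw [hneg _ hcpos, hneg _ hpos, ← div_eq_mul_inv, ← one_div, div_le_div_iff₀
        (by positivity) (by positivity), one_mul, ← Real.mul_rpow (by norm_num) hcpos.le]
      exact Real.rpow_le_rpow hpos.le (by linarith) (by linarith)
    have h8 : C * |c| ^ (-1 - δ) ≤ C * (3 / 2) ^ (1 + δ) * (1 + |c|) ^ (-1 - δ) := by
      rw [mul_assoc]
      exact mul_le_mul_of_nonneg_left h7 hC.le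
    linarith
  · have h3 : |Lf α (G s c)| ≤ B * M := abs_Lf_le h0 h1 (hG c hc).b
    have h7 : 1 ≤ 3 ^ (1 + δ) * (1 + |c|) ^ (-1 - δ) := by
      rw [hneg _ hpos, ← div_eq_mul_inv, le_div_iff₀ (by positivity), one_mul]
      exact Real.rpow_le_rpow hpos.le (by linarith [not_le.1 hc2]) (by linarith)
    have h8 : B * M * 1 ≤ B * M * (3 ^ (1 + δ) * (1 + |c|) ^ (-1 - δ)) :=
      mul_le_mul_of_nonneg_left h7 (by positivity)
    rw [mul_one, ← mul_assoc] at h8
    linarith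

end Quad

theorem weights_summable {α : ℝ} (h0 : 0 < α) (h1 : α < 1) (h : PellData s P Q) :
    Summable (fun x : Node s => |Lf α (G s x.1) / (deriv (E s) (x.1 : ℂ)).re|) := by
  obtain ⟨K, δ, hK, hδ, hb⟩ := Quad.Lf_G_le h0 h1 h.hs
  obtain ⟨c0, hc0, hlow⟩ := Eprime_lower h
  refine Summable.of_nonneg_of_le (fun x => abs_nonneg _) (fun x => ?_)
    ((nodes_summable h hδ).mul_left (K / c0))
  rw [abs_div]
  have h3 := hb x.1 x.2
  have h4 := hlow x.1 x.2
  have h5 : 0 ≤ K * (1 + |x.1|) ^ (-1 - δ) := by positivity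
  calc |Lf α (G s x.1)| / |(deriv (E s) (x.1 : ℂ)).re| ≤ (K * (1 + |x.1|) ^ (-1 - δ)) / c0 :=
        div_le_div₀ h5 h3 hc0 h4
    _ = K / c0 * (1 + |x.1|) ^ (-1 - δ) := by ring

theorem quadrature {α : ℝ} (h0 : 0 < α) (h1 : α < 1) (h : PellData s P Q) {M : ℝ} {g : ℂ → ℂ}
    (hg : IsE 1 M g) :
    HasSum (fun x : Node s => Lf α (G s x.1) / (deriv (E s) (x.1 : ℂ)).re *
      (g (x.1 : ℂ)).re) (Lf α g) := by
  obtain ⟨N, hN2, hN⟩ := interp_Lf h0 h1 h
  have hNR : (2 : ℝ) ≤ N := by exact_mod_cast hN2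
  have hN0 : (0 : ℝ) < N := by linarith
  have hw := weights_summable h0 h1 h
  set e : ℕ → ℝ := fun n => 1 / ((n : ℝ) + 1) / N with he
  have he0 : ∀ n, 0 < e n := fun n => by rw [he]; positivity
  have heN : ∀ n, e n * N ≤ 1 := by
    intro n
    rw [he]
    simp only
    rw [div_mul_cancel₀ _ hN0.ne', div_le_one (by positivity)]
    have : (0 : ℝ) ≤ n := Nat.cast_nonneg n
    linarith
  have he1 : ∀ n, e n ≤ 1 := fun n => by
    have := heN n
    nlinarith [he0 n]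
  have helim : Tendsto e atTop (𝓝 0) := by
    have := (tendsto_one_div_add_atTop_nhds_zero_nat (𝕜 := ℝ)).div_const (N : ℝ)
    rw [zero_div] at this
    exact this
  have hE : ∀ n, IsE 1 M (Quad.reg g N (e n)) := fun n => Quad.reg_isE hg N (he0 n) (heN n)
  have hsum : ∀ n, HasSum (fun x : Node s => Lf α (G s x.1) / (deriv (E s) (x.1 : ℂ)).re *
      (Quad.reg g N (e n) (x.1 : ℂ)).re) (Lf α (Quad.reg g N (e n))) := by
    intro n
    have h3 := hN _ M (M * (2 / e n) ^ N) (hE n)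
      (Quad.reg_decay hg N (he0 n) (heN n) (he1 n))
    have e3 : (fun x : Node s => Lf α (G s x.1) / (deriv (E s) (x.1 : ℂ)).re *
        (Quad.reg g N (e n) (x.1 : ℂ)).re) =
        fun x : Node s => (Quad.reg g N (e n) (x.1 : ℂ)).re / (deriv (E s) (x.1 : ℂ)).re *
          Lf α (G s x.1) := by
      funext x
      ring
    rw [e3]
    exact h3
  have hlim1 : Tendsto (fun n => Lf α (Quad.reg g N (e n))) atTop (𝓝 (Lf α g)) :=
    A6.tendsto_Lf h0 h1 (fun n => (hE n).b) fun z => Quad.reg_tendsto hg N helim z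
  have hbd : ∀ (n : ℕ) (x : Node s), ‖Lf α (G s x.1) / (deriv (E s) (x.1 : ℂ)).re *
      (Quad.reg g N (e n) (x.1 : ℂ)).re‖ ≤
      |Lf α (G s x.1) / (deriv (E s) (x.1 : ℂ)).re| * M := by
    intro n x
    rw [norm_mul, Real.norm_eq_abs, Real.norm_eq_abs]
    exact mul_le_mul_of_nonneg_left ((Complex.abs_re_le_norm _).trans ((hE n).b.real_le _))
      (abs_nonneg _)
  have hlim2 := tendsto_tsum_of_dominated_convergence
    (f := fun (n : ℕ) (x : Node s) => Lf α (G s x.1) / (deriv (E s) (x.1 : ℂ)).re *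
      (Quad.reg g N (e n) (x.1 : ℂ)).re)
    (g := fun x : Node s => Lf α (G s x.1) / (deriv (E s) (x.1 : ℂ)).re * (g (x.1 : ℂ)).re)
    (hw.mul_right M)
    (fun x => ((Complex.continuous_re.tendsto _).comp
      (Quad.reg_tendsto hg N helim _)).const_mul _)
    (Eventually.of_forall hbd)
  have hlim3 : Tendsto (fun n => Lf α (Quad.reg g N (e n))) atTop
      (𝓝 (∑' x : Node s, Lf α (G s x.1) / (deriv (E s) (x.1 : ℂ)).re * (g (x.1 : ℂ)).re)) := by
    refine hlim2.congr fun n => ?_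
    exact (hsum n).tsum_eq
  have heq := tendsto_nhds_unique hlim1 hlim3
  have hsummable : Summable (fun x : Node s => Lf α (G s x.1) / (deriv (E s) (x.1 : ℂ)).re *
      (g (x.1 : ℂ)).re) := by
    refine Summable.of_norm_bounded (hw.mul_right M) fun x => ?_
    rw [norm_mul, Real.norm_eq_abs, Real.norm_eq_abs]
    exact mul_le_mul_of_nonneg_left ((Complex.abs_re_le_norm _).trans (hg.b.real_le _))
      (abs_nonneg _)
  rw [heq]
  exact hsummable.hasSum

end Helper22.SC
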