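import Pool.Agent.Helper22.SC.LowerE
import Pool.Agent.Helper22.PA.Infinite
import Pool.Agent.Helper22.PA.Bound

/-!
[SC-Squares] Squares on which `E = s s'` is bounded below. `r = x` = the good abscissas of `PA.good_points`
(`‖s x‖ ≥ 1/2`, `‖s' x‖ ≥ c/x⁴`; they exist by `PA.crit_unbounded`; `s` is not constant by `cr`; `K = {k : s' k = 0,
‖s k‖ < 1}` is finite because Pell-Abel gives `P k = 0` there). For `|im z| ≥ y₀` (`lower_E`)
`‖E z‖ ≥ c e^{|im z|}`. For `re z = ± r`, `|im z| ≤ y₀`: `‖s z‖ ≥ 1/2` (`norm_mono`); for `|im z| ≤ η = c''/r⁴`,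
`‖s' z‖ ≥ c/(2 r⁴)` (`second_bound`); for `η ≤ |im z| ≤ y₀`, `‖s'‖ ≥ ‖s‖ |im z|/‖z - a‖²` (`norm_div_le`).
On the horizontal sides `|im z| = r ≥ y₀`. Distance to the real zeros `x` of `E`: `‖E'‖ ≤ C` in `|im| ≤ 1` near, so
`‖z - x‖ ≥ min(1, ...)`: if `‖z - x‖ < 1` then `‖E z‖ ≤ C ‖z - x‖`.
-/

set_option autoImplicit false

namespace Helper22.SC

open Complex MeasureTheory Set Filter Topology Polynomial
open Pool.Agent.Helper30.FG

variable {s : ℂ → ℂ} {P Q : ℝ[X]}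

private lemma Squares.convex_strip : Convex ℝ {z : ℂ | |z.im| ≤ 1} := by
  have h : {z : ℂ | |z.im| ≤ 1} = Complex.imLm ⁻¹' (Set.Icc (-1) 1) := by
    ext z
    simp [abs_le]
  rw [h]
  exact (convex_Icc (-1 : ℝ) 1).linear_preimage Complex.imLm

private lemma Squares.nonconst (h : PellData s P Q) : ∃ z, s z ≠ s 0 := by
  by_contra hcon
  push Not at hcon
  have h1 : s = fun _ => s 0 := funext hcon
  have h2 : deriv s I = 0 := by
    rw [h1]
    simp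
  have h3 := (h.cr I h2).1
  simp at h3

private lemma Squares.fin (h : PellData s P Q) :
    {k : ℝ | deriv s (k : ℂ) = 0 ∧ ‖s (k : ℂ)‖ < 1}.Finite := by
  have hP0 : P ≠ 0 := h.Pm.ne_zero
  refine (P.rootSet_finite ℝ).subset ?_
  rintro k ⟨hk1, hk2⟩
  rw [Polynomial.mem_rootSet]
  refine ⟨hP0, ?_⟩
  have h1 := h.eq (k : ℂ)
  rw [hk1] at h1
  have h2 : (1 - s (k : ℂ) ^ 2) ≠ 0 := by
    intro h3
    have h4 : s (k : ℂ) ^ 2 = 1 := (sub_eq_zero.1 h3).symm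
    have h5 : ‖s (k : ℂ)‖ ^ 2 = 1 := by rw [← norm_pow, h4, norm_one]
    nlinarith [norm_nonneg (s (k : ℂ))]
  have h3 : (1 - s (k : ℂ) ^ 2) * aeval (k : ℂ) P ^ 2 = 0 := by
    rw [← h1]
    ring
  rcases mul_eq_zero.1 h3 with h4 | h4
  · exact absurd h4 h2
  · have h5 : aeval (k : ℂ) P = 0 := by
      simpa using h4
    have h6 : aeval (k : ℂ) P = ((aeval k P : ℝ) : ℂ) := by
      have := Polynomial.aeval_algebraMap_apply ℂ k P
      simpa using this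
    rw [h6] at h5
    exact_mod_cast h5

private lemma Squares.E_lip {C₂ : ℝ} (hs : IsE (1 / 2) 1 s) (hC₂ : 0 < C₂)
    (hsb : ∀ z : ℂ, |z.im| ≤ 1 → ‖s z‖ ≤ C₂ ∧ ‖deriv s z‖ ≤ C₂ ∧ ‖deriv (deriv s) z‖ ≤ C₂ ∧
      ‖deriv (deriv (deriv s)) z‖ ≤ C₂) {z : ℂ} {x : ℝ} (hz : |z.im| ≤ 1)
    (hx : E s (x : ℂ) = 0) : ‖E s z‖ ≤ 2 * C₂ ^ 2 * ‖z - x‖ := by
  have hd : Differentiable ℂ s := hs.b.diff
  have hdd : Differentiable ℂ (deriv s) := differentiable_deriv hs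
  have hE : Differentiable ℂ (E s) := differentiable_E hs
  have hE' : ∀ w : ℂ, deriv (E s) w = deriv s w * deriv s w + s w * deriv (deriv s) w := by
    intro w
    exact ((hd w).hasDerivAt.mul (hdd w).hasDerivAt).deriv
  have h1 : ∀ w ∈ {z : ℂ | |z.im| ≤ 1}, ‖deriv (E s) w‖ ≤ 2 * C₂ ^ 2 := by
    intro w hw
    obtain ⟨b0, b1, b2, -⟩ := hsb w hw
    rw [hE']
    calc ‖deriv s w * deriv s w + s w * deriv (deriv s) w‖
        ≤ ‖deriv s w‖ * ‖deriv s w‖ + ‖s w‖ * ‖deriv (deriv s) w‖ := by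
          refine (norm_add_le _ _).trans ?_
          rw [norm_mul, norm_mul]
      _ ≤ C₂ * C₂ + C₂ * C₂ := by
          gcongr
      _ = 2 * C₂ ^ 2 := by ring
  have h2 := Convex.norm_image_sub_le_of_norm_deriv_le (s := {z : ℂ | |z.im| ≤ 1})
    (fun w _ => hE w) h1 Squares.convex_strip (x := (x : ℂ)) (y := z) (by simp) hz
  rw [hx, sub_zero] at h2
  exact h2

/-- Lower bound of `s'` on the vertical sides near the axis or off it. -/
private lemma Squares.deriv_low (h : PellData s P Q) {a : ℂ} (ha : s a = 0) {C₂ c : ℝ}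
    (hC₂ : 0 < C₂) (hc : 0 < c)
    (hsb : ∀ z : ℂ, |z.im| ≤ 1 → ‖s z‖ ≤ C₂ ∧ ‖deriv s z‖ ≤ C₂ ∧ ‖deriv (deriv s) z‖ ≤ C₂ ∧
      ‖deriv (deriv (deriv s)) z‖ ≤ C₂) {r : ℝ} (hr1 : 1 ≤ r)
    (hsr : 1 / 2 ≤ ‖s (r : ℂ)‖) (hdr : c / r ^ 4 ≤ ‖deriv s (r : ℂ)‖) {z : ℂ}
    (hre : |z.re| = r) (him : |z.im| ≤ r) :
    1 / 2 ≤ ‖s z‖ ∧ c / (4 * C₂ * (2 + ‖a‖) ^ 2 + 2) / r ^ 6 ≤ ‖deriv s z‖ := by
  have hE := h.evenRR
  have hr0 : 0 < r := by linarith
  have hre2 : z.re = r ∨ z.re = -r := by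
    rcases abs_choice z.re with h1 | h1
    · left; rw [← hre, h1]
    · right; rw [← hre, h1, neg_neg]
  have hsre : 1 / 2 ≤ ‖s (z.re : ℂ)‖ := by
    rcases hre2 with h1 | h1
    · rw [h1]; exact hsr
    · rw [h1]
      push_cast
      rw [hE.even]; exact hsr
  have hdre : c / r ^ 4 ≤ ‖deriv s (z.re : ℂ)‖ := by
    rcases hre2 with h1 | h1
    · rw [h1]; exact hdr
    · rw [h1]
      push_cast
      rw [hE.deriv_odd, norm_neg]; exact hdr
  have hsz : 1 / 2 ≤ ‖s z‖ := by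
    have h1 := hE.norm_mono z.re z.im
    rw [Complex.re_add_im] at h1
    exact hsre.trans h1
  refine ⟨hsz, ?_⟩
  have hzn : ‖z‖ ≤ 2 * r := by
    have h1 := Complex.norm_le_abs_re_add_abs_im z
    linarith
  have hza : ‖z - a‖ ≤ (2 + ‖a‖) * r := by
    have h1 := norm_sub_le z a
    have h2 : ‖a‖ ≤ ‖a‖ * r := le_mul_of_one_le_right (norm_nonneg _) hr1
    linarith
  have hC₂c : c / r ^ 4 ≤ C₂ := by
    refine hdr.trans ((hsb (r : ℂ) ?_).2.1)
    simp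
  set η : ℝ := c / (2 * C₂ * r ^ 4) with hη
  have hη0 : 0 < η := by positivity
  have hη1 : η ≤ 1 := by
    rw [hη, div_le_one (by positivity)]
    rw [div_le_iff₀ (by positivity)] at hC₂c
    have : 0 ≤ C₂ * r ^ 4 := by positivity
    linarith
  set K : ℝ := 4 * C₂ * (2 + ‖a‖) ^ 2 + 2 with hK
  have hK0 : 0 < K := by positivity
  have hK2 : 2 ≤ K := by
    have : 0 ≤ 4 * C₂ * (2 + ‖a‖) ^ 2 := by positivity
    linarith
  rcases le_total η |z.im| with hcase | hcase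
  · have him0 : z.im ≠ 0 := by
      intro h0
      rw [h0, abs_zero] at hcase
      linarith
    have him1 : 0 < |z.im| := abs_pos.2 him0
    have hd0 : deriv s z ≠ 0 := fun h0 => him0 (hE.crit_real ha h0)
    have hd1 : 0 < ‖deriv s z‖ := norm_pos_iff.2 hd0
    have h1 := hE.norm_div_le ha him0
    rw [norm_div, div_le_div_iff₀ hd1 him1] at h1
    -- ‖s z‖ * |im z| ≤ ‖z - a‖^2 * ‖deriv s z‖
    have h2 : 1 / 2 * η ≤ ((2 + ‖a‖) * r) ^ 2 * ‖deriv s z‖ := by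
      calc 1 / 2 * η ≤ ‖s z‖ * |z.im| := by gcongr
        _ ≤ ‖z - a‖ ^ 2 * ‖deriv s z‖ := h1
        _ ≤ ((2 + ‖a‖) * r) ^ 2 * ‖deriv s z‖ := by gcongr
    have h3 : c / (4 * C₂ * (2 + ‖a‖) ^ 2) / r ^ 6 ≤ ‖deriv s z‖ := by
      have h4 : c / (4 * C₂ * (2 + ‖a‖) ^ 2) / r ^ 6 = (1 / 2 * η) / ((2 + ‖a‖) * r) ^ 2 := by
        rw [hη]
        have : (2 + ‖a‖) ≠ 0 := by positivity
        field_simp
        ring
      rw [h4, div_le_iff₀ (by positivity)]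
      linarith
    refine le_trans ?_ h3
    have h5 : 4 * C₂ * (2 + ‖a‖) ^ 2 ≤ K := by rw [hK]; linarith
    gcongr
  · have hz1 : |z.im| ≤ 1 := hcase.trans hη1
    have hmv : ‖deriv s z - deriv s (z.re : ℂ)‖ ≤ C₂ * ‖z - (z.re : ℂ)‖ := by
      have hdd : Differentiable ℂ (deriv s) := differentiable_deriv h.hs
      refine Convex.norm_image_sub_le_of_norm_deriv_le (s := {z : ℂ | |z.im| ≤ 1})
        (fun w _ => hdd w) (fun w hw => (hsb w hw).2.2.1) Squares.convex_strip ?_ hz1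
      simp
    have hzr : ‖z - (z.re : ℂ)‖ = |z.im| := by
      have : z - (z.re : ℂ) = (z.im : ℂ) * I := Complex.ext (by simp) (by simp)
      rw [this]
      simp
    rw [hzr] at hmv
    have hlow : c / (2 * r ^ 4) ≤ ‖deriv s z‖ := by
      have h1 : ‖deriv s (z.re : ℂ)‖ - ‖deriv s z‖ ≤ ‖deriv s z - deriv s (z.re : ℂ)‖ := by
        rw [norm_sub_rev]
        exact norm_sub_norm_le _ _
      have h2 : C₂ * |z.im| ≤ C₂ * η := by gcongr
      have h3 : C₂ * η = c / (2 * r ^ 4) := by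
        rw [hη]
        field_simp
      have h4 : c / r ^ 4 = c / (2 * r ^ 4) + c / (2 * r ^ 4) := by
        field_simp
        ring
      linarith
    refine le_trans ?_ hlow
    rw [div_div]
    have h5 : r ^ 4 ≤ r ^ 6 := pow_le_pow_right₀ hr1 (by norm_num)
    gcongr

theorem squares (h : PellData s P Q) : ∃ (c : ℝ) (N : ℕ), 0 < c ∧
    ∀ R₀ : ℝ, ∃ r : ℝ, R₀ ≤ r ∧ 1 ≤ r ∧ ∀ z : ℂ,
      ((|z.re| = r ∧ |z.im| ≤ r) ∨ (|z.re| ≤ r ∧ |z.im| = r)) →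
        c * Real.exp |z.im| / r ^ N ≤ ‖E s z‖ ∧
          ∀ x : ℝ, E s (x : ℂ) = 0 → c / r ^ N ≤ ‖z - x‖ := by
  have hs := h.hs
  have hE := h.evenRR
  have hnc := Squares.nonconst h
  obtain ⟨a, -, ha⟩ := PA.zeros_unbounded hs hE hnc 0
  obtain ⟨c₀, hc₀, hgood⟩ := PA.good_points hs hE ha
    (fun R₀ => PA.crit_unbounded hs hE hnc (Squares.fin h) R₀)
  obtain ⟨C₂, hC₂, hsb⟩ := PA.second_bound hs
  obtain ⟨y₀, c₁, hy₀, hc₁, hlow⟩ := lower_E h
  set K : ℝ := 4 * C₂ * (2 + ‖(a : ℂ)‖) ^ 2 + 2 with hK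
  have hK0 : 0 < K := by positivity
  set c' : ℝ := min c₁ (1 / 2 * (c₀ / K) / Real.exp y₀) with hc'
  have hc'0 : 0 < c' := lt_min hc₁ (by positivity)
  set c : ℝ := min (min c' 1) (c' / (2 * C₂ ^ 2)) with hc
  have hc0 : 0 < c := lt_min (lt_min hc'0 one_pos) (by positivity)
  have hcc' : c ≤ c' := (min_le_left _ _).trans (min_le_left _ _)
  have hc1 : c ≤ 1 := (min_le_left _ _).trans (min_le_right _ _)
  have hcC : c ≤ c' / (2 * C₂ ^ 2) := min_le_right _ _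
  refine ⟨c, 6, hc0, fun R₀ => ?_⟩
  obtain ⟨r, hrR, hr1, hsr, hdr⟩ := hgood (max R₀ y₀)
  have hr0 : 0 < r := by linarith
  have hr6 : 1 ≤ r ^ 6 := one_le_pow₀ hr1
  have hr60 : 0 < r ^ 6 := by positivity
  refine ⟨r, (le_max_left _ _).trans hrR, hr1, fun z hz => ?_⟩
  have hyr : y₀ ≤ r := (le_max_right _ _).trans hrR
  have hmain : c' * Real.exp |z.im| / r ^ 6 ≤ ‖E s z‖ := by
    rcases le_or_gt y₀ |z.im| with h1 | h1
    · calc c' * Real.exp |z.im| / r ^ 6 ≤ c' * Real.exp |z.im| :=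
            div_le_self (by positivity) hr6
        _ ≤ c₁ * Real.exp |z.im| := by
            gcongr
            exact min_le_left _ _
        _ ≤ ‖E s z‖ := hlow z h1
    · have hv : |z.re| = r ∧ |z.im| ≤ r := by
        rcases hz with h2 | ⟨h2, h3⟩
        · exact h2
        · exfalso
          linarith
      obtain ⟨h5, h6⟩ := Squares.deriv_low h ha hC₂ hc₀ hsb hr1 hsr hdr hv.1 hv.2
      rw [← hK] at h6
      have h7 : c' * Real.exp |z.im| ≤ 1 / 2 * (c₀ / K) := by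
        calc c' * Real.exp |z.im| ≤ (1 / 2 * (c₀ / K) / Real.exp y₀) * Real.exp y₀ := by
              gcongr
              exact min_le_right _ _
          _ = 1 / 2 * (c₀ / K) := by
              field_simp
      calc c' * Real.exp |z.im| / r ^ 6 ≤ 1 / 2 * (c₀ / K) / r ^ 6 := by gcongr
        _ = 1 / 2 * (c₀ / K / r ^ 6) := by ring
        _ ≤ ‖s z‖ * ‖deriv s z‖ := by gcongr
        _ = ‖E s z‖ := by rw [E, norm_mul]
  refine ⟨le_trans (by gcongr) hmain, fun x hx => ?_⟩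
  rcases le_total 1 ‖z - x‖ with h1 | h1
  · exact ((div_le_self hc0.le hr6).trans hc1).trans h1
  · have him : |z.im| ≤ 1 := by
      have h2 := Complex.abs_im_le_norm (z - x)
      have h3 : (z - x).im = z.im := by simp
      rw [h3] at h2
      linarith
    have h2 := Squares.E_lip hs hC₂ hsb him hx
    have h3 : c' / r ^ 6 ≤ 2 * C₂ ^ 2 * ‖z - x‖ := by
      refine le_trans ?_ (hmain.trans h2)
      have h4 : 1 ≤ Real.exp |z.im| := Real.one_le_exp (abs_nonneg _)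
      have h5 : c' ≤ c' * Real.exp |z.im| := le_mul_of_one_le_right hc'0.le h4
      gcongr
    calc c / r ^ 6 ≤ (c' / (2 * C₂ ^ 2)) / r ^ 6 := by gcongr
      _ = (c' / r ^ 6) / (2 * C₂ ^ 2) := by ring
      _ ≤ ‖z - x‖ := by
          rw [div_le_iff₀ (by positivity)]
          linarith

end Helper22.SC
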