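import Pool.Agent.Helper22.SC.Quad
import Pool.Agent.Helper30.FG.C0
import Pool.Agent.Helper30.FG.C5

/-!
[SC-Suff] Quadrature formula and the sufficient condition.
quadrature: `w x = L(G_x)/E'(x)` is summable over the nodes (`weight_bound`, `Eprime_lower`, `nodes_summable`, finitely
many nodes with `|c| < 2`). For `g` in `IsE 1 M` let `g_ε z = g((1 - ε N₀) z) (sin (ε z)/(ε z))^{N₀}` (entire
version of sin z/z as in `Helper30/FG/A3.lean`): `IsE 1 M` on the real line bounded by `M`, decay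
`C_ε e^{|Im z|}/(1+‖z‖)^{N₀}`, `g_ε → g` pointwise as `ε → 0`; `interp_Lf`, `tendsto_Lf`, dominated convergence.
sufficient: `f = 1 - 2 s²`, `f*` the maximiser (D1, C5: `Lf f* = bernsteinNorm`):
`Lf f* = ∑ w f* ≤ ∑ |w| = ∑ w f = Lf f = J s` since `w x = |w x| f(x)`: `f(x) = 1` at zeros of `s` (`E' > 0`), `f(x) = -1`
where `|s| = 1` (`E' < 0`), `w x = 0` where `|s| < 1`.
-/

set_option autoImplicit false

namespace Helper22.SC

open Complex MeasureTheory Set Filter Topology Polynomial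
open Pool.Agent.Helper30.FG Pool.Agent.Helper78.Bern Pool.Agent.Helper45.Bern

variable {s : ℂ → ℂ} {P Q : ℝ[X]}

namespace Suff

/-- the value of `1 - 2 s²` on the real line -/
theorem re_val {a M : ℝ} {t : ℂ → ℂ} (ht : IsE a M t) (x : ℝ) :
    (1 - 2 * t (x : ℂ) ^ 2).re = 1 - 2 * (t (x : ℂ)).re ^ 2 := by
  have h1 : t (x : ℂ) = (((t (x : ℂ)).re : ℝ) : ℂ) := by
    apply Complex.ext
    · simp
    · simpa using ht.real x
  rw [h1]
  have h2 : (1 : ℂ) - 2 * (((t (x : ℂ)).re : ℝ) : ℂ) ^ 2 =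
      ((1 - 2 * (t (x : ℂ)).re ^ 2 : ℝ) : ℂ) := by push_cast; ring
  rw [h2, Complex.ofReal_re, Complex.ofReal_re]

/-- at each node the weight times the value of `1 - 2 s²` is the absolute value of the weight -/
theorem weight_mul {α : ℝ} (h : PellData s P Q)
    (hsign : ∀ c : ℝ, E s (c : ℂ) = 0 → 0 ≤ Lf α (G s c))
    (hgap : ∀ c : ℝ, deriv s (c : ℂ) = 0 → ‖s (c : ℂ)‖ < 1 → Lf α (G s c) = 0) (x : Node s) :
    Lf α (G s x.1) / (deriv (E s) (x.1 : ℂ)).re * (1 - 2 * s (x.1 : ℂ) ^ 2).re =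
      |Lf α (G s x.1) / (deriv (E s) (x.1 : ℂ)).re| := by
  have hL := hsign x.1 x.2
  rw [re_val h.hs]
  rcases mul_eq_zero.1 (show s (x.1 : ℂ) * deriv s (x.1 : ℂ) = 0 from x.2) with h1 | h1
  · have h2 := Eprime_zero h h1
    rw [h1, Complex.zero_re, abs_of_nonneg (div_nonneg hL h2.le)]
    ring
  · have h3 : ‖s (x.1 : ℂ)‖ ≤ 1 := h.hs.b.real_le x.1
    rcases h3.lt_or_eq with h4 | h4
    · rw [hgap x.1 h1 h4, zero_div, abs_zero, zero_mul]
    · have h2 := Eprime_crit h h1 h4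
      have h5 : (s (x.1 : ℂ)).re ^ 2 = 1 := by
        have h6 : ‖s (x.1 : ℂ)‖ ^ 2 = (s (x.1 : ℂ)).re ^ 2 := by
          rw [Complex.sq_norm, Complex.normSq_apply, h.hs.real x.1]
          ring
        rw [← h6, h4, one_pow]
      rw [h5, abs_of_nonpos (div_nonpos_of_nonneg_of_nonpos hL h2.le)]
      ring

end Suff

theorem sufficient {α : ℝ} (h0 : 0 < α) (h1 : α < 1) (h : PellData s P Q)
    (hsign : ∀ c : ℝ, E s (c : ℂ) = 0 → 0 ≤ Lf α (G s c))
    (hgap : ∀ c : ℝ, deriv s (c : ℂ) = 0 → ‖s (c : ℂ)‖ < 1 → Lf α (G s c) = 0) :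
    J α s = bernsteinNorm α := by
  refine le_antisymm (J_le h0 h1 h.hs) (norm_le_of_J_le h0 h1 fun t ht => ?_)
  obtain ⟨hE, hJ⟩ := J_eq h0 h1 h.hs
  obtain ⟨hE', hJ'⟩ := J_eq h0 h1 ht
  rw [← hJ, ← hJ']
  refine hasSum_le (fun x => ?_) (quadrature h0 h1 h hE') (quadrature h0 h1 h hE)
  rw [Suff.weight_mul h hsign hgap x]
  refine (le_abs_self _).trans ?_
  rw [abs_mul]
  refine mul_le_of_le_one_right (abs_nonneg _) ?_
  exact (Complex.abs_re_le_norm _).trans (hE'.b.real_le x.1)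

end Helper22.SC
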