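import Pool.Agent.Helper22.SC.Weight
import Pool.Agent.Helper22.SC.LowerE
import Pool.Agent.Helper30.FG.D3b

/-!
[SC-Tail] The inequalities are automatic for large nodes (see the header of `Weight.lean`, weight_pos).

`Lf α (G_c) = C_α ∫ t^{-α-1} (2 e^{-t} A(t) + e^{-t} Pois t G_c)`, `A(t) = -Re G_c(it) = t S S'/(t²+c²)`, `S(t) = s(it)`.
`S S'` does not vanish for `t > 0` (the zeros of `E` are real), so it has a constant sign; it is positive, as `S²` would
otherwise tend to `-∞` (`lower_E`). The part over `[c, 2c]` of the first term is at least `(c₁/5) c^{-1-α}`, the Poisson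
term is `O(c^{(1-α)/2 - 2})`.
-/

set_option autoImplicit false

namespace Helper22.SC

open Complex MeasureTheory Set Filter Topology Polynomial
open Pool.Agent.Helper30.FG Pool.Agent.Helper78.Bern Pool.Agent.Helper45.Bern

variable {s : ℂ → ℂ} {P Q : ℝ[X]}

namespace Tail

private theorem log_bound {x ε : ℝ} (hx : 0 ≤ x) (hε0 : 0 < ε) (hε1 : ε ≤ 1) :
    Real.log (1 + x) ≤ x ^ ε / ε := by
  have h1 : (1 + x) ^ ε ≤ 1 ^ ε + x ^ ε := Real.rpow_add_le_add_rpow zero_le_one hx hε0.le hε1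
  rw [Real.one_rpow] at h1
  have h2 : 0 < 1 + x := by linarith
  have h3 : Real.log ((1 + x) ^ ε) = ε * Real.log (1 + x) := Real.log_rpow h2 ε
  have h4 : Real.log ((1 + x) ^ ε) ≤ (1 + x) ^ ε - 1 :=
    Real.log_le_sub_one_of_pos (Real.rpow_pos_of_pos h2 _)
  rw [le_div_iff₀ hε0]
  linarith

/-- the logarithmic terms -/
private theorem log_terms {α t c : ℝ} (h0 : 0 < α) (h1 : α < 1) (ht : 0 < t) (hc : 1 ≤ c) :
    1 + Real.log c + Real.log (1 + c ^ 2 / t ^ 2) ≤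
      c ^ ((1 - α) / 2) * (1 + 2 / (1 - α) + 4 / (1 - α) * t ^ (-((1 - α) / 2))) := by
  have hc0 : 0 < c := by linarith
  have ha : 0 < 1 - α := by linarith
  have hA : 1 ≤ c ^ ((1 - α) / 2) := Real.one_le_rpow hc (by linarith)
  have hB : Real.log c ≤ 2 / (1 - α) * c ^ ((1 - α) / 2) := by
    have h2 := Real.log_le_rpow_div hc0.le (show 0 < (1 - α) / 2 by linarith)
    refine h2.trans (le_of_eq ?_)
    field_simp
  have hC : Real.log (1 + c ^ 2 / t ^ 2) ≤
      4 / (1 - α) * (c ^ ((1 - α) / 2) * t ^ (-((1 - α) / 2))) := by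
    have hε0 : 0 < (1 - α) / 4 := by linarith
    have h2 := log_bound (x := c ^ 2 / t ^ 2) (by positivity) hε0 (by linarith)
    refine h2.trans (le_of_eq ?_)
    have h3 : (c ^ 2 / t ^ 2) ^ ((1 - α) / 4) = c ^ ((1 - α) / 2) * t ^ (-((1 - α) / 2)) := by
      rw [Real.div_rpow (by positivity) (by positivity), ← Real.rpow_natCast c,
        ← Real.rpow_natCast t, ← Real.rpow_mul hc0.le, ← Real.rpow_mul ht.le,
        Real.rpow_neg ht.le, div_eq_mul_inv]
      congr 2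
      · push_cast
        ring
      · congr 1
        push_cast
        ring
    rw [h3]
    field_simp
  calc 1 + Real.log c + Real.log (1 + c ^ 2 / t ^ 2) ≤
        c ^ ((1 - α) / 2) + 2 / (1 - α) * c ^ ((1 - α) / 2) +
          4 / (1 - α) * (c ^ ((1 - α) / 2) * t ^ (-((1 - α) / 2))) := by linarith
    _ = _ := by ring

/-- the majorant of the Poisson part -/
private noncomputable def H (α t : ℝ) : ℝ :=
  (1 + 2 / (1 - α)) * (Real.exp (-t) * t ^ ((1 - α) - 1)) +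
    4 / (1 - α) * (Real.exp (-t) * t ^ ((1 - α) / 2 - 1))

private theorem integrable_H {α : ℝ} (h1 : α < 1) : IntegrableOn (H α) (Ioi 0) := by
  have i2 := (Real.GammaIntegral_convergent (s := 1 - α) (by linarith)).const_mul
    (1 + 2 / (1 - α))
  have i3 := (Real.GammaIntegral_convergent (s := (1 - α) / 2) (by linarith)).const_mul
    (4 / (1 - α))
  exact i2.add i3

private theorem pois_le {α C₂ t c p : ℝ} (h0 : 0 < α) (h1 : α < 1) (hC₂ : 0 < C₂) (ht : 0 < t)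
    (hc : 1 ≤ c)
    (hp : |p| ≤ C₂ * t * (1 + Real.log c + Real.log (1 + c ^ 2 / t ^ 2)) / c ^ 2) :
    t ^ (-α - 1) * (Real.exp (-t) * |p|) ≤ C₂ * c ^ ((1 - α) / 2) / c ^ 2 * H α t := by
  have hc0 : 0 < c := by linarith
  have hpt : 0 < t ^ (-α - 1) := Real.rpow_pos_of_pos ht _
  have he : 0 < Real.exp (-t) := Real.exp_pos _
  have h2 := log_terms h0 h1 ht hc
  have h3 : |p| ≤ C₂ * t * (c ^ ((1 - α) / 2) *
      (1 + 2 / (1 - α) + 4 / (1 - α) * t ^ (-((1 - α) / 2)))) / c ^ 2 := by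
    refine hp.trans ?_
    exact div_le_div_of_nonneg_right (mul_le_mul_of_nonneg_left h2 (by positivity)) (by positivity)
  have h4 : t ^ (-α - 1) * t = t ^ ((1 - α) - 1) := by
    nth_rewrite 2 [← Real.rpow_one t]
    rw [← Real.rpow_add ht]
    congr 1
    ring
  have h5 : t ^ (-α - 1) * t * t ^ (-((1 - α) / 2)) = t ^ ((1 - α) / 2 - 1) := by
    rw [h4, ← Real.rpow_add ht]
    congr 1
    ring
  calc t ^ (-α - 1) * (Real.exp (-t) * |p|) ≤ t ^ (-α - 1) * (Real.exp (-t) *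
        (C₂ * t * (c ^ ((1 - α) / 2) *
          (1 + 2 / (1 - α) + 4 / (1 - α) * t ^ (-((1 - α) / 2)))) / c ^ 2)) :=
        mul_le_mul_of_nonneg_left (mul_le_mul_of_nonneg_left h3 he.le) hpt.le
    _ = C₂ * c ^ ((1 - α) / 2) / c ^ 2 * ((1 + 2 / (1 - α)) *
          (Real.exp (-t) * (t ^ (-α - 1) * t)) +
          4 / (1 - α) * (Real.exp (-t) * (t ^ (-α - 1) * t * t ^ (-((1 - α) / 2))))) := by ring
    _ = _ := by rw [h5, h4, H]

/-- the analytic core -/
private theorem core {α c₁ y₀ C₂ : ℝ} (h0 : 0 < α) (h1 : α < 1) (hc₁ : 0 < c₁) (_hy : 1 ≤ y₀)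
    (hC₂ : 0 < C₂) :
    ∃ K : ℝ, 2 ≤ K ∧ ∀ c : ℝ, K ≤ c → ∀ u A P : ℝ → ℝ, IntegrableOn u (Ioi 0) →
      (∀ t, 0 < t → u t = t ^ (-α - 1) * (2 * Real.exp (-t) * A t + Real.exp (-t) * P t)) →
      (∀ t, 0 < t → 0 ≤ A t) →
      (∀ t, y₀ ≤ t → c₁ * t * Real.exp t / (t ^ 2 + c ^ 2) ≤ A t) →
      (∀ t, 0 < t →
        |P t| ≤ C₂ * t * (1 + Real.log c + Real.log (1 + c ^ 2 / t ^ 2)) / c ^ 2) →
      0 < ∫ t in Ioi (0 : ℝ), u t := by
  set B : ℝ := ∫ t in Ioi (0 : ℝ), H α t with hB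
  have htend : Tendsto (fun c : ℝ => c ^ ((1 - α) / 2)) atTop atTop :=
    tendsto_rpow_atTop (by linarith)
  obtain ⟨K₀, hK₀⟩ := Filter.eventually_atTop.1 (htend.eventually_gt_atTop (5 * C₂ * B / c₁))
  refine ⟨max K₀ (max 2 y₀), (le_max_left _ _).trans (le_max_right _ _), ?_⟩
  intro c hc u A P hu hrep hA hA2 hP
  have hcK : K₀ ≤ c := (le_max_left _ _).trans hc
  have hc2 : 2 ≤ c := ((le_max_left _ _).trans (le_max_right _ _)).trans hc
  have hcy : y₀ ≤ c := ((le_max_right _ _).trans (le_max_right _ _)).trans hc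
  have hc0 : 0 < c := by linarith
  have hbig := hK₀ c hcK
  set κ : ℝ := 2 * c₁ * (2 * c) ^ (-α) / (5 * c ^ 2) with hκ
  have hκ0 : 0 < κ := by positivity
  set D : ℝ := C₂ * c ^ ((1 - α) / 2) / c ^ 2 with hD
  have hIcc : MeasurableSet (Icc c (2 * c)) := measurableSet_Icc
  have hind : IntegrableOn (fun t => (Icc c (2 * c)).indicator (fun _ => κ) t) (Ioi 0) := by
    have h2 : Integrable ((Icc c (2 * c)).indicator (fun _ => κ) : ℝ → ℝ) := by
      rw [integrable_indicator_iff hIcc]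
      exact integrableOn_const (by simp)
    exact h2.integrableOn
  have hlow : IntegrableOn (fun t => (Icc c (2 * c)).indicator (fun _ => κ) t - D * H α t)
      (Ioi 0) := hind.sub ((integrable_H h1).const_mul D)
  have hpt : ∀ t ∈ Ioi (0 : ℝ), (Icc c (2 * c)).indicator (fun _ => κ) t - D * H α t ≤ u t := by
    intro t ht
    have ht0 : 0 < t := ht
    have hp1 : 0 < t ^ (-α - 1) := Real.rpow_pos_of_pos ht0 _
    have he : 0 < Real.exp (-t) := Real.exp_pos _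
    have h2 := pois_le h0 h1 hC₂ ht0 (by linarith : 1 ≤ c) (hP t ht0)
    have h3 : -(t ^ (-α - 1) * (Real.exp (-t) * |P t|)) ≤ t ^ (-α - 1) * (Real.exp (-t) * P t) := by
      rw [← mul_neg, ← mul_neg]
      exact mul_le_mul_of_nonneg_left (mul_le_mul_of_nonneg_left (neg_abs_le _) he.le) hp1.le
    have h4 : (Icc c (2 * c)).indicator (fun _ => κ) t ≤
        t ^ (-α - 1) * (2 * Real.exp (-t) * A t) := by
      by_cases hm : t ∈ Icc c (2 * c)
      · rw [indicator_of_mem hm]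
        have hm1 : c ≤ t := hm.1
        have hm2 : t ≤ 2 * c := hm.2
        have h5 := hA2 t (hcy.trans hm1)
        have h6 : 0 < t ^ 2 + c ^ 2 := by positivity
        have h7 : t ^ 2 + c ^ 2 ≤ 5 * c ^ 2 := by nlinarith
        have h8 : Real.exp (-t) * Real.exp t = 1 := by rw [← Real.exp_add]; simp
        have h9 : t ^ (-α - 1) * t = t ^ (-α) := by
          nth_rewrite 2 [← Real.rpow_one t]
          rw [← Real.rpow_add ht0]
          congr 1
          ring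
        have h10 : (2 * c) ^ (-α) ≤ t ^ (-α) :=
          Real.rpow_le_rpow_of_nonpos ht0 hm2 (by linarith)
        calc κ = 2 * c₁ * ((2 * c) ^ (-α) / (5 * c ^ 2)) := by rw [hκ]; ring
          _ ≤ 2 * c₁ * (t ^ (-α) / (t ^ 2 + c ^ 2)) := by
              refine mul_le_mul_of_nonneg_left ?_ (by positivity)
              exact div_le_div₀ (by positivity) h10 h6 h7
          _ = t ^ (-α - 1) * (2 * Real.exp (-t) * (c₁ * t * Real.exp t / (t ^ 2 + c ^ 2))) := by
              rw [← h9]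
              calc 2 * c₁ * (t ^ (-α - 1) * t / (t ^ 2 + c ^ 2)) =
                    2 * c₁ * (t ^ (-α - 1) * t / (t ^ 2 + c ^ 2)) * 1 := by ring
                _ = _ := by rw [← h8]; ring
          _ ≤ _ := by gcongr
      · rw [indicator_of_notMem hm]
        have := hA t ht0
        positivity
    rw [hrep t ht0, mul_add]
    linarith
  have hmono : ∫ t in Ioi (0 : ℝ), ((Icc c (2 * c)).indicator (fun _ => κ) t - D * H α t) ≤
      ∫ t in Ioi (0 : ℝ), u t := setIntegral_mono_on hlow hu measurableSet_Ioi hpt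
  refine lt_of_lt_of_le ?_ hmono
  rw [integral_sub hind ((integrable_H h1).const_mul D), integral_const_mul]
  have hval : ∫ t in Ioi (0 : ℝ), (Icc c (2 * c)).indicator (fun _ => κ) t = c * κ := by
    rw [setIntegral_indicator hIcc]
    have h2 : Ioi (0 : ℝ) ∩ Icc c (2 * c) = Icc c (2 * c) :=
      inter_eq_right.2 fun t ht => lt_of_lt_of_le hc0 ht.1
    rw [h2, setIntegral_const, smul_eq_mul]
    congr 1
    rw [Measure.real, Real.volume_Icc, ENNReal.toReal_ofReal (by linarith)]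
    ring
  rw [hval, ← hB, sub_pos]
  -- compare
  have e1 : (2 * c) ^ (-α) = 2 ^ (-α) * c ^ (-α) := Real.mul_rpow (by norm_num) hc0.le
  have e2 : (1 / 2 : ℝ) ≤ 2 ^ (-α) := by
    have h2 : (2 : ℝ) ^ (-1 : ℝ) ≤ 2 ^ (-α) :=
      Real.rpow_le_rpow_of_exponent_le (by norm_num) (by linarith)
    have h3 : (2 : ℝ) ^ (-1 : ℝ) = 1 / 2 := by rw [Real.rpow_neg_one]; norm_num
    rw [h3] at h2
    exact h2
  have e3 : c ^ (-α) = c ^ ((1 - α) / 2) * c ^ ((1 - α) / 2) / c := by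
    rw [eq_div_iff hc0.ne', ← Real.rpow_add hc0]
    nth_rewrite 2 [← Real.rpow_one c]
    rw [← Real.rpow_add hc0]
    congr 1
    ring
  have hq : 0 < c ^ ((1 - α) / 2) := Real.rpow_pos_of_pos hc0 _
  have h5 : 5 * C₂ * B < c₁ * c ^ ((1 - α) / 2) := by
    rw [div_lt_iff₀ hc₁] at hbig
    linarith
  have h6 : D * B = c ^ ((1 - α) / 2) / c ^ 2 * (5 * C₂ * B) / 5 := by
    rw [hD]
    ring
  have h7 : c ^ ((1 - α) / 2) / c ^ 2 * (c₁ * c ^ ((1 - α) / 2)) / 5 ≤ c * κ := by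
    have h8 : c * κ = 2 * c₁ * 2 ^ (-α) * (c ^ ((1 - α) / 2) * c ^ ((1 - α) / 2) / c ^ 2) / 5 := by
      rw [hκ, e1, e3]
      field_simp
    rw [h8]
    have h9 : 0 < c ^ ((1 - α) / 2) * c ^ ((1 - α) / 2) / c ^ 2 := by positivity
    have h10 : c₁ ≤ 2 * c₁ * 2 ^ (-α) := by nlinarith
    calc c ^ ((1 - α) / 2) / c ^ 2 * (c₁ * c ^ ((1 - α) / 2)) / 5 =
          c₁ * (c ^ ((1 - α) / 2) * c ^ ((1 - α) / 2) / c ^ 2) / 5 := by ring
      _ ≤ 2 * c₁ * 2 ^ (-α) * (c ^ ((1 - α) / 2) * c ^ ((1 - α) / 2) / c ^ 2) / 5 := by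
          gcongr
  rw [h6]
  refine lt_of_lt_of_le ?_ h7
  have h11 : 0 < c ^ ((1 - α) / 2) / c ^ 2 := by positivity
  have := mul_lt_mul_of_pos_left h5 h11
  linarith

/-- `i E(it)` is real -/
private noncomputable def W (s : ℂ → ℂ) (t : ℝ) : ℝ := Sv s t * deriv (Sv s) t

private theorem E_imag (hs : IsE (1 / 2) 1 s) (t : ℝ) :
    E s ((t : ℂ) * I) * I = (W s t : ℂ) := by
  unfold E W
  rw [mul_assoc, D3b.deriv_imag hs, D3b.imag_real hs]
  push_cast
  ring

private theorem W_abs (hs : IsE (1 / 2) 1 s) (t : ℝ) : |W s t| = ‖E s ((t : ℂ) * I)‖ := by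
  have h := congrArg norm (E_imag hs t)
  rw [norm_mul, Complex.norm_I, mul_one, Complex.norm_real, Real.norm_eq_abs] at h
  exact h.symm

private theorem W_cont (hs : IsE (1 / 2) 1 s) : Continuous (W s) := by
  have h : W s = fun t : ℝ => (E s ((t : ℂ) * I) * I).re := by
    funext t
    rw [E_imag hs, Complex.ofReal_re]
  rw [h]
  have h2 : Continuous (E s) := (differentiable_E hs).continuous
  exact Complex.continuous_re.comp
    ((h2.comp (Complex.continuous_ofReal.mul continuous_const)).mul continuous_const)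

private theorem W_ne (h : PellData s P Q) {t : ℝ} (ht : 0 < t) : W s t ≠ 0 := by
  intro h0
  have h2 := W_abs h.hs t
  rw [h0, abs_zero, eq_comm, norm_eq_zero] at h2
  unfold E at h2
  have h3 : ((t : ℂ) * I).im = t := by simp
  rcases mul_eq_zero.1 h2 with h4 | h4
  · exact ht.ne' (h3 ▸ (h.zr _ h4).1)
  · exact ht.ne' (h3 ▸ (h.cr _ h4).1)

private theorem W_lower (hs : IsE (1 / 2) 1 s) {y₀ c₁ : ℝ} (hy : 1 ≤ y₀)
    (hE : ∀ z : ℂ, y₀ ≤ |z.im| → c₁ * Real.exp |z.im| ≤ ‖E s z‖) {t : ℝ} (ht : y₀ ≤ t) :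
    c₁ * Real.exp t ≤ |W s t| := by
  have h3 : |((t : ℂ) * I).im| = t := by
    have : ((t : ℂ) * I).im = t := by simp
    rw [this, abs_of_nonneg (by linarith)]
  have h4 := hE ((t : ℂ) * I) (by rw [h3]; exact ht)
  rw [h3] at h4
  rw [W_abs hs]
  exact h4

private theorem W_pos (h : PellData s P Q) {y₀ c₁ : ℝ} (hy : 1 ≤ y₀) (hc₁ : 0 < c₁)
    (hE : ∀ z : ℂ, y₀ ≤ |z.im| → c₁ * Real.exp |z.im| ≤ ‖E s z‖) {t : ℝ} (ht : 0 < t) :
    0 < W s t := by
  have hcont := W_cont h.hs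
  -- constant sign
  have hsign : ∀ a b : ℝ, 0 < a → 0 < b → W s a < 0 → W s b < 0 := by
    intro a b ha hb hWa
    by_contra hWb
    push Not at hWb
    have hpre : IsPreconnected (Ioi (0 : ℝ)) := isPreconnected_Ioi
    obtain ⟨x, hx, hx0⟩ := hpre.intermediate_value ha hb hcont.continuousOn
      (⟨hWa.le, hWb⟩ : (0 : ℝ) ∈ Icc (W s a) (W s b))
    exact W_ne h hx hx0
  by_contra hneg
  have hlt : W s t < 0 := lt_of_le_of_ne (not_lt.1 hneg) (W_ne h ht)
  set q : ℝ → ℝ := fun x => Sv s x ^ 2 with hq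
  have hder : ∀ x : ℝ, HasDerivAt q (2 * W s x) x := by
    intro x
    have hd : HasDerivAt (Sv s) (deriv (Sv s) x) x :=
      (D3b.hasDeriv_Sv h.hs.b.diff x).differentiableAt.hasDerivAt
    refine (hd.pow 2).congr_deriv ?_
    unfold W
    norm_num
    ring
  have hle : ∀ x : ℝ, y₀ ≤ x → W s x ≤ -c₁ := by
    intro x hx
    have h2 := W_lower h.hs hy hE hx
    have h3 := hsign t x ht (by linarith) hlt
    rw [abs_of_neg h3] at h2
    have h4 : 1 ≤ Real.exp x := Real.one_le_exp (by linarith)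
    nlinarith
  have hq0 : ∀ x, 0 ≤ q x := fun x => sq_nonneg _
  set y₁ : ℝ := y₀ + (q y₀ + 1) / (2 * c₁) with hy₁
  have hy01 : y₀ ≤ y₁ := by
    have := hq0 y₀
    have h3 : 0 ≤ (q y₀ + 1) / (2 * c₁) := by positivity
    linarith
  have hmv := (convex_Icc y₀ y₁).image_sub_le_mul_sub_of_deriv_le (f := q) (C := -(2 * c₁))
    (fun x _ => (hder x).continuousAt.continuousWithinAt)
    (fun x _ => (hder x).differentiableAt.differentiableWithinAt)
    (fun x hx => by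
      rw [(hder x).deriv]
      have hx2 : x ∈ Icc y₀ y₁ := interior_subset hx
      have := hle x hx2.1
      linarith)
    y₀ (left_mem_Icc.2 hy01) y₁ (right_mem_Icc.2 hy01) hy01
  have h5 : -(2 * c₁) * (y₁ - y₀) = -(q y₀ + 1) := by
    rw [hy₁]
    field_simp
    ring
  rw [h5] at hmv
  have := hq0 y₁
  linarith

private theorem G_imag_eq (hs : IsE (1 / 2) 1 s) {c t : ℝ} (hc : E s (c : ℂ) = 0) (ht : 0 < t) :
    (G s c ((t : ℂ) * I)).re = -(t * W s t / (t ^ 2 + c ^ 2)) := by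
  have h2 := G_spec hs hc ((t : ℂ) * I)
  have hpos : 0 < t ^ 2 + c ^ 2 := by positivity
  have h3 : (((t : ℂ) * I) ^ 2 - (c : ℂ) ^ 2) = -((t ^ 2 + c ^ 2 : ℝ) : ℂ) := by
    push_cast
    rw [mul_pow, Complex.I_sq]
    ring
  have h4 : (t : ℂ) * I * E s ((t : ℂ) * I) = ((t * W s t : ℝ) : ℂ) := by
    push_cast
    rw [← E_imag hs]
    ring
  rw [h3, h4] at h2
  have h5 : G s c ((t : ℂ) * I) = ((-(t * W s t / (t ^ 2 + c ^ 2)) : ℝ) : ℂ) := by
    have hne : ((t ^ 2 + c ^ 2 : ℝ) : ℂ) ≠ 0 := by exact_mod_cast hpos.ne'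
    rw [Complex.ofReal_neg, Complex.ofReal_div, ← h2]
    field_simp
  rw [h5, Complex.ofReal_re]

private theorem G_zero (hs : IsE (1 / 2) 1 s) {c : ℝ} (hc0 : 0 < c) (hc : E s (c : ℂ) = 0) :
    G s c 0 = 0 := by
  have h2 := G_spec hs hc 0
  rw [zero_mul] at h2
  rcases mul_eq_zero.1 h2 with h3 | h3
  · exfalso
    have h5 : (c : ℂ) ^ 2 = 0 := by linear_combination -h3
    have h6 : (c : ℂ) = 0 := by simpa using h5
    exact hc0.ne' (by exact_mod_cast h6)
  · exact h3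

end Tail

open Tail

theorem weight_pos {α : ℝ} (h0 : 0 < α) (h1 : α < 1) (h : PellData s P Q) :
    ∃ K : ℝ, 0 < K ∧ ∀ c : ℝ, K ≤ c → E s (c : ℂ) = 0 → 0 < Lf α (G s c) := by
  obtain ⟨y₀, c₁, hy, hc₁, hE⟩ := lower_E h
  obtain ⟨C₂, hC₂, hp⟩ := pois_G h.hs
  obtain ⟨M, -, hM⟩ := G_isE h.hs
  obtain ⟨K, hK2, hK⟩ := core h0 h1 hc₁ hy hC₂
  refine ⟨K, by linarith, fun c hc hc0 => ?_⟩
  have hcpos : 0 < c := by linarith
  rw [Lf_eq_Lr h0 h1 (hM c hc0), Lr]
  have hG : 0 < α / Real.Gamma (1 - α) := div_pos h0 (Real.Gamma_pos_of_pos (by linarith))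
  refine mul_pos hG ?_
  refine hK c hc (fun t => t ^ (-α - 1) * brk (G s c) t) (fun t => t * W s t / (t ^ 2 + c ^ 2))
    (fun t => Pois t (G s c)) (integrableOn_brk h0 h1 (hM c hc0)) ?_ ?_ ?_ ?_
  · intro t ht
    simp only [brk]
    rw [G_imag_eq h.hs hc0 ht, G_zero h.hs hcpos hc0, Complex.zero_re]
    ring
  · intro t ht
    have := W_pos h hy hc₁ hE ht
    positivity
  · intro t ht
    have ht0 : 0 < t := by linarith
    have h2 := W_lower h.hs hy hE ht
    rw [abs_of_pos (W_pos h hy hc₁ hE ht0)] at h2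
    refine div_le_div_of_nonneg_right ?_ (by positivity)
    calc c₁ * t * Real.exp t = t * (c₁ * Real.exp t) := by ring
      _ ≤ t * W s t := mul_le_mul_of_nonneg_left h2 ht0.le
  · intro t ht
    exact hp c (hK2.trans hc) hc0 t ht

end Helper22.SC
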